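import Mathlib

set_option autoImplicit false

/-!
# Linear systems depending on a parameter
-/

namespace Pool.Agent.W608.PR

open Polynomial

/-- A linear system over a domain without nonzero solution has a nonzero maximal minor. -/
theorem exists_minor {R : Type*} [CommRing R] [IsDomain R] {Q J : Type*} [Fintype J]
    [DecidableEq J] (A : Q → J → R) (h : ∀ v : J → R, (∀ q, ∑ j, A q j * v j = 0) → v = 0) :
    ∃ e : J → Q, (Matrix.of fun i j => A (e i) j).det ≠ 0 := by
  classical
  let F := FractionRing R
  let ρ : Q → J → F := fun q j => algebraMap R F (A q j)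
  have hspan : Submodule.span F (Set.range ρ) = ⊤ := by
    by_contra hne
    obtain ⟨φ, hφ0, hφ⟩ := Submodule.exists_le_ker_of_lt_top _ (lt_top_iff_ne_top.2 hne)
    have h1 : ∀ x : J → F, φ x = ∑ j, x j * φ (Pi.single j 1) := by
      intro x
      have h2 : x = ∑ j, x j • (Pi.single j (1 : F) : J → F) := by
        ext k
        simp [Finset.sum_apply, Pi.single_apply]
      conv_lhs => rw [h2]
      rw [map_sum]
      exact Finset.sum_congr rfl fun j _ => by rw [map_smul, smul_eq_mul]
    obtain ⟨b, hb⟩ := IsLocalization.exist_integer_multiples_of_finite (nonZeroDivisors R)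
      (fun j => φ (Pi.single j 1))
    choose v hv using hb
    have hb0 : (algebraMap R F) (b : R) ≠ 0 := by
      rw [Ne, FaithfulSMul.algebraMap_eq_zero_iff]
      exact nonZeroDivisors.ne_zero b.2
    have hv' : ∀ j, algebraMap R F (v j) = algebraMap R F (b : R) * φ (Pi.single j 1) := by
      intro j
      rw [hv j, Algebra.smul_def]
    have h3 : v = 0 := by
      refine h v fun q => ?_
      have h4 : φ (ρ q) = 0 := hφ (Submodule.subset_span ⟨q, rfl⟩)
      rw [h1] at h4
      have h5 : algebraMap R F (∑ j, A q j * v j) = 0 := by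
        rw [map_sum]
        have h6 : ∀ j, algebraMap R F (A q j * v j) =
            algebraMap R F (b : R) * (ρ q j * φ (Pi.single j 1)) := by
          intro j
          rw [map_mul, hv']
          ring
        rw [Finset.sum_congr rfl fun j _ => h6 j, ← Finset.mul_sum, h4, mul_zero]
      exact (FaithfulSMul.algebraMap_eq_zero_iff R F).1 h5
    refine hφ0 (LinearMap.ext fun x => ?_)
    rw [h1, LinearMap.zero_apply]
    refine Finset.sum_eq_zero fun j _ => ?_
    have h7 := hv' j
    rw [h3, Pi.zero_apply, map_zero] at h7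
    rw [(mul_eq_zero.1 h7.symm).resolve_left hb0, mul_zero]
  obtain ⟨b, hb, hbs, hbl⟩ := exists_linearIndependent F (Set.range ρ)
  have hbs' : ⊤ ≤ Submodule.span F (Set.range ((↑) : b → J → F)) := by
    rw [Subtype.range_coe, hbs, hspan]
  let B : Module.Basis b F (J → F) := Module.Basis.mk hbl hbs'
  have hcard : Nonempty (J ≃ b) := by
    have hfin : Finite b := Module.Finite.finite_basis B
    have : Fintype b := Fintype.ofFinite b
    refine Fintype.card_eq.1 ?_
    rw [← Module.finrank_eq_card_basis B, Module.finrank_fintype_fun_eq_card]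
  obtain ⟨eb⟩ := hcard
  have hq : ∀ i : J, ∃ q, ρ q = (eb i : J → F) := fun i => hb (eb i).2
  choose e he using hq
  refine ⟨e, ?_⟩
  have hli : LinearIndependent F (fun i : J => ρ (e i)) := by
    have h8 : (fun i : J => ρ (e i)) = ((↑) : b → J → F) ∘ eb := by
      funext i
      exact he i
    rw [h8]
    exact hbl.comp _ eb.injective
  have hu := Matrix.linearIndependent_rows_iff_isUnit.1
    (show LinearIndependent F (Matrix.of fun i j => ρ (e i) j).row from hli)
  rw [Matrix.isUnit_iff_isUnit_det] at hu
  intro h0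
  refine hu.ne_zero ?_
  have h9 : (Matrix.of fun i j => ρ (e i) j) =
      (algebraMap R F).mapMatrix (Matrix.of fun i j => A (e i) j) := by
    ext i j
    rfl
  rw [h9, ← RingHom.map_det, h0, map_zero]

/-- The system with parameter `u` has only the zero solution. -/
def InjAt {K : Type*} [Field K] {Q J : Type*} [Fintype J] (A : Q → J → K[X]) (u : K) : Prop :=
  ∀ v : J → K, (∀ q, ∑ j, (A q j).eval u * v j = 0) → v = 0

/-- The generic system has only the zero solution. -/
def InjGen {K : Type*} [Field K] {Q J : Type*} [Fintype J] (A : Q → J → K[X]) : Prop :=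
  ∀ v : J → K[X], (∀ q, ∑ j, A q j * v j = 0) → v = 0

theorem InjGen.finite {K : Type*} [Field K] {Q J : Type*} [Fintype J] {A : Q → J → K[X]}
    (h : InjGen A) : {u | ¬ InjAt A u}.Finite := by
  classical
  obtain ⟨e, he⟩ := exists_minor A h
  refine (Polynomial.finite_setOf_isRoot he).subset fun u hu => ?_
  rw [Set.mem_setOf_eq] at hu ⊢
  by_contra hr
  refine hu fun v hv => ?_
  rw [IsRoot] at hr
  have h1 : (Matrix.of fun i j => (A (e i) j).eval u).det ≠ 0 := by
    have h2 : (Matrix.of fun i j => (A (e i) j).eval u) =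
        (evalRingHom u).mapMatrix (Matrix.of fun i j => A (e i) j) := by
      ext i j
      rfl
    rw [h2, ← RingHom.map_det]
    exact hr
  exact Matrix.eq_zero_of_mulVec_eq_zero h1 (funext fun i => hv (e i))

/-- Division of a vector of polynomials by the powers of `X - u`. -/
theorem exists_prim {K : Type*} [Field K] {J : Type*} [Fintype J] (u : K) (v : J → K[X])
    (hv : v ≠ 0) : ∃ (k : ℕ) (v' : J → K[X]), (∀ j, v j = (X - C u) ^ k * v' j) ∧
      ∃ j, (v' j).eval u ≠ 0 := by
  classical
  obtain ⟨j0, hj0⟩ := Function.ne_iff.1 hv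
  obtain ⟨n, hn⟩ : ∃ n, n = (v j0).natDegree := ⟨_, rfl⟩
  induction n generalizing v with
  | zero =>
    refine ⟨0, v, fun j => by rw [pow_zero, one_mul], j0, ?_⟩
    rw [Polynomial.eq_C_of_natDegree_eq_zero hn.symm, eval_C]
    intro h
    apply hj0
    rw [Pi.zero_apply, Polynomial.eq_C_of_natDegree_eq_zero hn.symm, h, C_0]
  | succ n ih =>
    by_cases h : ∃ j, (v j).eval u ≠ 0
    · exact ⟨0, v, fun j => by rw [pow_zero, one_mul], h⟩
    · push Not at h
      have h1 : ∀ j, ∃ g, v j = (X - C u) * g := fun j => dvd_iff_isRoot.2 (h j)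
      choose g hg using h1
      have hg0 : g j0 ≠ 0 := by
        intro h0
        apply hj0
        rw [hg, h0, mul_zero, Pi.zero_apply]
      obtain ⟨k, v', h2, h3⟩ := ih g (fun h0 => hg0 (by rw [h0, Pi.zero_apply])) hg0 (by
        have h4 : (v j0).natDegree = 1 + (g j0).natDegree := by
          rw [hg, Polynomial.natDegree_mul (X_sub_C_ne_zero u) hg0, natDegree_X_sub_C]
        omega)
      exact ⟨k + 1, v', fun j => by rw [hg, h2]; ring, h3⟩

theorem InjAt.gen {K : Type*} [Field K] {Q J : Type*} [Fintype J] {A : Q → J → K[X]} {u : K}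
    (h : InjAt A u) : InjGen A := by
  intro v hv
  by_contra hne
  obtain ⟨k, v', h1, j, hj⟩ := exists_prim u v hne
  apply hj
  have h2 : (fun j => (v' j).eval u) = 0 := by
    refine h _ fun q => ?_
    have h3 : (X - C u) ^ k * ∑ j, A q j * v' j = 0 := by
      rw [← hv q, Finset.mul_sum]
      exact Finset.sum_congr rfl fun j _ => by rw [h1 j]; ring
    have h4 := (mul_eq_zero.1 h3).resolve_left (pow_ne_zero _ (X_sub_C_ne_zero u))
    have h5 := congrArg (Polynomial.eval u) h4
    rw [eval_finsetSum, eval_zero] at h5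
    rw [← h5]
    exact Finset.sum_congr rfl fun j _ => by rw [eval_mul]
  exact congrFun h2 j

end Pool.Agent.W608.PR
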