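import Mathlib
import Pool.Agent.W608.PR.Minor

set_option autoImplicit false

/-!
# Vanishing conditions at points of affine space, one coordinate being separated
-/

namespace Pool.Agent.W608.PR

open Polynomial

variable {R : Type*} [CommRing R] {E : ℕ} {ι : Type*}

/-- Polynomials in `x_0, …, x_E` over the polynomials in `z`. -/
abbrev Pz (E : ℕ) (R : Type*) [CommRing R] := MvPolynomial (Fin (E + 1)) R[X]

/-- Translation of the `x`-coordinates. -/
noncomputable def sx (p : Fin (E + 1) → R) : Pz E R →ₐ[R[X]] Pz E R :=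
  MvPolynomial.aeval (fun j => MvPolynomial.X j + MvPolynomial.C (Polynomial.C (p j)))

theorem sx_X (p : Fin (E + 1) → R) (j : Fin (E + 1)) :
    sx p (MvPolynomial.X j) = MvPolynomial.X j + MvPolynomial.C (Polynomial.C (p j)) := by
  simp [sx]

theorem sx_C (p : Fin (E + 1) → R) (a : R[X]) :
    sx p (MvPolynomial.C a) = MvPolynomial.C a := (sx p).commutes a

/-- The condition of order `(a, b)` at the point `(p, c)`. -/
noncomputable def fn (p : Fin (E + 1) → R) (c : R) (a : Fin (E + 1) →₀ ℕ) (b : ℕ)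
    (f : Pz E R) : R :=
  (taylor c (MvPolynomial.coeff a (sx p f))).coeff b

theorem fn_add (p : Fin (E + 1) → R) (c : R) (a : Fin (E + 1) →₀ ℕ) (b : ℕ) (f g : Pz E R) :
    fn p c a b (f + g) = fn p c a b f + fn p c a b g := by
  unfold fn
  rw [map_add, MvPolynomial.coeff_add, map_add, coeff_add]

theorem fn_smul (p : Fin (E + 1) → R) (c : R) (a : Fin (E + 1) →₀ ℕ) (b : ℕ) (r : R)
    (f : Pz E R) :
    fn p c a b (MvPolynomial.C (Polynomial.C r) * f) = r * fn p c a b f := by
  unfold fn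
  rw [map_mul, sx_C, MvPolynomial.coeff_C_mul, taylor_mul, taylor_C, coeff_C_mul]

theorem fn_zero (p : Fin (E + 1) → R) (c : R) (a : Fin (E + 1) →₀ ℕ) (b : ℕ) :
    fn p c a b (0 : Pz E R) = 0 := by
  unfold fn
  rw [map_zero, MvPolynomial.coeff_zero, map_zero, coeff_zero]

theorem fn_sum {J : Type*} (p : Fin (E + 1) → R) (c : R) (a : Fin (E + 1) →₀ ℕ) (b : ℕ)
    (s : Finset J) (f : J → Pz E R) :
    fn p c a b (∑ j ∈ s, f j) = ∑ j ∈ s, fn p c a b (f j) := by
  classical
  induction s using Finset.induction_on with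
  | empty => rw [Finset.sum_empty, Finset.sum_empty, fn_zero]
  | insert j s hj ih => rw [Finset.sum_insert hj, Finset.sum_insert hj, fn_add, ih]

theorem dvd_iff_taylor (c : R) (n : ℕ) (g : R[X]) :
    (X - C c) ^ n ∣ g ↔ ∀ b < n, (taylor c g).coeff b = 0 := by
  rw [X_sub_C_pow_dvd_iff, X_pow_dvd_iff]
  rfl

theorem fn_map {S : Type*} [CommRing S] (φ : R →+* S) (p : Fin (E + 1) → R) (c : R)
    (a : Fin (E + 1) →₀ ℕ) (b : ℕ) (f : Pz E R) :
    fn (fun j => φ (p j)) (φ c) a b (MvPolynomial.map (mapRingHom φ) f) = φ (fn p c a b f) := by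
  unfold fn
  have h1 : sx (fun j => φ (p j)) (MvPolynomial.map (mapRingHom φ) f) =
      MvPolynomial.map (mapRingHom φ) (sx p f) := by
    have h : ((sx (fun j => φ (p j)) : Pz E S →+* Pz E S).comp
        (MvPolynomial.map (mapRingHom φ))) =
        (MvPolynomial.map (mapRingHom φ)).comp (sx p : Pz E R →+* Pz E R) := by
      refine MvPolynomial.ringHom_ext (fun r => ?_) fun i => ?_
      · rw [RingHom.comp_apply, RingHom.comp_apply, MvPolynomial.map_C, RingHom.coe_coe,
          RingHom.coe_coe, sx_C, sx_C, MvPolynomial.map_C]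
      · rw [RingHom.comp_apply, RingHom.comp_apply, MvPolynomial.map_X, RingHom.coe_coe,
          RingHom.coe_coe, sx_X, sx_X, map_add, MvPolynomial.map_X, MvPolynomial.map_C,
          coe_mapRingHom, Polynomial.map_C]
    exact congrArg (fun ψ : Pz E R →+* Pz E S => ψ f) h
  rw [h1, MvPolynomial.coeff_map, coe_mapRingHom]
  have h2 : taylor (φ c) ((MvPolynomial.coeff a (sx p f)).map φ) =
      (taylor c (MvPolynomial.coeff a (sx p f))).map φ := by
    rw [taylor_apply, taylor_apply, Polynomial.map_comp, Polynomial.map_add, Polynomial.map_X,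
      Polynomial.map_C]
  rw [h2, coeff_map]

/-- The exponents of the monomials. -/
abbrev Ex (E : ℕ) := (Fin (E + 1) →₀ ℕ) × ℕ

/-- No nonzero polynomial with monomials in `M` satisfies the conditions of the profile `N` at
the points `(p i, c i)`. -/
def Emp (R : Type*) [CommRing R] (M : Set (Ex E)) (N : ι → ℕ → ℕ) (p : ι → Fin (E + 1) → R)
    (c : ι → R) : Prop :=
  ∀ f : Pz E R, (∀ α l, (MvPolynomial.coeff α f).coeff l ≠ 0 → (α, l) ∈ M) →
    (∀ i a b, b < N i (Finsupp.degree a) → fn (p i) (c i) a b f = 0) → f = 0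

/-- A monomial. -/
noncomputable def mn (R : Type*) [CommRing R] (m : Ex E) : Pz E R :=
  MvPolynomial.monomial m.1 (Polynomial.monomial m.2 1)

theorem map_mn {S : Type*} [CommRing S] (φ : R →+* S) (m : Ex E) :
    MvPolynomial.map (mapRingHom φ) (mn R m) = mn S m := by
  unfold mn
  rw [MvPolynomial.map_monomial, coe_mapRingHom, Polynomial.map_monomial, map_one]

theorem coeff_C_mn (r : R) (m : Ex E) (α : Fin (E + 1) →₀ ℕ) (l : ℕ) :
    (MvPolynomial.coeff α (MvPolynomial.C (Polynomial.C r) * mn R m)).coeff l =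
      if m = (α, l) then r else 0 := by
  classical
  unfold mn
  rw [MvPolynomial.coeff_C_mul, coeff_C_mul, MvPolynomial.coeff_monomial]
  by_cases h : m.1 = α
  · rw [if_pos h, Polynomial.coeff_monomial]
    by_cases h' : m.2 = l
    · rw [if_pos h', if_pos (Prod.ext h h'), mul_one]
    · rw [if_neg h', if_neg (fun hm => h' (by rw [hm])), mul_zero]
  · rw [if_neg h, coeff_zero, if_neg (fun hm => h (by rw [hm])), mul_zero]

/-- The polynomial with given coefficients. -/
noncomputable def pol {M : Finset (Ex E)} (v : M → R) : Pz E R :=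
  ∑ m : M, MvPolynomial.C (Polynomial.C (v m)) * mn R m.1

theorem coeff_pol {M : Finset (Ex E)} (v : M → R) (α : Fin (E + 1) →₀ ℕ) (l : ℕ) :
    (MvPolynomial.coeff α (pol v)).coeff l = if h : (α, l) ∈ M then v ⟨(α, l), h⟩ else 0 := by
  classical
  unfold pol
  rw [MvPolynomial.coeff_sum, finsetSum_coeff]
  simp only [coeff_C_mn]
  by_cases h : (α, l) ∈ M
  · rw [dif_pos h, Finset.sum_eq_single ⟨(α, l), h⟩]
    · rw [if_pos rfl]
    · intro m _ hm
      rw [if_neg (fun h' => hm (Subtype.ext h'))]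
    · intro h'
      exact absurd (Finset.mem_univ _) h'
  · rw [dif_neg h]
    refine Finset.sum_eq_zero fun m _ => ?_
    rw [if_neg]
    intro h'
    exact h (h' ▸ m.2)

theorem eq_of_coeff {f g : Pz E R}
    (h : ∀ α l, (MvPolynomial.coeff α f).coeff l = (MvPolynomial.coeff α g).coeff l) : f = g :=
  MvPolynomial.ext _ _ fun α => Polynomial.ext fun l => h α l

theorem pol_coeff {M : Finset (Ex E)} {f : Pz E R}
    (hf : ∀ α l, (MvPolynomial.coeff α f).coeff l ≠ 0 → (α, l) ∈ M) :
    pol (fun m : M => (MvPolynomial.coeff m.1.1 f).coeff m.1.2) = f := by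
  refine eq_of_coeff fun α l => ?_
  rw [coeff_pol]
  by_cases h : (α, l) ∈ M
  · rw [dif_pos h]
  · rw [dif_neg h]
    by_contra hne
    exact h (hf α l (Ne.symm hne))

theorem fn_pol {M : Finset (Ex E)} (v : M → R) (p : Fin (E + 1) → R) (c : R)
    (a : Fin (E + 1) →₀ ℕ) (b : ℕ) :
    fn p c a b (pol v) = ∑ m : M, fn p c a b (mn R m.1) * v m := by
  unfold pol
  rw [fn_sum]
  exact Finset.sum_congr rfl fun m _ => by rw [fn_smul, mul_comm]

/-- The index type of the conditions. -/
abbrev Cq (E : ℕ) (N : ι → ℕ → ℕ) :=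
  {q : ι × (Fin (E + 1) →₀ ℕ) × ℕ // q.2.2 < N q.1 (Finsupp.degree q.2.1)}

/-- The matrix of the conditions. -/
noncomputable def mat {M : Finset (Ex E)} (N : ι → ℕ → ℕ) (p : ι → Fin (E + 1) → R)
    (c : ι → R) (q : Cq E N) (m : M) : R :=
  fn (p q.1.1) (c q.1.1) q.1.2.1 q.1.2.2 (mn R m.1)

theorem emp_iff {M : Finset (Ex E)} {N : ι → ℕ → ℕ} {p : ι → Fin (E + 1) → R} {c : ι → R} :
    Emp R (↑M : Set (Ex E)) N p c ↔
      ∀ v : M → R, (∀ q : Cq E N, ∑ m, mat N p c q m * v m = 0) → v = 0 := by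
  constructor
  · intro h v hv
    have h1 := h (pol v) (fun α l hne => ?_) (fun i a b hb => ?_)
    · funext m
      have h2 := coeff_pol v m.1.1 m.1.2
      rw [h1, MvPolynomial.coeff_zero, coeff_zero, dif_pos m.2] at h2
      exact h2.symm
    · rw [coeff_pol] at hne
      by_contra hm
      exact hne (dif_neg hm)
    · rw [fn_pol]
      exact hv ⟨(i, a, b), hb⟩
  · intro h f hf hc
    have h1 := h (fun m : M => (MvPolynomial.coeff m.1.1 f).coeff m.1.2) (fun q => ?_)
    · have h2 := pol_coeff (M := M) hf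
      rw [h1] at h2
      rw [← h2]
      refine eq_of_coeff fun α l => ?_
      rw [coeff_pol]
      split_ifs <;> simp
    · have h2 := hc q.1.1 q.1.2.1 q.1.2.2 q.2
      rw [← pol_coeff (M := M) hf, fn_pol] at h2
      exact h2

variable {K : Type*} [Field K]

theorem emp_eval_iff {M : Finset (Ex E)} {N : ι → ℕ → ℕ} {p : ι → Fin (E + 1) → K[X]}
    {c : ι → K[X]} {u : K} :
    Emp K (↑M : Set (Ex E)) N (fun i j => (p i j).eval u) (fun i => (c i).eval u) ↔
      InjAt (mat (M := M) N p c) u := by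
  rw [emp_iff]
  unfold InjAt
  have h : ∀ (q : Cq E N) (m : M), mat N (fun i j => (p i j).eval u) (fun i => (c i).eval u) q m =
      (mat N p c q m).eval u := by
    intro q m
    unfold mat
    have h1 := fn_map (evalRingHom u) (p q.1.1) (c q.1.1) q.1.2.1 q.1.2.2 (mn K[X] m.1)
    rw [map_mn] at h1
    exact h1
  simp only [h]

/-- Specialization of the parameter. -/
theorem Emp.spec {M : Finset (Ex E)} {N : ι → ℕ → ℕ} {p : ι → Fin (E + 1) → K[X]}
    {c : ι → K[X]} (h : Emp K[X] (↑M : Set (Ex E)) N p c) :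
    {u | ¬ Emp K (↑M : Set (Ex E)) N (fun i j => (p i j).eval u)
      (fun i => (c i).eval u)}.Finite := by
  simp only [emp_eval_iff]
  exact InjGen.finite (emp_iff.1 h)

/-- Generization. -/
theorem Emp.gen {M : Finset (Ex E)} {N : ι → ℕ → ℕ} {p : ι → Fin (E + 1) → K[X]}
    {c : ι → K[X]} {u : K}
    (h : Emp K (↑M : Set (Ex E)) N (fun i j => (p i j).eval u) (fun i => (c i).eval u)) :
    Emp K[X] (↑M : Set (Ex E)) N p c :=
  emp_iff.2 (InjAt.gen (emp_eval_iff.1 h))

/-- Openness along a line. -/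
theorem Emp.line {M : Finset (Ex E)} {N : ι → ℕ → ℕ} {p q : ι → Fin (E + 1) → K} {c d : ι → K}
    {u₀ : K}
    (h : Emp K (↑M : Set (Ex E)) N (fun i j => p i j + u₀ * q i j) (fun i => c i + u₀ * d i)) :
    {u | ¬ Emp K (↑M : Set (Ex E)) N (fun i j => p i j + u * q i j)
      (fun i => c i + u * d i)}.Finite := by
  have e : ∀ u a b : K, (C a + X * C b : K[X]).eval u = a + u * b := by
    intro u a b
    rw [eval_add, eval_C, eval_mul, eval_X, eval_C]
  have h1 : Emp K[X] (↑M : Set (Ex E)) N (fun i j => C (p i j) + X * C (q i j))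
      (fun i => C (c i) + X * C (d i)) := by
    refine Emp.gen (u := u₀) ?_
    simp only [e]
    exact h
  have h2 := h1.spec
  simp only [e] at h2
  exact h2

theorem Emp.mono {M M' : Set (Ex E)} {N N' : ι → ℕ → ℕ} {p : ι → Fin (E + 1) → R} {c : ι → R}
    (h : Emp R M N p c) (hM : M' ⊆ M) (hN : ∀ i s, N i s ≤ N' i s) : Emp R M' N' p c :=
  fun f h1 h2 => h f (fun α l h3 => hM (h1 α l h3)) fun i a b hb =>
    h2 i a b (lt_of_lt_of_le hb (hN i _))

end Pool.Agent.W608.PR
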