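import Mathlib
import Pool.Agent.W608.PR.Emp

set_option autoImplicit false

/-!
# The differential Horace lemma
-/

namespace Pool.Agent.W608.PR

open Polynomial

variable {R : Type*} [CommRing R] {E : ℕ} {ι : Type*}

/-- Translation. -/
noncomputable def sh (p : Fin (E + 1) → R) :
    MvPolynomial (Fin (E + 1)) R →ₐ[R] MvPolynomial (Fin (E + 1)) R :=
  MvPolynomial.aeval (fun j => MvPolynomial.X j + MvPolynomial.C (p j))

theorem sh_X (p : Fin (E + 1) → R) (j : Fin (E + 1)) :
    sh p (MvPolynomial.X j) = MvPolynomial.X j + MvPolynomial.C (p j) := by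
  simp [sh]

theorem sh_C (p : Fin (E + 1) → R) (a : R) :
    sh p (MvPolynomial.C a) = MvPolynomial.C a := (sh p).commutes a

/-- Restriction to `z = 0`. -/
noncomputable def ev0 (E : ℕ) (R : Type*) [CommRing R] :
    Pz E R →+* MvPolynomial (Fin (E + 1)) R :=
  MvPolynomial.map (evalRingHom 0)

theorem coeff_ev0 (f : Pz E R) (α : Fin (E + 1) →₀ ℕ) :
    MvPolynomial.coeff α (ev0 E R f) = (MvPolynomial.coeff α f).coeff 0 := by
  unfold ev0
  rw [MvPolynomial.coeff_map, coe_evalRingHom, coeff_zero_eq_eval_zero]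

theorem ev0_sx (p : Fin (E + 1) → R) (f : Pz E R) : ev0 E R (sx p f) = sh p (ev0 E R f) := by
  have h : (ev0 E R).comp (sx p : Pz E R →+* Pz E R) =
      (sh p : MvPolynomial (Fin (E + 1)) R →+* MvPolynomial (Fin (E + 1)) R).comp (ev0 E R) := by
    refine MvPolynomial.ringHom_ext (fun r => ?_) fun i => ?_
    · rw [RingHom.comp_apply, RingHom.comp_apply, RingHom.coe_coe, RingHom.coe_coe, sx_C, ev0,
        MvPolynomial.map_C, sh_C]
    · rw [RingHom.comp_apply, RingHom.comp_apply, RingHom.coe_coe, RingHom.coe_coe, sx_X, ev0,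
        MvPolynomial.map_X, sh_X, map_add, MvPolynomial.map_X, MvPolynomial.map_C,
        coe_evalRingHom, eval_C]
  exact congrArg (fun ψ : Pz E R →+* MvPolynomial (Fin (E + 1)) R => ψ f) h

theorem coeff_sx_zero (p : Fin (E + 1) → R) (f : Pz E R) (a : Fin (E + 1) →₀ ℕ) :
    (MvPolynomial.coeff a (sx p f)).coeff 0 = MvPolynomial.coeff a (sh p (ev0 E R f)) := by
  rw [← ev0_sx, coeff_ev0]

theorem sh_map {S : Type*} [CommRing S] (φ : R →+* S) (p : Fin (E + 1) → R)
    (f : MvPolynomial (Fin (E + 1)) R) :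
    sh (fun j => φ (p j)) (MvPolynomial.map φ f) = MvPolynomial.map φ (sh p f) := by
  have h : ((sh (fun j => φ (p j)) : MvPolynomial (Fin (E + 1)) S →+*
      MvPolynomial (Fin (E + 1)) S).comp (MvPolynomial.map φ)) =
      (MvPolynomial.map φ).comp (sh p : MvPolynomial (Fin (E + 1)) R →+*
        MvPolynomial (Fin (E + 1)) R) := by
    refine MvPolynomial.ringHom_ext (fun r => ?_) fun i => ?_
    · rw [RingHom.comp_apply, RingHom.comp_apply, MvPolynomial.map_C, RingHom.coe_coe,
        RingHom.coe_coe, sh_C, sh_C, MvPolynomial.map_C]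
    · rw [RingHom.comp_apply, RingHom.comp_apply, MvPolynomial.map_X, RingHom.coe_coe,
        RingHom.coe_coe, sh_X, sh_X, map_add, MvPolynomial.map_X, MvPolynomial.map_C]
  exact congrArg (fun ψ : MvPolynomial (Fin (E + 1)) R →+* MvPolynomial (Fin (E + 1)) S => ψ f) h

theorem sx_map {S : Type*} [CommRing S] (φ : R →+* S) (p : Fin (E + 1) → R) (f : Pz E R) :
    sx (fun j => φ (p j)) (MvPolynomial.map (mapRingHom φ) f) =
      MvPolynomial.map (mapRingHom φ) (sx p f) := by
  have h : ((sx (fun j => φ (p j)) : Pz E S →+* Pz E S).comp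
      (MvPolynomial.map (mapRingHom φ))) =
      (MvPolynomial.map (mapRingHom φ)).comp (sx p : Pz E R →+* Pz E R) := by
    refine MvPolynomial.ringHom_ext (fun r => ?_) fun i => ?_
    · rw [RingHom.comp_apply, RingHom.comp_apply, MvPolynomial.map_C, RingHom.coe_coe,
        RingHom.coe_coe, sx_C, sx_C, MvPolynomial.map_C]
    · rw [RingHom.comp_apply, RingHom.comp_apply, MvPolynomial.map_X, RingHom.coe_coe,
        RingHom.coe_coe, sx_X, sx_X, map_add, MvPolynomial.map_X, MvPolynomial.map_C,
        coe_mapRingHom, Polynomial.map_C]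
  exact congrArg (fun ψ : Pz E R →+* Pz E S => ψ f) h

/-- The exponents of degree at most `e`. -/
def Ms (E e : ℕ) : Set (Ex E) := {q | Finsupp.degree q.1 + q.2 ≤ e}

variable {K : Type*} [Field K]

/-- No nonzero polynomial of degree at most `e` in the `x`-variables vanishes to order `u i` at
the points `p i`. -/
def TEp (e : ℕ) (u : ι → ℕ) (p : ι → Fin (E + 1) → K) : Prop :=
  ∀ h : MvPolynomial (Fin (E + 1)) K, (∀ α, MvPolynomial.coeff α h ≠ 0 → Finsupp.degree α ≤ e) →
    (∀ i a, Finsupp.degree a < u i → MvPolynomial.coeff a (sh (p i) h) = 0) → h = 0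

/-- The points which are not moved in a step. -/
def KindAB (c : ι → K) (u : ι → ℕ) (N N' : ι → ℕ → ℕ) (c' : ι → K) (i : ι) : Prop :=
  (c i = 0 ∧ (∀ s, s < u i → 1 ≤ N i s) ∧ (∀ s, N' i s ≤ N i s - 1) ∧ c' i = 0) ∨
  (c i ≠ 0 ∧ u i = 0 ∧ (∀ s, N' i s ≤ N i s) ∧ c' i = c i)

/-- The points which are moved to the hyperplane in a step. -/
def KindC (m : ℕ) (u : ι → ℕ) (N N' : ι → ℕ → ℕ) (c' : ι → K) (i : ι) : Prop :=
  ∃ w, 1 ≤ u i ∧ u i ≤ w ∧ w ≤ m ∧ (∀ s, N i s = w - s) ∧
    (∀ s, N' i s ≤ if s < u i then w - s - 1 else w - s) ∧ c' i = 0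

theorem exists_lam {m q : ℕ} (hq : q < m) : ∃ l, 1 ≤ l ∧ l * q ≤ m * m ∧ m * m < l * (q + 1) := by
  rcases Nat.eq_zero_or_pos q with h | h
  · exact ⟨m * m + 1, by omega, by rw [h]; omega, by rw [h]; omega⟩
  · have h1 : q ≤ m * m / q := by
      rw [Nat.le_div_iff_mul_le h]
      exact Nat.mul_le_mul hq.le hq.le
    refine ⟨m * m / q, by omega, Nat.div_mul_le_self _ _, ?_⟩
    have h2 := Nat.div_add_mod (m * m) q
    have h3 := Nat.mod_lt (m * m) h
    have h4 : m * m / q * (q + 1) = q * (m * m / q) + m * m / q := by ring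
    rw [h4]
    omega

theorem X_dvd_of_eval {g : K[X]} (h : X ∣ g) : g.eval 0 = 0 := by
  obtain ⟨r, rfl⟩ := h
  rw [eval_mul, eval_X, zero_mul]

/-- **Differential Horace lemma**, over the polynomials in the parameter `t`. -/
theorem horace_gen {e m : ℕ} {N N' : ι → ℕ → ℕ} {u : ι → ℕ} {p : ι → Fin (E + 1) → K}
    {c c' : ι → K} (P3 : ι → Prop) (hk : ∀ i, ¬ P3 i → KindAB c u N N' c' i)
    (hk3 : ∀ i, P3 i → KindC m u N N' c' i) (hT : TEp (e + 1) u p)
    (hR : Emp K (Ms E e) N' p c') :
    ∃ ct : ι → K[X], (∀ i, ¬ P3 i → ct i = C (c i)) ∧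
      Emp K[X] (Ms E (e + 1)) N (fun i j => C (p i j)) ct := by
  classical
  have hlam : ∀ i, P3 i → ∃ (w l : ℕ), (1 ≤ u i ∧ u i ≤ w ∧ w ≤ m ∧ (∀ s, N i s = w - s) ∧
      (∀ s, N' i s ≤ if s < u i then w - s - 1 else w - s) ∧ c' i = 0) ∧
      1 ≤ l ∧ l * (w - u i) ≤ m * m ∧ m * m < l * (w - u i + 1) := by
    intro i hi
    obtain ⟨w, hw⟩ := hk3 i hi
    obtain ⟨l, hl⟩ := exists_lam (m := m) (q := w - u i) (by omega)
    exact ⟨w, l, hw, hl⟩
  choose w l hwl using hlam
  let ct : ι → K[X] := fun i => if h : P3 i then X ^ l i h else C (c i)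
  refine ⟨ct, fun i hi => dif_neg hi, ?_⟩
  intro f hfM hf
  by_contra hf0
  -- make `f` primitive
  obtain ⟨M, hM⟩ : ∃ M : Finset (Ex E), (∀ α l, (MvPolynomial.coeff α f).coeff l ≠ 0 →
      (α, l) ∈ M) ∧ ∀ q ∈ M, q ∈ Ms E (e + 1) := by
    refine ⟨f.support.biUnion fun α => (MvPolynomial.coeff α f).support.image fun l => (α, l),
      fun α l h => ?_, fun q hq => ?_⟩
    · rw [Finset.mem_biUnion]
      refine ⟨α, ?_, Finset.mem_image.2 ⟨l, mem_support_iff.2 h, rfl⟩⟩
      rw [MvPolynomial.mem_support_iff]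
      intro h0
      rw [h0, coeff_zero] at h
      exact h rfl
    · rw [Finset.mem_biUnion] at hq
      obtain ⟨α, _, hq⟩ := hq
      obtain ⟨l, hl, rfl⟩ := Finset.mem_image.1 hq
      exact hfM α l (mem_support_iff.1 hl)
  obtain ⟨k, v', hv1, mm, hmm⟩ := exists_prim (0 : K)
    (fun q : M => (MvPolynomial.coeff q.1.1 f).coeff q.1.2) (by
      intro h0
      apply hf0
      rw [← pol_coeff hM.1, h0]
      refine eq_of_coeff fun α l => ?_
      rw [coeff_pol]
      split_ifs <;> simp)
  obtain ⟨g, hg⟩ : ∃ g : Pz E K[X], g = pol v' := ⟨_, rfl⟩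
  have hgM : ∀ α l, (MvPolynomial.coeff α g).coeff l ≠ 0 → (α, l) ∈ Ms E (e + 1) := by
    intro α l h
    rw [hg, coeff_pol] at h
    by_contra hm
    exact h (dif_neg fun h' => hm (hM.2 _ h'))
  have hfg : f = MvPolynomial.C (C (X ^ k : K[X])) * g := by
    refine eq_of_coeff fun α l => ?_
    rw [MvPolynomial.coeff_C_mul, coeff_C_mul, hg, coeff_pol]
    split_ifs with h
    · have := hv1 ⟨(α, l), h⟩
      rw [C_0, sub_zero] at this
      exact this
    · rw [mul_zero]
      by_contra hne
      exact h (hM.1 α l hne)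
  have hgf : ∀ i a b, b < N i (Finsupp.degree a) →
      fn (fun j => C (p i j)) (ct i) a b g = 0 := by
    intro i a b hb
    have h1 := hf i a b hb
    rw [hfg, fn_smul] at h1
    exact (mul_eq_zero.1 h1).resolve_left (pow_ne_zero _ X_ne_zero)
  have hdvd : ∀ i a, (X - C (ct i)) ^ (N i (Finsupp.degree a)) ∣
      MvPolynomial.coeff a (sx (fun j => C (p i j)) g) := by
    intro i a
    rw [dvd_iff_taylor]
    exact fun b hb => hgf i a b hb
  -- the reduction modulo `t`
  obtain ⟨φ, hφ⟩ : ∃ φ : K[X] →+* K, φ = evalRingHom 0 := ⟨_, rfl⟩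
  have hφC : ∀ x : K, φ (C x) = x := fun x => by rw [hφ, coe_evalRingHom, eval_C]
  have hφX : φ X = 0 := by rw [hφ, coe_evalRingHom, eval_X]
  obtain ⟨gb, hgb⟩ : ∃ gb : Pz E K, gb = MvPolynomial.map (mapRingHom φ) g := ⟨_, rfl⟩
  have hgbc : ∀ α l, (MvPolynomial.coeff α gb).coeff l =
      φ ((MvPolynomial.coeff α g).coeff l) := by
    intro α l
    rw [hgb, MvPolynomial.coeff_map, coe_mapRingHom, coeff_map]
  have hgb0 : gb ≠ 0 := by
    intro h0
    apply hmm
    have h1 := hgbc mm.1.1 mm.1.2
    rw [h0, MvPolynomial.coeff_zero, coeff_zero, hg, coeff_pol, dif_pos mm.2, hφ] at h1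
    exact h1.symm
  have hsxb : ∀ (q : Fin (E + 1) → K) a, MvPolynomial.coeff a (sx q gb) =
      (MvPolynomial.coeff a (sx (fun j => C (q j)) g)).map φ := by
    intro q a
    have h1 := sx_map φ (fun j => C (q j)) g
    simp only [hφC] at h1
    rw [hgb, h1, MvPolynomial.coeff_map, coe_mapRingHom]
  -- the trace
  obtain ⟨g0, hg0⟩ : ∃ g0 : MvPolynomial (Fin (E + 1)) K[X], g0 = ev0 E K[X] g := ⟨_, rfl⟩
  have hg0c : ∀ α, MvPolynomial.coeff α g0 = (MvPolynomial.coeff α g).coeff 0 := fun α => by
    rw [hg0, coeff_ev0]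
  have hg0M : ∀ α, MvPolynomial.coeff α g0 ≠ 0 → Finsupp.degree α ≤ e + 1 := by
    intro α h
    rw [hg0c] at h
    have h1 : Finsupp.degree α + 0 ≤ e + 1 := hgM α 0 h
    omega
  -- divisibility of the constant coefficients at the moved points
  have hmov : ∀ i (h : P3 i) a, ∃ Q : K[X][X],
      MvPolynomial.coeff a (sx (fun j => C (p i j)) g) =
        (X - C (X ^ l i h)) ^ (w i h - Finsupp.degree a) * Q := by
    intro i h a
    have h1 := hdvd i a
    rw [(hwl i h).1.2.2.2.1, show ct i = X ^ l i h from dif_pos h] at h1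
    exact h1
  have key : (∀ α, X ^ (m * m + 1) ∣ MvPolynomial.coeff α g0) := by
    by_contra hcon
    push Not at hcon
    obtain ⟨α0, hα0⟩ := hcon
    have hg00 : (fun α : g0.support => MvPolynomial.coeff α.1 g0) ≠ 0 := by
      intro h0
      have h1 : MvPolynomial.coeff α0 g0 ≠ 0 := fun h2 => hα0 (h2 ▸ dvd_zero _)
      exact h1 (congrFun h0 ⟨α0, MvPolynomial.mem_support_iff.2 h1⟩)
    obtain ⟨V, y, hy, β, hβ⟩ := exists_prim (0 : K) _ hg00
    simp only [C_0, sub_zero] at hy
    obtain ⟨g1, hg1⟩ : ∃ g1 : MvPolynomial (Fin (E + 1)) K[X],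
        g1 = ∑ α : g0.support, MvPolynomial.monomial α.1 (y α) := ⟨_, rfl⟩
    have hg1c : ∀ α : g0.support, MvPolynomial.coeff α.1 g1 = y α := by
      intro α
      rw [hg1, MvPolynomial.coeff_sum, Finset.sum_eq_single α]
      · rw [MvPolynomial.coeff_monomial, if_pos rfl]
      · intro γ _ hγ
        rw [MvPolynomial.coeff_monomial, if_neg (fun h => hγ (Subtype.ext h))]
      · intro h
        exact absurd (Finset.mem_univ _) h
    have hg1c' : ∀ α, α ∉ g0.support → MvPolynomial.coeff α g1 = 0 := by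
      intro α hα
      rw [hg1, MvPolynomial.coeff_sum]
      refine Finset.sum_eq_zero fun γ _ => ?_
      rw [MvPolynomial.coeff_monomial]
      exact if_neg (fun h : γ.1 = α => hα (h ▸ γ.2))
    have hg01 : g0 = MvPolynomial.C (X ^ V) * g1 := by
      refine MvPolynomial.ext _ _ fun α => ?_
      rw [MvPolynomial.coeff_C_mul]
      by_cases hα : α ∈ g0.support
      · rw [hg1c ⟨α, hα⟩, hy ⟨α, hα⟩]
      · rw [hg1c' α hα, mul_zero, MvPolynomial.notMem_support_iff.1 hα]
    have hV : V ≤ m * m := by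
      by_contra hV
      refine hα0 ?_
      rw [hg01, MvPolynomial.coeff_C_mul]
      exact Dvd.dvd.mul_right (pow_dvd_pow X (by omega)) _
    have hh := hT (MvPolynomial.map φ g1) (fun α hα => ?_) (fun i a ha => ?_)
    · apply hβ
      have h1 := congrArg (MvPolynomial.coeff β.1) hh
      rw [MvPolynomial.coeff_map, hg1c, MvPolynomial.coeff_zero, hφ, coe_evalRingHom] at h1
      exact h1
    · refine hg0M α fun h0 => hα ?_
      rw [MvPolynomial.coeff_map, hg1c' α (MvPolynomial.notMem_support_iff.2 h0), map_zero]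
    · have h1 := sh_map φ (fun j => C (p i j)) g1
      simp only [hφC] at h1
      rw [h1, MvPolynomial.coeff_map]
      have h2 : MvPolynomial.coeff a (sh (fun j => C (p i j)) g0) =
          X ^ V * MvPolynomial.coeff a (sh (fun j => C (p i j)) g1) := by
        rw [hg01, map_mul, sh_C, MvPolynomial.coeff_C_mul]
      have h3 : (MvPolynomial.coeff a (sx (fun j => C (p i j)) g)).coeff 0 =
          MvPolynomial.coeff a (sh (fun j => C (p i j)) g0) := by
        rw [coeff_sx_zero, hg0]
      have hgoal : X ^ (V + 1) ∣ MvPolynomial.coeff a (sh (fun j => C (p i j)) g0) := by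
        rw [← h3]
        by_cases hP : P3 i
        · obtain ⟨Q, hQ⟩ := hmov i hP a
          rw [hQ, mul_coeff_zero]
          refine Dvd.dvd.mul_right ?_ _
          rw [coeff_zero_eq_eval_zero, eval_pow, eval_sub, eval_X, eval_C, zero_sub,
            neg_pow, ← pow_mul]
          refine Dvd.dvd.mul_left (pow_dvd_pow X ?_) _
          have h5 := (hwl i hP).2
          have h6 : l i hP * (w i hP - u i + 1) ≤ l i hP * (w i hP - Finsupp.degree a) :=
            Nat.mul_le_mul_left _ (by have := (hwl i hP).1; omega)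
          omega
        · rcases hk i hP with h4 | h4
          · have h5 := hdvd i a
            rw [show ct i = C (c i) from dif_neg hP, h4.1, C_0, C_0, sub_zero] at h5
            have h6 : X ∣ MvPolynomial.coeff a (sx (fun j => C (p i j)) g) :=
              (dvd_pow_self X (by have := h4.2.1 _ ha; omega)).trans h5
            rw [X_dvd_iff.1 h6]
            exact dvd_zero _
          · exfalso
            rw [h4.2.1] at ha
            omega
      rw [h2, pow_succ] at hgoal
      have h7 : X ∣ MvPolynomial.coeff a (sh (fun j => C (p i j)) g1) :=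
        (mul_dvd_mul_iff_left (pow_ne_zero V X_ne_zero)).1 hgoal
      rw [hφ]
      exact X_dvd_of_eval h7
  -- the residual
  obtain ⟨r, hr⟩ : ∃ r : Pz E K, gb = MvPolynomial.C X * r := by
    have h1 : ∀ α, (MvPolynomial.coeff α gb) = X * divX (MvPolynomial.coeff α gb) := by
      intro α
      have h2 : (MvPolynomial.coeff α gb).coeff 0 = 0 := by
        rw [hgbc, ← hg0c, hφ]
        exact X_dvd_of_eval ((dvd_pow_self X (by omega)).trans (key α))
      have h3 := X_mul_divX_add (MvPolynomial.coeff α gb)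
      rw [h2, C_0, add_zero] at h3
      exact h3.symm
    refine ⟨∑ α ∈ gb.support, MvPolynomial.monomial α (divX (MvPolynomial.coeff α gb)), ?_⟩
    refine MvPolynomial.ext _ _ fun α => ?_
    rw [MvPolynomial.coeff_C_mul, MvPolynomial.coeff_sum]
    by_cases hα : α ∈ gb.support
    · rw [Finset.sum_eq_single α]
      · rw [MvPolynomial.coeff_monomial, if_pos rfl]
        exact h1 α
      · intro γ _ hγ
        rw [MvPolynomial.coeff_monomial, if_neg hγ]
      · intro h
        exact absurd hα h
    · rw [MvPolynomial.notMem_support_iff.1 hα, Finset.sum_eq_zero, mul_zero]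
      intro γ hγ
      rw [MvPolynomial.coeff_monomial]
      exact if_neg (fun h : γ = α => hα (h ▸ hγ))
  apply hgb0
  rw [hr]
  have hr0 : r = 0 := by
    refine hR r (fun α l hl => ?_) (fun i a b hb => ?_)
    · have h1 : (MvPolynomial.coeff α gb).coeff (l + 1) ≠ 0 := by
        rw [hr, MvPolynomial.coeff_C_mul, coeff_X_mul]
        exact hl
      have h2 : (MvPolynomial.coeff α g).coeff (l + 1) ≠ 0 := by
        intro h3
        rw [hgbc, h3, map_zero] at h1
        exact h1 rfl
      have h3 : Finsupp.degree α + (l + 1) ≤ e + 1 := hgM α (l + 1) h2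
      show Finsupp.degree α + l ≤ e
      omega
    · suffices h : (X - C (c' i)) ^ (N' i (Finsupp.degree a)) ∣
          MvPolynomial.coeff a (sx (p i) r) from (dvd_iff_taylor _ _ _).1 h b hb
      have h1 : MvPolynomial.coeff a (sx (p i) gb) = X * MvPolynomial.coeff a (sx (p i) r) := by
        rw [hr, map_mul, sx_C, MvPolynomial.coeff_C_mul]
      have h2 := hsxb (p i) a
      have hP3 : P3 i → (X - C (c' i)) ^ (N' i (Finsupp.degree a)) ∣
          MvPolynomial.coeff a (sx (p i) r) := by
        intro hP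
        obtain ⟨Q, hQ⟩ := hmov i hP a
        have h3 : X * MvPolynomial.coeff a (sx (p i) r) =
            X ^ (w i hP - Finsupp.degree a) * Q.map φ := by
          rw [← h1, h2, hQ, Polynomial.map_mul, Polynomial.map_pow, Polynomial.map_sub, map_X,
            map_C, map_pow, hφX, zero_pow (by have := (hwl i hP).2.1; omega), C_0, sub_zero]
        rw [(hwl i hP).1.2.2.2.2.2, C_0, sub_zero]
        refine (pow_dvd_pow X ((hwl i hP).1.2.2.2.2.1 _)).trans ?_
        split_ifs with hs
        · have h4 : X * X ^ (w i hP - Finsupp.degree a - 1) ∣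
              X * MvPolynomial.coeff a (sx (p i) r) := by
            rw [h3, ← pow_succ']
            refine Dvd.dvd.mul_right (pow_dvd_pow X ?_) _
            have := (hwl i hP).1
            omega
          exact (mul_dvd_mul_iff_left X_ne_zero).1 h4
        · have h5 : X ∣ Q.map φ := by
            rw [X_dvd_iff, coeff_map]
            have h6 : X ^ (m * m + 1) ∣ (MvPolynomial.coeff a
                (sx (fun j => C (p i j)) g)).coeff 0 := by
              rw [coeff_sx_zero, ← hg0]
              have h7 : ∃ g2, g0 = MvPolynomial.C (X ^ (m * m + 1)) * g2 := by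
                have h8 := (MvPolynomial.C_dvd_iff_dvd_coeff (X ^ (m * m + 1) : K[X]) g0).2 key
                exact h8
              obtain ⟨g2, hg2⟩ := h7
              rw [hg2, map_mul, sh_C, MvPolynomial.coeff_C_mul]
              exact dvd_mul_right _ _
            rw [hQ, mul_coeff_zero, coeff_zero_eq_eval_zero, eval_pow, eval_sub, eval_X, eval_C,
              zero_sub, neg_pow, ← pow_mul, mul_assoc] at h6
            have h9 : IsUnit ((-1 : K[X]) ^ (w i hP - Finsupp.degree a)) :=
              (isUnit_one.neg).pow _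
            rw [h9.dvd_mul_left] at h6
            have h10 : l i hP * (w i hP - Finsupp.degree a) ≤ m * m := by
              refine le_trans (Nat.mul_le_mul_left _ ?_) (hwl i hP).2.2.1
              omega
            have h11 : X ^ (l i hP * (w i hP - Finsupp.degree a)) * X ∣
                X ^ (l i hP * (w i hP - Finsupp.degree a)) * Q.coeff 0 := by
              rw [← pow_succ]
              exact (pow_dvd_pow X (by omega)).trans h6
            have h12 := (mul_dvd_mul_iff_left (pow_ne_zero _ X_ne_zero)).1 h11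
            rw [hφ]
            exact X_dvd_of_eval h12
          obtain ⟨Q', hQ'⟩ := h5
          have h4 : X * X ^ (w i hP - Finsupp.degree a) ∣
              X * MvPolynomial.coeff a (sx (p i) r) := by
            rw [h3, hQ', ← mul_assoc, mul_comm X (X ^ _)]
            exact dvd_mul_right _ _
          exact (mul_dvd_mul_iff_left X_ne_zero).1 h4
      by_cases hP : P3 i
      · exact hP3 hP
      · have h3 := hdvd i a
        rw [show ct i = C (c i) from dif_neg hP] at h3
        have h4 : (X - C (c i)) ^ (N i (Finsupp.degree a)) ∣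
            X * MvPolynomial.coeff a (sx (p i) r) := by
          rw [← h1, h2]
          have h5 := Polynomial.map_dvd φ h3
          rw [Polynomial.map_pow, Polynomial.map_sub, map_X, map_C, hφC] at h5
          exact h5
        rcases hk i hP with h5 | h5
        · rw [h5.1, C_0, sub_zero] at h4
          rw [h5.2.2.2, C_0, sub_zero]
          refine (pow_dvd_pow X (h5.2.2.1 _)).trans ?_
          rcases Nat.eq_zero_or_pos (N i (Finsupp.degree a)) with h6 | h6
          · rw [h6, Nat.zero_sub, pow_zero]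
            exact one_dvd _
          · obtain ⟨n, hn⟩ : ∃ n, N i (Finsupp.degree a) = n + 1 := ⟨_, (Nat.succ_pred_eq_of_pos h6).symm⟩
            rw [hn, pow_succ'] at h4
            rw [hn, Nat.add_sub_cancel]
            exact (mul_dvd_mul_iff_left X_ne_zero).1 h4
        · rw [h5.2.2.2]
          refine (pow_dvd_pow _ (h5.2.2.1 _)).trans ?_
          refine IsCoprime.dvd_of_dvd_mul_left ?_ h4
          refine IsCoprime.pow_left ?_
          have h6 := isCoprime_X_sub_C_of_isUnit_sub (R := K) (a := c i) (b := 0)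
            (by rw [sub_zero]; exact isUnit_iff_ne_zero.2 h5.1)
          rw [C_0, sub_zero] at h6
          exact h6
  rw [hr0, mul_zero]

end Pool.Agent.W608.PR
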