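import Mathlib
import Pool.Agent.W608.PR.Horace
import Pool.Agent.H932R5.Homog

set_option autoImplicit false

/-!
# The steps of the Horace method
-/

namespace Pool.Agent.W608.PR

open Polynomial

variable {E : ℕ} {ι : Type*} {K : Type*} [Field K]

theorem Ms_finite (E e : ℕ) : (Ms E e).Finite := by
  refine ((H932R5.finite_deg E (e + 1)).prod (Set.finite_Iic e)).subset fun q hq => ?_
  have hq : Finsupp.degree q.1 + q.2 ≤ e := hq
  refine Set.mem_prod.2 ⟨?_, ?_⟩
  · show Finsupp.degree q.1 < e + 1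
    omega
  · show q.2 ≤ e
    omega

theorem Emp.line' {M : Set (Ex E)} (hM : M.Finite) {N : ι → ℕ → ℕ}
    {p q : ι → Fin (E + 1) → K} {c d : ι → K} {u₀ : K}
    (h : Emp K M N (fun i j => p i j + u₀ * q i j) (fun i => c i + u₀ * d i)) :
    {u | ¬ Emp K M N (fun i j => p i j + u * q i j) (fun i => c i + u * d i)}.Finite := by
  rw [← hM.coe_toFinset] at h ⊢
  exact h.line

/-- Joining two positions by a line. -/
theorem Emp.seg {M : Set (Ex E)} (hM : M.Finite) {N : ι → ℕ → ℕ} {p q : ι → Fin (E + 1) → K}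
    {c d : ι → K} (h : Emp K M N p c) :
    {u | ¬ Emp K M N (fun i j => p i j + u * (q i j - p i j))
      (fun i => c i + u * (d i - c i))}.Finite := by
  refine Emp.line' (u₀ := 0) hM ?_
  simpa using h

theorem Emp.seg1 {M : Set (Ex E)} (hM : M.Finite) {N : ι → ℕ → ℕ} {p q : ι → Fin (E + 1) → K}
    {c d : ι → K} (h : Emp K M N q d) :
    {u | ¬ Emp K M N (fun i j => p i j + u * (q i j - p i j))
      (fun i => c i + u * (d i - c i))}.Finite := by
  refine Emp.line' (u₀ := 1) hM ?_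
  simpa using h

/-- The trace condition as a condition in one more variable. -/
theorem TEp_iff {e : ℕ} {u : ι → ℕ} {p : ι → Fin (E + 1) → K} :
    TEp e u p ↔ Emp K {q : Ex E | Finsupp.degree q.1 ≤ e ∧ q.2 = 0}
      (fun i s => if s < u i then 1 else 0) p (fun _ => 0) := by
  have hfn : ∀ (q : Fin (E + 1) → K) (f : Pz E K) (a : Fin (E + 1) →₀ ℕ),
      fn q 0 a 0 f = MvPolynomial.coeff a (sh q (ev0 E K f)) := by
    intro q f a
    unfold fn
    rw [taylor_coeff_zero, ← coeff_zero_eq_eval_zero, coeff_sx_zero]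
  constructor
  · intro h f hfM hf
    have h1 := h (ev0 E K f) (fun α hα => ?_) (fun i a ha => ?_)
    · refine eq_of_coeff fun α l => ?_
      rw [MvPolynomial.coeff_zero, coeff_zero]
      by_contra hne
      have h2 := (hfM α l hne).2
      have h2 : l = 0 := h2
      subst h2
      rw [← coeff_ev0, h1, MvPolynomial.coeff_zero] at hne
      exact hne rfl
    · rw [coeff_ev0] at hα
      exact (hfM α 0 hα).1
    · rw [← hfn]
      exact hf i a 0 (by
        show 0 < if Finsupp.degree a < u i then 1 else 0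
        rw [if_pos ha]
        exact one_pos)
  · intro h g hg hgc
    have hco : ∀ α l, (MvPolynomial.coeff α (MvPolynomial.map (Polynomial.C) g : Pz E K)).coeff l =
        if l = 0 then MvPolynomial.coeff α g else 0 := by
      intro α l
      rw [MvPolynomial.coeff_map, coeff_C]
    have hev : ev0 E K (MvPolynomial.map (Polynomial.C) g) = g := by
      refine MvPolynomial.ext _ _ fun α => ?_
      rw [coeff_ev0, hco, if_pos rfl]
    have h1 := h (MvPolynomial.map (Polynomial.C) g) (fun α l hl => ?_) (fun i a b hb => ?_)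
    · rw [← hev, h1, map_zero]
    · rw [hco] at hl
      split_ifs at hl with h0
      · exact ⟨hg α hl, h0⟩
      · exact absurd rfl hl
    · have hb' : b < if Finsupp.degree a < u i then 1 else 0 := hb
      split_ifs at hb' with h2
      · have : b = 0 := by omega
        subst this
        show fn (p i) 0 a 0 _ = 0
        rw [hfn, hev]
        exact hgc i a h2
      · omega

theorem Mt_finite (E e : ℕ) : {q : Ex E | Finsupp.degree q.1 ≤ e ∧ q.2 = 0}.Finite := by
  refine (Ms_finite E e).subset fun q hq => ?_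
  show Finsupp.degree q.1 + q.2 ≤ e
  have h1 : Finsupp.degree q.1 ≤ e := hq.1
  have h2 : q.2 = 0 := hq.2
  omega

theorem TEp.seg1 {e : ℕ} {u : ι → ℕ} {p q : ι → Fin (E + 1) → K} (h : TEp e u q) :
    {s : K | ¬ TEp e u (fun i j => p i j + s * (q i j - p i j))}.Finite := by
  simp only [TEp_iff] at h ⊢
  have h1 := Emp.seg1 (p := p) (c := fun _ => (0 : K)) (Mt_finite E e) h
  simpa using h1

/-- For some position of the points, with the active ones on `z = 0`, there is no nonzero
polynomial of degree at most `e` satisfying the conditions of the profile `N`. -/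
def CE (E : ℕ) (K : Type*) [Field K] (act : ι → Prop) (N : ι → ℕ → ℕ) (e : ℕ) : Prop :=
  ∃ (p : ι → Fin (E + 1) → K) (c : ι → K), (∀ i, act i → c i = 0) ∧ Emp K (Ms E e) N p c

/-- The trace conditions for some position of the points. -/
def TE (E : ℕ) (K : Type*) [Field K] (u : ι → ℕ) (e : ℕ) : Prop :=
  ∃ p : ι → Fin (E + 1) → K, TEp e u p

theorem CE.mono {act act' : ι → Prop} {N N' : ι → ℕ → ℕ} {e : ℕ} (h : CE E K act N e)
    (ha : ∀ i, act' i → act i) (hN : ∀ i s, N i s ≤ N' i s) : CE E K act' N' e := by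
  obtain ⟨p, c, h1, h2⟩ := h
  exact ⟨p, c, fun i hi => h1 i (ha i hi), h2.mono subset_rfl hN⟩

theorem CE.ne [Finite ι] [Infinite K] {act : ι → Prop} {N : ι → ℕ → ℕ} {e : ℕ}
    (h : CE E K act N e) : ∃ (p : ι → Fin (E + 1) → K) (c : ι → K), (∀ i, act i → c i = 0) ∧
      (∀ i, ¬ act i → c i ≠ 0) ∧ Emp K (Ms E e) N p c := by
  classical
  obtain ⟨p, c, h1, h2⟩ := h
  obtain ⟨d, hd⟩ : ∃ d : ι → K, ∀ i, d i = if act i then 0 else 1 := ⟨_, fun _ => rfl⟩
  have h3 : {u : K | ¬ Emp K (Ms E e) N (fun i j => p i j + u * (0 : ι → Fin (E + 1) → K) i j)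
      (fun i => c i + u * d i)}.Finite := by
    refine Emp.line' (u₀ := 0) (Ms_finite E e) ?_
    simpa using h2
  have h4 : {u : K | ∃ i, u = - c i}.Finite := by
    have : {u : K | ∃ i, u = - c i} = Set.range (fun i => - c i) := by
      ext u
      constructor
      · rintro ⟨i, hi⟩
        exact ⟨i, hi.symm⟩
      · rintro ⟨i, hi⟩
        exact ⟨i, hi.symm⟩
    rw [this]
    exact Set.finite_range _
  obtain ⟨u, hu⟩ := (h3.union h4).exists_notMem
  rw [Set.mem_union, not_or] at hu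
  refine ⟨p, fun i => c i + u * d i, fun i hi => ?_, fun i hi => ?_, ?_⟩
  · show c i + u * d i = 0
    rw [h1 i hi, hd, if_pos hi, mul_zero, add_zero]
  · show c i + u * d i ≠ 0
    rw [hd, if_neg hi, mul_one]
    intro h0
    exact hu.2 ⟨i, by linear_combination h0⟩
  · have h5 := hu.1
    rw [Set.mem_ofPred_eq, not_not] at h5
    simpa using h5

/-- **Differential Horace lemma.** -/
theorem CE.step [Finite ι] [Infinite K] {m : ℕ} {act act' : ι → Prop} {N N' : ι → ℕ → ℕ}
    {u : ι → ℕ} {e : ℕ}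
    (hA : ∀ i, act i → act' i ∧ (∀ s, s < u i → 1 ≤ N i s) ∧ (∀ s, N' i s ≤ N i s - 1))
    (hB : ∀ i, ¬ act' i → u i = 0 ∧ (∀ s, N' i s ≤ N i s))
    (hC : ∀ i, ¬ act i → act' i → ∃ w, 1 ≤ u i ∧ u i ≤ w ∧ w ≤ m ∧ (∀ s, N i s = w - s) ∧
      (∀ s, N' i s ≤ if s < u i then w - s - 1 else w - s))
    (hT : TE E K u (e + 1)) (hR : CE E K act' N' e) : CE E K act N (e + 1) := by
  classical
  obtain ⟨p, c, h1, h2, h3⟩ := hR.ne
  obtain ⟨q, hq⟩ := hT
  have f1 := Emp.seg (q := q) (d := c) (Ms_finite E e) h3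
  have f2 := hq.seg1 (p := p)
  obtain ⟨s, hs⟩ := (f1.union f2).exists_notMem
  rw [Set.mem_union, not_or, Set.mem_ofPred_eq, Set.mem_ofPred_eq, not_not, not_not] at hs
  obtain ⟨hs1, hs2⟩ := hs
  simp only [sub_self, mul_zero, add_zero] at hs1
  obtain ⟨P, hP⟩ : ∃ P : ι → Fin (E + 1) → K, P = fun i j => p i j + s * (q i j - p i j) :=
    ⟨_, rfl⟩
  rw [← hP] at hs1 hs2
  have hAB : ∀ i, ¬ (¬ act i ∧ act' i) → KindAB c u N N' c i := by
    intro i hi
    by_cases ha : act i
    · obtain ⟨h4, h5, h6⟩ := hA i ha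
      exact Or.inl ⟨h1 i h4, h5, h6, h1 i h4⟩
    · have ha' : ¬ act' i := fun h => hi ⟨ha, h⟩
      obtain ⟨h4, h5⟩ := hB i ha'
      exact Or.inr ⟨h2 i ha', h4, h5, rfl⟩
  have hCC : ∀ i, (¬ act i ∧ act' i) → KindC m u N N' c i := by
    intro i hi
    obtain ⟨w, h4, h5, h6, h7, h8⟩ := hC i hi.1 hi.2
    exact ⟨w, h4, h5, h6, h7, h8, h1 i hi.2⟩
  obtain ⟨ct, hct, hgen⟩ := horace_gen (m := m) (fun i => ¬ act i ∧ act' i) hAB hCC hs2 hs1
  have hgen' : Emp K[X] (↑(Ms_finite E (e + 1)).toFinset : Set (Ex E)) N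
      (fun i j => C (P i j)) ct := by
    rw [Set.Finite.coe_toFinset]
    exact hgen
  have f3 := hgen'.spec
  obtain ⟨t, ht⟩ := f3.exists_notMem
  rw [Set.mem_ofPred_eq, not_not, Set.Finite.coe_toFinset] at ht
  refine ⟨P, fun i => (ct i).eval t, fun i hi => ?_, ?_⟩
  · show (ct i).eval t = 0
    rw [hct i (fun h => h.1 hi), eval_C]
    exact h1 i (hA i hi).1
  · simpa using ht

end Pool.Agent.W608.PR
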