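import Mathlib
import Pool.Agent.W608.PR.Steps

set_option autoImplicit false

/-!
# Simple points
-/

namespace Pool.Agent.W608.PR

open Polynomial

theorem exists_kill {K V Y : Type*} [Field K] [AddCommGroup V] [Module K V] [Nonempty Y]
    (φ : Y → V →ₗ[K] K) (hφ : ∀ v, v ≠ 0 → ∃ y, φ y v ≠ 0) (n : ℕ) (W : Submodule K V)
    [FiniteDimensional K W] (hn : Module.finrank K W ≤ n) :
    ∃ y : Fin n → Y, ∀ v ∈ W, (∀ i, φ (y i) v = 0) → v = 0 := by
  classical
  induction n generalizing W with
  | zero =>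
    refine ⟨fun i => i.elim0, fun v hv _ => ?_⟩
    have h1 : Module.finrank K W = 0 := by omega
    rw [Submodule.finrank_eq_zero] at h1
    rw [h1, Submodule.mem_bot] at hv
    exact hv
  | succ n ih =>
    by_cases hW : W = ⊥
    · obtain ⟨y0⟩ := ‹Nonempty Y›
      refine ⟨fun _ => y0, fun v hv _ => ?_⟩
      rw [hW, Submodule.mem_bot] at hv
      exact hv
    · obtain ⟨v0, hv0, hne⟩ := Submodule.exists_mem_ne_zero_of_ne_bot hW
      obtain ⟨y0, hy0⟩ := hφ v0 hne
      have hlt : W ⊓ LinearMap.ker (φ y0) < W := by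
        refine lt_of_le_of_ne inf_le_left fun h => hy0 ?_
        rw [← h] at hv0
        exact hv0.2
      have h1 := Submodule.finrank_lt_finrank_of_lt hlt
      have hfd : FiniteDimensional K ↥(W ⊓ LinearMap.ker (φ y0)) :=
        Submodule.finiteDimensional_of_le inf_le_left
      obtain ⟨y, hy⟩ := ih (W ⊓ LinearMap.ker (φ y0)) (by omega)
      refine ⟨Fin.cons y0 y, fun v hv hz => ?_⟩
      refine hy v ⟨hv, ?_⟩ fun i => ?_
      · have := hz 0
        rw [Fin.cons_zero] at this
        exact this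
      · have := hz i.succ
        rw [Fin.cons_succ] at this
        exact this

theorem exists_kill' {K V Y ι : Type*} [Field K] [AddCommGroup V] [Module K V] [Nonempty Y]
    (φ : Y → V →ₗ[K] K) (hφ : ∀ v, v ≠ 0 → ∃ y, φ y v ≠ 0) (B : Finset ι) (W : Submodule K V)
    [FiniteDimensional K W] (hn : Module.finrank K W ≤ B.card) :
    ∃ y : ι → Y, ∀ v ∈ W, (∀ i ∈ B, φ (y i) v = 0) → v = 0 := by
  classical
  obtain ⟨y, hy⟩ := exists_kill φ hφ B.card W hn
  obtain ⟨y0⟩ := ‹Nonempty Y›
  refine ⟨fun i => if h : i ∈ B then y (B.equivFin ⟨i, h⟩) else y0, fun v hv hz => ?_⟩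
  refine hy v hv fun k => ?_
  have h1 := hz (B.equivFin.symm k).1 (B.equivFin.symm k).2
  beta_reduce at h1
  rw [dif_pos (B.equivFin.symm k).2] at h1
  simpa using h1

variable {E : ℕ} {ι : Type*} {K : Type*} [Field K]

/-- The value at a point of the affine space. -/
noncomputable def vl (E : ℕ) (K : Type*) [Field K] (y : (Fin (E + 1) → K) × K) :
    Pz E K →ₗ[K] K where
  toFun f := fn y.1 y.2 0 0 f
  map_add' f g := fn_add _ _ _ _ f g
  map_smul' r f := by
    rw [RingHom.id_apply, smul_eq_mul, ← fn_smul]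
    congr 1
    refine eq_of_coeff fun α l => ?_
    rw [MvPolynomial.coeff_C_mul, coeff_C_mul, MvPolynomial.coeff_smul, coeff_smul, smul_eq_mul]

theorem coeff_zero_sh (p : Fin (E + 1) → K) (h : MvPolynomial (Fin (E + 1)) K) :
    MvPolynomial.coeff 0 (sh p h) = MvPolynomial.eval p h := by
  have h1 : (MvPolynomial.constantCoeff.comp
      (sh p : MvPolynomial (Fin (E + 1)) K →+* MvPolynomial (Fin (E + 1)) K)) =
      MvPolynomial.eval p := by
    refine MvPolynomial.ringHom_ext (fun r => ?_) fun i => ?_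
    · rw [RingHom.comp_apply, RingHom.coe_coe, sh_C, MvPolynomial.eval_C,
        MvPolynomial.constantCoeff_C]
    · rw [RingHom.comp_apply, RingHom.coe_coe, sh_X, map_add, MvPolynomial.constantCoeff_X,
        MvPolynomial.constantCoeff_C, zero_add, MvPolynomial.eval_X]
  exact congrArg (fun ψ : MvPolynomial (Fin (E + 1)) K →+* K => ψ h) h1

theorem fn_zero_zero (p : Fin (E + 1) → K) (c : K) (f : Pz E K) :
    fn p c 0 0 f = MvPolynomial.eval p (MvPolynomial.map (evalRingHom c) f) := by
  unfold fn
  rw [taylor_coeff_zero]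
  have h1 : ((evalRingHom c).comp (MvPolynomial.constantCoeff.comp
      (sx p : Pz E K →+* Pz E K))) =
      (MvPolynomial.eval p).comp (MvPolynomial.map (evalRingHom c)) := by
    refine MvPolynomial.ringHom_ext (fun r => ?_) fun i => ?_
    · rw [RingHom.comp_apply, RingHom.comp_apply, RingHom.comp_apply, RingHom.coe_coe, sx_C,
        MvPolynomial.constantCoeff_C, MvPolynomial.map_C, MvPolynomial.eval_C]
    · rw [RingHom.comp_apply, RingHom.comp_apply, RingHom.comp_apply, RingHom.coe_coe, sx_X,
        map_add, MvPolynomial.constantCoeff_X, MvPolynomial.constantCoeff_C, zero_add,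
        MvPolynomial.map_X, MvPolynomial.eval_X, coe_evalRingHom, eval_C]
  exact congrArg (fun ψ : Pz E K →+* K => ψ f) h1

theorem exists_vl [Infinite K] (f : Pz E K) (hf : f ≠ 0) : ∃ y, vl E K y f ≠ 0 := by
  obtain ⟨α, hα⟩ := MvPolynomial.ne_zero_iff.1 hf
  obtain ⟨c, hc⟩ : ∃ c : K, (MvPolynomial.coeff α f).eval c ≠ 0 := by
    by_contra hcon
    push Not at hcon
    exact hα (Polynomial.funext fun c => by rw [hcon c, eval_zero])
  have h1 : MvPolynomial.map (evalRingHom c) f ≠ 0 := by
    intro h0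
    have h2 := congrArg (MvPolynomial.coeff α) h0
    rw [MvPolynomial.coeff_map, MvPolynomial.coeff_zero] at h2
    exact hc h2
  obtain ⟨p, hp⟩ : ∃ p : Fin (E + 1) → K,
      MvPolynomial.eval p (MvPolynomial.map (evalRingHom c) f) ≠ 0 := by
    by_contra hcon
    push Not at hcon
    exact h1 (MvPolynomial.funext fun p => by rw [hcon p, map_zero])
  refine ⟨(p, c), ?_⟩
  show fn p c 0 0 f ≠ 0
  rw [fn_zero_zero]
  exact hp

/-- The polynomials with monomials in `M`. -/
def sM (K : Type*) [Field K] (M : Set (Ex E)) : Submodule K (Pz E K) where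
  carrier := {f | ∀ α l, (MvPolynomial.coeff α f).coeff l ≠ 0 → (α, l) ∈ M}
  zero_mem' := by
    intro α l h
    rw [MvPolynomial.coeff_zero, coeff_zero] at h
    exact absurd rfl h
  add_mem' := by
    intro f g hf hg α l h
    rw [MvPolynomial.coeff_add, coeff_add] at h
    by_contra hm
    have h1 : (MvPolynomial.coeff α f).coeff l = 0 := by
      by_contra h2
      exact hm (hf α l h2)
    have h2 : (MvPolynomial.coeff α g).coeff l = 0 := by
      by_contra h2
      exact hm (hg α l h2)
    rw [h1, h2, add_zero] at h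
    exact h rfl
  smul_mem' := by
    intro r f hf α l h
    rw [MvPolynomial.coeff_smul, coeff_smul, smul_eq_mul] at h
    exact hf α l (right_ne_zero_of_mul h)

theorem mem_sM {M : Set (Ex E)} {f : Pz E K} :
    f ∈ sM K M ↔ ∀ α l, (MvPolynomial.coeff α f).coeff l ≠ 0 → (α, l) ∈ M := Iff.rfl

theorem sM_fin (M : Finset (Ex E)) : FiniteDimensional K (sM K (↑M : Set (Ex E))) ∧
    Module.finrank K (sM K (↑M : Set (Ex E))) ≤ M.card := by
  classical
  let L : ↥(sM K (↑M : Set (Ex E))) →ₗ[K] (M → K) :=
    { toFun := fun f m => (MvPolynomial.coeff m.1.1 f.1).coeff m.1.2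
      map_add' := fun f g => by
        funext m
        show (MvPolynomial.coeff m.1.1 (f.1 + g.1)).coeff m.1.2 = _
        rw [MvPolynomial.coeff_add, coeff_add]
        rfl
      map_smul' := fun r f => by
        funext m
        show (MvPolynomial.coeff m.1.1 (r • f.1)).coeff m.1.2 = _
        rw [MvPolynomial.coeff_smul, coeff_smul]
        rfl }
  have hL : Function.Injective L := by
    intro f g hfg
    refine Subtype.ext (eq_of_coeff fun α l => ?_)
    by_cases h : (α, l) ∈ M
    · exact congrFun hfg ⟨(α, l), h⟩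
    · have h1 : (MvPolynomial.coeff α f.1).coeff l = 0 := by
        by_contra h2
        exact h (f.2 α l h2)
      have h2 : (MvPolynomial.coeff α g.1).coeff l = 0 := by
        by_contra h2
        exact h (g.2 α l h2)
      rw [h1, h2]
  refine ⟨FiniteDimensional.of_injective L hL, ?_⟩
  have h1 := LinearMap.finrank_le_finrank_of_injective hL
  rwa [Module.finrank_fintype_fun_eq_card, Fintype.card_coe] at h1

theorem sum_range_choose' (n k : ℕ) :
    ∑ j ∈ Finset.range n, (j + k).choose k = (n + k).choose (k + 1) := by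
  induction n with
  | zero => rw [Finset.sum_range_zero, zero_add, Nat.choose_succ_self]
  | succ n ih =>
    rw [Finset.sum_range_succ, ih, show n + 1 + k = (n + k) + 1 by ring, Nat.choose_succ_succ,
      add_comm]

theorem card_Ms (E e : ℕ) : (Ms_finite E e).toFinset.card ≤ (e + E + 2).choose (E + 2) := by
  classical
  have h1 : (Ms_finite E e).toFinset ⊆ (Finset.range (e + 1)).biUnion fun l =>
      (H932R5.dg E (e - l + 1)).image fun α => (α, l) := by
    intro q hq
    rw [Set.Finite.mem_toFinset] at hq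
    have hq : Finsupp.degree q.1 + q.2 ≤ e := hq
    rw [Finset.mem_biUnion]
    refine ⟨q.2, Finset.mem_range.2 (by omega), Finset.mem_image.2 ⟨q.1, ?_, rfl⟩⟩
    rw [H932R5.mem_dg]
    omega
  refine (Finset.card_le_card h1).trans (Finset.card_biUnion_le.trans ?_)
  have h2 : ∀ l ∈ Finset.range (e + 1), ((H932R5.dg E (e - l + 1)).image
      fun α => (α, l)).card ≤ (e - l + 1 + E).choose (E + 1) := by
    intro l _
    refine Finset.card_image_le.trans (le_of_eq ?_)
    rw [H932R5.card_dg]
  refine (Finset.sum_le_sum h2).trans (le_of_eq ?_)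
  have h3 : ∀ l ∈ Finset.range (e + 1), (e - l + 1 + E).choose (E + 1) =
      ((e + 1 - 1 - l) + (E + 1)).choose (E + 1) := by
    intro l _
    congr 1
    omega
  rw [Finset.sum_congr rfl h3, Finset.sum_range_reflect (fun l => (l + (E + 1)).choose (E + 1)),
    sum_range_choose']
  congr 1
  omega

/-- Many simple points. -/
theorem CE.simple [Infinite K] {act : ι → Prop} {N : ι → ℕ → ℕ} {e : ℕ} {B : Finset ι}
    (hB : ∀ i ∈ B, ¬ act i ∧ 1 ≤ N i 0) (h : (e + E + 2).choose (E + 2) ≤ B.card) :
    CE E K act N e := by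
  classical
  have hfin := sM_fin (K := K) (Ms_finite E e).toFinset
  have := hfin.1
  obtain ⟨y, hy⟩ := exists_kill' (vl E K) exists_vl B
    (sM K (↑(Ms_finite E e).toFinset : Set (Ex E)))
    (hfin.2.trans ((card_Ms E e).trans h))
  refine ⟨fun i => (y i).1, fun i => if i ∈ B then (y i).2 else 0, fun i hi => ?_, ?_⟩
  · exact if_neg fun h => (hB i h).1 hi
  · intro f hf hc
    refine hy f (by rw [Set.Finite.coe_toFinset]; exact hf) fun i hi => ?_
    have h1 := hc i 0 0 (by
      rw [map_zero]
      exact lt_of_lt_of_le one_pos (hB i hi).2)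
    beta_reduce at h1
    rw [if_pos hi] at h1
    exact h1

/-- Division by `z`. -/
theorem exists_resid {f : Pz E K} (hf : ev0 E K f = 0) :
    ∃ r : Pz E K, f = MvPolynomial.C X * r := by
  classical
  have h1 : ∀ α, (MvPolynomial.coeff α f) = X * divX (MvPolynomial.coeff α f) := by
    intro α
    have h2 : (MvPolynomial.coeff α f).coeff 0 = 0 := by
      rw [← coeff_ev0, hf, MvPolynomial.coeff_zero]
    have h3 := X_mul_divX_add (MvPolynomial.coeff α f)
    rw [h2, C_0, add_zero] at h3
    exact h3.symm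
  refine ⟨∑ α ∈ f.support, MvPolynomial.monomial α (divX (MvPolynomial.coeff α f)), ?_⟩
  refine MvPolynomial.ext _ _ fun α => ?_
  rw [MvPolynomial.coeff_C_mul, MvPolynomial.coeff_sum]
  by_cases hα : α ∈ f.support
  · rw [Finset.sum_eq_single α]
    · rw [MvPolynomial.coeff_monomial, if_pos rfl]
      exact h1 α
    · intro γ _ hγ
      rw [MvPolynomial.coeff_monomial, if_neg hγ]
    · intro h
      exact absurd hα h
  · rw [MvPolynomial.notMem_support_iff.1 hα, Finset.sum_eq_zero, mul_zero]
    intro γ hγ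
    rw [MvPolynomial.coeff_monomial]
    exact if_neg (fun h : γ = α => hα (h ▸ hγ))

/-- **Simple points on the hyperplane.** -/
theorem CE.exact [Finite ι] [Infinite K] {act : ι → Prop} {N N2 : ι → ℕ → ℕ} {B : Finset ι}
    {e : ℕ} (hB : ∀ i ∈ B, act i ∧ ∀ s, N i s = 1 - s)
    (hA2 : ∀ i, act i → ∀ s, N2 i s ≤ N i s - 1)
    (hI2 : ∀ i, ¬ act i → ∀ s, N2 i s ≤ N i s)
    (h1 : CE E K (fun i => act i ∧ i ∉ B) N (e + 1)) (h2 : CE E K act N2 e) :
    CE E K act N (e + 1) := by
  classical
  obtain ⟨p1, c1, ha1, hn1, he1⟩ := h1.ne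
  obtain ⟨p2, c2, ha2, hn2, he2⟩ := h2.ne
  have f1 := Emp.seg1 (p := p2) (c := c2) (Ms_finite E (e + 1)) he1
  have f2 := Emp.seg (q := p1) (d := c1) (Ms_finite E e) he2
  have f3 : {u : K | ∃ i, ¬ act i ∧ c2 i + u * (c1 i - c2 i) = 0}.Finite := by
    have h3 : {u : K | ∃ i, ¬ act i ∧ c2 i + u * (c1 i - c2 i) = 0} ⊆
        Set.range (fun i => - c2 i / (c1 i - c2 i)) := by
      rintro u ⟨i, hi, h⟩
      refine ⟨i, ?_⟩
      have h4 : c1 i - c2 i ≠ 0 := by
        intro h5
        rw [h5, mul_zero, add_zero] at h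
        exact hn2 i hi h
      show - c2 i / (c1 i - c2 i) = u
      rw [div_eq_iff h4]
      linear_combination -h
    exact (Set.finite_range _).subset h3
  obtain ⟨s, hs⟩ := ((f1.union f2).union f3).exists_notMem
  rw [Set.mem_union, Set.mem_union, not_or, not_or, Set.mem_ofPred_eq, Set.mem_ofPred_eq,
    Set.mem_ofPred_eq, not_not, not_not] at hs
  obtain ⟨⟨hs1, hs2⟩, hs3⟩ := hs
  push Not at hs3
  obtain ⟨P, hP⟩ : ∃ P : ι → Fin (E + 1) → K, P = fun i j => p2 i j + s * (p1 i j - p2 i j) :=
    ⟨_, rfl⟩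
  obtain ⟨c, hc⟩ : ∃ c : ι → K, c = fun i => c2 i + s * (c1 i - c2 i) := ⟨_, rfl⟩
  rw [← hP, ← hc] at hs1 hs2
  have hcn : ∀ i, ¬ act i → c i ≠ 0 := by
    intro i hi
    rw [hc]
    exact hs3 i hi
  have hca : ∀ i, act i → i ∉ B → c i = 0 := by
    intro i hi hiB
    rw [hc]
    show c2 i + s * (c1 i - c2 i) = 0
    rw [ha2 i hi, ha1 i ⟨hi, hiB⟩]
    ring
  -- the system of the other points
  let W : Submodule K (Pz E K) :=
    { carrier := {f | f ∈ sM K (Ms E (e + 1)) ∧ ∀ i, i ∉ B → ∀ a b, b < N i (Finsupp.degree a) →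
        fn (P i) (c i) a b f = 0}
      zero_mem' := ⟨Submodule.zero_mem _, fun i _ a b _ => fn_zero _ _ _ _⟩
      add_mem' := by
        rintro f g ⟨hf1, hf2⟩ ⟨hg1, hg2⟩
        refine ⟨Submodule.add_mem _ hf1 hg1, fun i hi a b hb => ?_⟩
        rw [fn_add, hf2 i hi a b hb, hg2 i hi a b hb, add_zero]
      smul_mem' := by
        rintro r f ⟨hf1, hf2⟩
        refine ⟨Submodule.smul_mem _ _ hf1, fun i hi a b hb => ?_⟩
        have h3 : r • f = MvPolynomial.C (Polynomial.C r) * f := by
          refine eq_of_coeff fun α l => ?_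
          rw [MvPolynomial.coeff_C_mul, coeff_C_mul, MvPolynomial.coeff_smul, coeff_smul,
            smul_eq_mul]
        rw [h3, fn_smul, hf2 i hi a b hb, mul_zero] }
  have hW : ∀ f, f ∈ W ↔ (f ∈ sM K (Ms E (e + 1)) ∧ ∀ i, i ∉ B → ∀ a b,
      b < N i (Finsupp.degree a) → fn (P i) (c i) a b f = 0) := fun f => Iff.rfl
  -- its dimension
  let L : W →ₗ[K] (B → K) :=
    { toFun := fun f i => vl E K (P i, c i) f.1
      map_add' := fun f g => by
        funext i
        exact map_add _ _ _
      map_smul' := fun r f => by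
        funext i
        exact map_smul _ _ _ }
  have hL : Function.Injective L := by
    intro f g hfg
    have hsub : f.1 - g.1 ∈ W := Submodule.sub_mem _ f.2 g.2
    refine Subtype.ext (sub_eq_zero.1 (hs1 _ hsub.1 fun i a b hb => ?_))
    by_cases hi : i ∈ B
    · rw [(hB i hi).2] at hb
      have hb0 : b = 0 := by omega
      have ha0 : Finsupp.degree a = 0 := by omega
      rw [Finsupp.degree_eq_zero_iff] at ha0
      subst hb0
      subst ha0
      have h3 : vl E K (P i, c i) (f.1 - g.1) = 0 := by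
        rw [map_sub, sub_eq_zero]
        exact congrFun hfg ⟨i, hi⟩
      exact h3
    · exact hsub.2 i hi a b hb
  have hWfin : FiniteDimensional K W := FiniteDimensional.of_injective L hL
  have hWdim : Module.finrank K W ≤ B.card := by
    have h3 := LinearMap.finrank_le_finrank_of_injective hL
    rwa [Module.finrank_fintype_fun_eq_card, Fintype.card_coe] at h3
  -- restriction to the hyperplane
  have hres : ∀ f ∈ W, ev0 E K f = 0 → f = 0 := by
    intro f hf hf0
    obtain ⟨r, hr⟩ := exists_resid hf0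
    rw [hr]
    have hr0 : r = 0 := by
      refine hs2 r (fun α l hl => ?_) (fun i a b hb => ?_)
      · have h3 : (MvPolynomial.coeff α f).coeff (l + 1) ≠ 0 := by
          rw [hr, MvPolynomial.coeff_C_mul, coeff_X_mul]
          exact hl
        have h4 : Finsupp.degree α + (l + 1) ≤ e + 1 := hf.1 α (l + 1) h3
        show Finsupp.degree α + l ≤ e
        omega
      · have h5 : MvPolynomial.coeff a (sx (P i) f) = X * MvPolynomial.coeff a (sx (P i) r) := by
          rw [hr, map_mul, sx_C, MvPolynomial.coeff_C_mul]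
        have hiB : i ∉ B := by
          intro hi
          have h6 := hA2 i (hB i hi).1 (Finsupp.degree a)
          have h7 := (hB i hi).2 (Finsupp.degree a)
          omega
        have h3 : (X - C (c i)) ^ (N i (Finsupp.degree a)) ∣
            X * MvPolynomial.coeff a (sx (P i) r) := by
          rw [← h5, dvd_iff_taylor]
          exact fun b hb => hf.2 i hiB a b hb
        refine (dvd_iff_taylor _ (N2 i (Finsupp.degree a)) _).1 ?_ b hb
        by_cases hi : act i
        · rw [hca i hi hiB, C_0, sub_zero] at h3 ⊢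
          refine (pow_dvd_pow X (hA2 i hi _)).trans ?_
          rcases Nat.eq_zero_or_pos (N i (Finsupp.degree a)) with h6 | h6
          · rw [h6, Nat.zero_sub, pow_zero]
            exact one_dvd _
          · obtain ⟨n, hn⟩ : ∃ n, N i (Finsupp.degree a) = n + 1 :=
              ⟨_, (Nat.succ_pred_eq_of_pos h6).symm⟩
            rw [hn, pow_succ'] at h3
            rw [hn, Nat.add_sub_cancel]
            exact (mul_dvd_mul_iff_left X_ne_zero).1 h3
        · refine (pow_dvd_pow _ (hI2 i hi _)).trans ?_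
          refine IsCoprime.dvd_of_dvd_mul_left ?_ h3
          refine IsCoprime.pow_left ?_
          have h6 := isCoprime_X_sub_C_of_isUnit_sub (R := K) (a := c i) (b := 0)
            (by rw [sub_zero]; exact isUnit_iff_ne_zero.2 (hcn i hi))
          rw [C_0, sub_zero] at h6
          exact h6
    rw [hr0, mul_zero]
  -- the new points
  let T : Pz E K →ₗ[K] MvPolynomial (Fin (E + 1)) K :=
    { toFun := fun f => ev0 E K f
      map_add' := fun f g => map_add _ _ _
      map_smul' := fun r f => by
        refine MvPolynomial.ext _ _ fun α => ?_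
        rw [coeff_ev0, MvPolynomial.coeff_smul, coeff_smul, RingHom.id_apply,
          MvPolynomial.coeff_smul, coeff_ev0] }
  have hT : ∀ f, T f = ev0 E K f := fun f => rfl
  let φ : (Fin (E + 1) → K) → MvPolynomial (Fin (E + 1)) K →ₗ[K] K := fun y =>
    (MvPolynomial.aeval y : MvPolynomial (Fin (E + 1)) K →ₐ[K] K).toLinearMap
  have hφ : ∀ y h, φ y h = MvPolynomial.eval y h := by
    intro y h
    show MvPolynomial.aeval y h = _
    rw [MvPolynomial.aeval_eq_eval]
  have hφn : ∀ h : MvPolynomial (Fin (E + 1)) K, h ≠ 0 → ∃ y, φ y h ≠ 0 := by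
    intro h hh
    by_contra hcon
    push Not at hcon
    refine hh (MvPolynomial.funext fun y => ?_)
    rw [map_zero, ← hφ]
    exact hcon y
  obtain ⟨y, hy⟩ := exists_kill' φ hφn B (W.map T) ((Submodule.finrank_map_le T W).trans hWdim)
  refine ⟨fun i => if i ∈ B then y i else P i, fun i => if i ∈ B then 0 else c i,
    fun i hi => ?_, fun f hf hfc => ?_⟩
  · show (if i ∈ B then 0 else c i) = 0
    split_ifs with h
    · rfl
    · exact hca i hi h
  · have hfW : f ∈ W := by
      refine ⟨hf, fun i hi a b hb => ?_⟩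
      have h3 := hfc i a b hb
      beta_reduce at h3
      rw [if_neg hi, if_neg hi] at h3
      exact h3
    refine hres f hfW ?_
    rw [← hT]
    refine hy _ ⟨f, hfW, rfl⟩ fun i hi => ?_
    rw [hφ, hT, ← coeff_zero_sh, ← coeff_sx_zero]
    have h3 := hfc i 0 0 (by rw [(hB i hi).2, map_zero]; omega)
    beta_reduce at h3
    rw [if_pos hi, if_pos hi] at h3
    unfold fn at h3
    rw [taylor_coeff_zero, ← coeff_zero_eq_eval_zero] at h3
    exact h3

end Pool.Agent.W608.PR
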