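import Mathlib
import Pool.Agent.W608.PR.Kill
import Pool.Agent.H932R5.Points

set_option autoImplicit false

/-!
# Configurations: slices of points
-/

namespace Pool.Agent.W608.PR

/-- The number of conditions of a point of multiplicity `v` in dimension `E + 1`. -/
def sz (E v : ℕ) : ℕ := (v + E).choose (E + 1)

/-- The number of conditions of a point of multiplicity `v` in dimension `E + 2`. -/
def Sz (E v : ℕ) : ℕ := (v + E + 1).choose (E + 2)

/-- The number of monomials of degree at most `e` in `E + 1` variables. -/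
def Nn (E e : ℕ) : ℕ := (e + E + 1).choose (E + 1)

/-- The number of monomials of degree at most `e` in `E + 2` variables. -/
def dm (E e : ℕ) : ℕ := (e + E + 2).choose (E + 2)

theorem sz_zero (E : ℕ) : sz E 0 = 0 := by
  unfold sz
  rw [zero_add]
  exact Nat.choose_succ_self E

theorem sz_one (E : ℕ) : sz E 1 = 1 := by
  unfold sz
  rw [add_comm, Nat.choose_self]

theorem sz_mono (E : ℕ) {v w : ℕ} (h : v ≤ w) : sz E v ≤ sz E w :=
  Nat.choose_le_choose _ (Nat.add_le_add_right h E)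

theorem sz_pos (E : ℕ) {v : ℕ} (h : 1 ≤ v) : 1 ≤ sz E v := by
  rw [← sz_one E]
  exact sz_mono E h

theorem Sz_zero (E : ℕ) : Sz E 0 = 0 := by
  unfold Sz
  rw [zero_add]
  exact Nat.choose_succ_self (E + 1)

theorem Sz_succ (E w : ℕ) : Sz E (w + 1) = Sz E w + sz E (w + 1) := by
  unfold Sz sz
  rw [show w + 1 + E + 1 = (w + E + 1) + 1 by ring, Nat.choose_succ_succ, add_comm,
    show w + 1 + E = w + E + 1 by ring]

theorem Sz_mono (E : ℕ) {v w : ℕ} (h : v ≤ w) : Sz E v ≤ Sz E w :=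
  Nat.choose_le_choose _ (by omega)

theorem Sz_one (E : ℕ) : Sz E 1 = 1 := by
  rw [Sz_succ, Sz_zero, zero_add, sz_one]

theorem dm_succ (E e : ℕ) : dm E (e + 1) = dm E e + Nn E (e + 1) := by
  unfold dm Nn
  rw [show e + 1 + E + 2 = (e + E + 2) + 1 by ring, Nat.choose_succ_succ, add_comm,
    show e + 1 + E + 1 = e + E + 2 by ring]

theorem dm_mono (E : ℕ) {v w : ℕ} (h : v ≤ w) : dm E v ≤ dm E w :=
  Nat.choose_le_choose _ (by omega)

theorem Nn_mono (E : ℕ) {v w : ℕ} (h : v ≤ w) : Nn E v ≤ Nn E w :=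
  Nat.choose_le_choose _ (by omega)

theorem sz_ratio (E k : ℕ) : (k + 1 + E) * sz E k = k * sz E (k + 1) := by
  unfold sz
  have h := Nat.choose_mul_succ_eq (k + E) (E + 1)
  rw [show k + E + 1 - (E + 1) = k by omega] at h
  rw [show k + 1 + E = k + E + 1 by ring, mul_comm, h, mul_comm]

theorem Nn_ratio (E e : ℕ) : Nn E e * (e + E + 2) = Nn E (e + 1) * (e + 1) := by
  unfold Nn
  have h := Nat.choose_mul_succ_eq (e + E + 1) (E + 1)
  rw [show e + E + 1 + 1 - (E + 1) = e + 1 by omega] at h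
  rw [show e + 1 + E + 1 = e + E + 1 + 1 by ring]
  exact h

theorem dm_ratio (E e : ℕ) : dm E e * (E + 2) = (e + E + 2) * Nn E e := by
  unfold Nn dm
  have h := Nat.add_one_mul_choose_eq (e + E + 1) (E + 1)
  exact h.symm

/-- The largest slice. -/
def mx (A : Finset ℕ) : ℕ := A.sup id

/-- The number of slices larger than `s`. -/
def prof (A : Finset ℕ) (s : ℕ) : ℕ := (A.filter (fun v => s < v)).card

/-- The number of conditions of a set of slices. -/
def cn (E : ℕ) (A : Finset ℕ) : ℕ := ∑ v ∈ A, sz E v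

theorem le_mx {A : Finset ℕ} {v : ℕ} (h : v ∈ A) : v ≤ mx A := Finset.le_sup (f := id) h

theorem mx_mem {A : Finset ℕ} (h : A.Nonempty) : mx A ∈ A := by
  obtain ⟨v, hv, h1⟩ := Finset.exists_mem_eq_sup A h id
  unfold mx
  rw [h1]
  exact hv

theorem mx_empty : mx ∅ = 0 := rfl

theorem mx_le {A : Finset ℕ} {m : ℕ} (h : A ⊆ Finset.Icc 1 m) : mx A ≤ m :=
  Finset.sup_le fun _ hv => (Finset.mem_Icc.1 (h hv)).2

theorem mx_Icc (w : ℕ) : mx (Finset.Icc 1 w) = w := by
  refine le_antisymm (mx_le subset_rfl) ?_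
  rcases Nat.eq_zero_or_pos w with h | h
  · rw [h]
    exact Nat.zero_le _
  · exact le_mx (Finset.mem_Icc.2 ⟨h, le_rfl⟩)

theorem cn_Icc (E w : ℕ) : cn E (Finset.Icc 1 w) = Sz E w := by
  unfold cn
  induction w with
  | zero => rw [Sz_zero]; rfl
  | succ w ih => rw [Finset.sum_Icc_succ_top (by omega), ih, Sz_succ]

theorem cn_empty (E : ℕ) : cn E ∅ = 0 := rfl

theorem cn_erase {E : ℕ} (A : Finset ℕ) {u : ℕ} (h : u ∈ A ∨ u = 0) :
    cn E (A.erase u) + sz E u = cn E A := by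
  unfold cn
  by_cases hu : u ∈ A
  · exact Finset.sum_erase_add _ _ hu
  · have h0 := h.resolve_left hu
    rw [Finset.erase_eq_of_notMem hu, h0, sz_zero, add_zero]

theorem prof_mono {A A' : Finset ℕ} (h : A ⊆ A') (s : ℕ) : prof A s ≤ prof A' s :=
  Finset.card_le_card (Finset.filter_subset_filter _ h)

theorem prof_Icc (w s : ℕ) : prof (Finset.Icc 1 w) s = w - s := by
  unfold prof
  have : (Finset.Icc 1 w).filter (fun v => s < v) = Finset.Icc (s + 1) w := by
    ext v
    rw [Finset.mem_filter, Finset.mem_Icc, Finset.mem_Icc]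
    omega
  rw [this, Nat.card_Icc]
  omega

theorem prof_erase_mx {A : Finset ℕ} (s : ℕ) : prof (A.erase (mx A)) s ≤ prof A s - 1 := by
  unfold prof
  by_cases h : ∃ v ∈ A, s < v
  · obtain ⟨v, hv, hs⟩ := h
    have h1 : mx A ∈ A.filter (fun v => s < v) :=
      Finset.mem_filter.2 ⟨mx_mem ⟨v, hv⟩, lt_of_lt_of_le hs (le_mx hv)⟩
    rw [Finset.filter_erase, Finset.card_erase_of_mem h1]
  · have h1 : (A.erase (mx A)).filter (fun v => s < v) = ∅ := by
      refine Finset.filter_eq_empty_iff.2 fun v hv hs => ?_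
      exact h ⟨v, Finset.mem_of_mem_erase hv, hs⟩
    rw [h1, Finset.card_empty]
    exact Nat.zero_le _

theorem prof_pos {A : Finset ℕ} {s : ℕ} (h : s < mx A) : 1 ≤ prof A s := by
  unfold prof
  rw [Nat.succ_le_iff, Finset.card_pos]
  have hne : A.Nonempty := by
    by_contra h0
    rw [Finset.not_nonempty_iff_eq_empty] at h0
    rw [h0, mx_empty] at h
    omega
  exact ⟨mx A, Finset.mem_filter.2 ⟨mx_mem hne, h⟩⟩

theorem prof_Icc_erase {w u : ℕ} (h1 : 1 ≤ u) (h2 : u ≤ w) (s : ℕ) :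
    prof ((Finset.Icc 1 w).erase u) s ≤ if s < u then w - s - 1 else w - s := by
  have h3 := prof_Icc w s
  unfold prof at h3 ⊢
  rw [Finset.filter_erase]
  split_ifs with hs
  · rw [Finset.card_erase_of_mem (Finset.mem_filter.2 ⟨Finset.mem_Icc.2 ⟨h1, h2⟩, hs⟩), h3]
  · rw [← h3]
    exact Finset.card_le_card (Finset.erase_subset _ _)

variable {E : ℕ} {ι : Type*} {K : Type*} [Field K]

theorem CE.stepA [Finite ι] [Infinite K] {m : ℕ} {act : ι → Prop} {A : ι → Finset ℕ}
    {u : ι → ℕ} {e : ℕ} (hA : ∀ i, A i ⊆ Finset.Icc 1 m)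
    (hin : ∀ i, ¬ act i → A i = Finset.Icc 1 (mx (A i)))
    (hu : ∀ i, act i → u i = mx (A i)) (hu' : ∀ i, ¬ act i → u i ≤ mx (A i))
    (hT : TE E K u (e + 1))
    (hR : CE E K (fun i => act i ∨ u i ≠ 0) (fun i => prof ((A i).erase (u i))) e) :
    CE E K act (fun i => prof (A i)) (e + 1) := by
  refine CE.step (m := m) (fun i hi => ?_) (fun i hi => ?_) (fun i hi hi' => ?_) hT hR
  · rw [hu i hi]
    exact ⟨Or.inl hi, fun s hs => prof_pos hs, fun s => prof_erase_mx s⟩
  · rw [not_or, not_not] at hi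
    exact ⟨hi.2, fun s => prof_mono (Finset.erase_subset _ _) s⟩
  · have h1 : u i ≠ 0 := hi'.resolve_left hi
    have h2 := hu' i hi
    refine ⟨mx (A i), by omega, h2, mx_le (hA i), fun s => ?_, fun s => ?_⟩
    · rw [hin i hi, mx_Icc]
      exact prof_Icc _ _
    · show prof ((A i).erase (u i)) s ≤ _
      rw [hin i hi, mx_Icc]
      exact prof_Icc_erase (by omega) h2 s

theorem CE.exactA [Finite ι] [Infinite K] {act : ι → Prop} [DecidablePred act]
    {A : ι → Finset ℕ} {B : Finset ι} {e : ℕ} (hB : ∀ i ∈ B, act i ∧ A i = {1})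
    (h1 : CE E K (fun i => act i ∧ i ∉ B) (fun i => prof (A i)) (e + 1))
    (h2 : CE E K act (fun i => prof (if act i then (A i).erase (mx (A i)) else A i)) e) :
    CE E K act (fun i => prof (A i)) (e + 1) := by
  refine CE.exact (B := B) (fun i hi => ⟨(hB i hi).1, fun s => ?_⟩) (fun i hi s => ?_)
    (fun i hi s => ?_) h1 h2
  · show prof (A i) s = 1 - s
    rw [(hB i hi).2, ← prof_Icc 1 s, Finset.Icc_self]
  · show prof (if act i then (A i).erase (mx (A i)) else A i) s ≤ _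
    rw [if_pos hi]
    exact prof_erase_mx s
  · show prof (if act i then (A i).erase (mx (A i)) else A i) s ≤ _
    rw [if_neg hi]

/-- The emptiness statement in dimension `E + 1`, for multiplicities at most `m` and degrees at
least `D`. -/
def G (K : Type*) [Field K] (E m D : ℕ) : Prop :=
  ∀ (n : ℕ) (w : Fin n → ℕ), (∀ i, w i ≤ m) → ∀ d, D ≤ d →
    (d + E + 1).choose (E + 1) ≤ ∑ i, (w i + E).choose (E + 1) →
      H932R5.Full K w (H932R5.Td E d)

theorem TE.of_G [Fintype ι] {m D : ℕ} (hG : G K E m D) {u : ι → ℕ} (hu : ∀ i, u i ≤ m) {e : ℕ}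
    (hD : D ≤ e) (h : Nn E e ≤ ∑ i, sz E (u i)) : TE E K u e := by
  classical
  obtain ⟨σ⟩ : Nonempty (ι ≃ Fin (Fintype.card ι)) := ⟨Fintype.equivFin ι⟩
  obtain ⟨x, hx⟩ := hG (Fintype.card ι) (fun k => u (σ.symm k)) (fun k => hu _) e hD (by
    have h1 : ∑ k, (u (σ.symm k) + E).choose (E + 1) = ∑ i, sz E (u i) :=
      Equiv.sum_comp σ.symm (fun i => sz E (u i))
    rw [h1]
    exact h)
  refine ⟨fun i => x (σ i), fun f hf hc => hx f ?_ hf⟩
  rw [H932R5.mem_Z]
  intro k
  rw [H932R5.mem_pt_pow_iff]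
  intro a ha
  have h1 := hc (σ.symm k) a ha
  beta_reduce at h1
  rw [Equiv.apply_symm_apply] at h1
  exact h1

end Pool.Agent.W608.PR
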