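import Mathlib
import Pool.Agent.W608.PR.Conf
import Pool.Agent.W611.Rank2

set_option autoImplicit false

/-!
# The base of the induction: the plane
-/

namespace Pool.Agent.W608.PR

open MvPolynomial

theorem finite_homog (K : Type*) [Field K] (d : ℕ) :
    Module.Finite K ↥(homogeneousSubmodule (Fin 3) K d) := by
  rw [homogeneousSubmodule_eq_finsupp_supported]
  have hfin : {s : Fin 3 →₀ ℕ | Finsupp.degree s = d}.Finite :=
    (H932R5.finite_deg 2 (d + 1)).subset fun s hs => by
      have hs : Finsupp.degree s = d := hs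
      show Finsupp.degree s < d + 1
      omega
  have := hfin.to_subtype
  exact Module.Finite.equiv (AddMonoidAlgebra.supportedEquivFinsupp (R := K) (S := K)
    {s : Fin 3 →₀ ℕ | Finsupp.degree s = d}).symm

/-- The permutation of the coordinates. -/
def rot : Fin 3 → Fin 3 := ![2, 0, 1]

theorem rot_inj : Function.Injective rot := by decide

theorem G_base (K : Type) [Field K] [CharZero K] (m : ℕ) (hm : 1 ≤ m) :
    G K 1 m (2 * (m * m) + 3 * m + 2) := by
  intro n w hw d hd htot
  have hS : W611.Slg m w = 0 := by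
    unfold W611.Slg
    exact Finset.sum_eq_zero fun i _ => if_pos (hw i)
  obtain ⟨F, hF, hF'⟩ := W611.exp_quad K m hm w (2 * (m * m) + 3 * m + 2) (by
    rw [hS]
    nlinarith)
  have hF0 : F.map (algebraMap ℚ K) ≠ 0 := H932R3.map_ne_zero_of hF
  obtain ⟨P, hP⟩ : ∃ P : Fin n × Fin 2 → K, eval P (F.map (algebraMap ℚ K)) ≠ 0 := by
    by_contra hcon
    push Not at hcon
    exact hF0 (MvPolynomial.funext fun P => by rw [hcon P, map_zero])
  rw [eval_map] at hP
  have h1 := hF' (fun i j => P (i, j)) hP d (Or.inl hd)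
  refine ⟨fun i j => P (i, j), fun f hf hM => ?_⟩
  have hfin := finite_homog K d
  have h2 : (d + 2).choose 2 - ∑ i, (w i + 1).choose 2 = 0 := Nat.sub_eq_zero_of_le htot
  unfold H932R3.ExpDim at h1
  rw [h2] at h1
  have hfd : FiniteDimensional K ↥(homogeneousSubmodule (Fin 3) K d ⊓
      Submodule.restrictScalars K (⨅ i : Fin n,
          (Ideal.span
            ({X 0 - C (P (i, 0)) * X 2, X 1 - C (P (i, 1)) * X 2} :
              Set (MvPolynomial (Fin 3) K))) ^ (w i))) :=
    Submodule.finiteDimensional_of_le inf_le_left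
  have h3 := Submodule.finrank_eq_zero.1 h1
  obtain ⟨G, hG, hGf⟩ := H932R5.deh_surj (H932R5.mem_mspan.2 hM)
  have h4 : rename rot G = 0 := by
    rw [← Submodule.mem_bot (R := K), ← h3, Submodule.mem_inf]
    refine ⟨hG.rename_isHomogeneous, ?_⟩
    rw [Submodule.restrictScalars_mem, Submodule.mem_iInf]
    intro i
    have h5 : G ∈ H932R5.hI (fun j => P (i, j)) ^ (w i) := by
      rw [H932R5.mem_hI_iff hG, hGf]
      exact H932R5.mem_Z.1 hf i
    have h6 := Ideal.mem_map_of_mem (rename (R := K) rot) h5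
    rw [Ideal.map_pow] at h6
    refine Ideal.pow_right_mono ?_ _ h6
    unfold H932R5.hI
    rw [Ideal.map_span, Ideal.span_le]
    rintro _ ⟨_, ⟨j, rfl⟩, rfl⟩
    show rename rot (X j.succ - C (P (i, j)) * X 0) ∈ _
    rw [map_sub, map_mul, rename_X, rename_X, rename_C]
    refine Ideal.subset_span ?_
    fin_cases j
    · left
      rfl
    · right
      rfl
  have h7 : G = 0 := by
    refine rename_injective rot rot_inj ?_
    rw [h4, map_zero]
  rw [← hGf, h7, map_zero]

end Pool.Agent.W608.PR
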