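import Mathlib
import Pool.Agent.W608.PR.Conf

set_option autoImplicit false

/-!
# The counting part of the Horace method
-/

namespace Pool.Agent.W608.PR

variable {E : ℕ} {ι : Type*} {K : Type*} [Field K]

theorem mx_erase_mx_le (A : Finset ℕ) : mx (A.erase (mx A)) ≤ mx A - 1 := by
  refine Finset.sup_le fun v hv => ?_
  have h1 := Finset.ne_of_mem_erase hv
  have h2 := le_mx (Finset.mem_of_mem_erase hv)
  show v ≤ mx A - 1
  omega

theorem T_reg {A : Finset ℕ} {m : ℕ} (hA : A ⊆ Finset.Icc 1 m) :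
    (m + E) * sz E (mx (A.erase (mx A))) ≤ (m - 1) * sz E (mx A) := by
  have h1 := mx_erase_mx_le A
  have h2 := mx_le hA
  rcases Nat.eq_zero_or_pos (mx A) with h | h
  · have h3 : mx (A.erase (mx A)) = 0 := by omega
    rw [h3, sz_zero, mul_zero]
    exact Nat.zero_le _
  · obtain ⟨k, hk⟩ : ∃ k, mx A = k + 1 := ⟨mx A - 1, by omega⟩
    rw [hk] at h1 h2 ⊢
    obtain ⟨j, hj⟩ : ∃ j, m = k + 1 + j := ⟨m - (k + 1), by omega⟩
    have h3 : sz E (mx (A.erase (k + 1))) ≤ sz E k := sz_mono E (by omega)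
    have h4 := sz_ratio E k
    refine le_of_mul_le_mul_left (?_ : (k + 1 + E) * _ ≤ (k + 1 + E) * _) (by omega)
    calc (k + 1 + E) * ((m + E) * sz E (mx (A.erase (k + 1))))
        ≤ (k + 1 + E) * ((m + E) * sz E k) :=
          Nat.mul_le_mul_left _ (Nat.mul_le_mul_left _ h3)
      _ = (m + E) * ((k + 1 + E) * sz E k) := by ring
      _ = ((m + E) * k) * sz E (k + 1) := by rw [h4]; ring
      _ ≤ ((k + 1 + E) * (m - 1)) * sz E (k + 1) := by
          refine Nat.mul_le_mul_right _ ?_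
          rw [hj, show k + 1 + j - 1 = k + j by omega]
          nlinarith
      _ = (k + 1 + E) * ((m - 1) * sz E (k + 1)) := by ring

theorem Nn_growth {m e : ℕ} (h : m ≤ e + 2) : (m - 1) * Nn E (e + 1) ≤ (m + E) * Nn E e := by
  have h1 := Nn_ratio E e
  refine le_of_mul_le_mul_left (?_ : (e + 1) * _ ≤ (e + 1) * _) (by omega)
  calc (e + 1) * ((m - 1) * Nn E (e + 1)) = (m - 1) * (Nn E (e + 1) * (e + 1)) := by ring
    _ = ((m - 1) * (e + E + 2)) * Nn E e := by rw [← h1]; ring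
    _ ≤ ((e + 1) * (m + E)) * Nn E e := by
        refine Nat.mul_le_mul_right _ ?_
        rcases Nat.eq_zero_or_pos m with h0 | h0
        · rw [h0, Nat.zero_sub, zero_mul]
          exact Nat.zero_le _
        · obtain ⟨j, rfl⟩ : ∃ j, m = j + 1 := ⟨m - 1, by omega⟩
          obtain ⟨i, rfl⟩ : ∃ i, e = j + i - 1 := ⟨e + 1 - j, by omega⟩
          rcases Nat.eq_zero_or_pos (j + i) with h2 | h2
          · have hj : j = 0 := by omega
            rw [hj]
            simp
          · obtain ⟨e, he⟩ : ∃ e, j + i = e + 1 := ⟨j + i - 1, by omega⟩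
            rw [he, Nat.add_sub_cancel, Nat.add_sub_cancel]
            have hje : j ≤ e + 1 := by omega
            nlinarith
    _ = (e + 1) * ((m + E) * Nn E e) := by ring

theorem dm_ge {a e : ℕ} (h : (E + 2) * a ≤ e + E + 2) : a * Nn E e ≤ dm E e := by
  have h1 := dm_ratio E e
  refine le_of_mul_le_mul_left (?_ : (E + 2) * _ ≤ (E + 2) * _) (by omega)
  calc (E + 2) * (a * Nn E e) = ((E + 2) * a) * Nn E e := by ring
    _ ≤ (e + E + 2) * Nn E e := Nat.mul_le_mul_right _ h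
    _ = (E + 2) * dm E e := by rw [← h1]; ring

theorem cn_le {A : Finset ℕ} {a : ℕ} (h : A.card ≤ a) : cn E A ≤ a * sz E (mx A) := by
  unfold cn
  refine (Finset.sum_le_card_nsmul A _ (sz E (mx A)) fun v hv => sz_mono E (le_mx hv)).trans ?_
  rw [smul_eq_mul]
  exact Nat.mul_le_mul_right _ h

theorem card_le {A : Finset ℕ} {m : ℕ} (h : A ⊆ Finset.Icc 1 m) : A.card ≤ m := by
  refine (Finset.card_le_card h).trans ?_
  rw [Nat.card_Icc, Nat.add_sub_cancel]

theorem Sz_le (E w : ℕ) : Sz E w ≤ w * sz E w := by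
  rw [← cn_Icc]
  have h := cn_le (E := E) (card_le (subset_refl (Finset.Icc 1 w)))
  rwa [mx_Icc] at h

variable [Fintype ι] [DecidableEq ι]

theorem T_next {S : Finset ι} {A : ι → Finset ℕ} {u : ι → ℕ} {m : ℕ}
    (hA : ∀ i, A i ⊆ Finset.Icc 1 m) (hu : ∀ i ∈ S, u i = mx (A i)) (R : Finset ι)
    (hR : ∀ i, i ∉ S → u i ≠ 0 → i ∉ R → u i = mx (A i)) :
    (m + E) * ∑ i ∈ S ∪ Finset.univ.filter (fun i => u i ≠ 0), sz E (mx ((A i).erase (u i))) ≤
      (m - 1) * ∑ i, sz E (u i) + (m + E) * (R.card * sz E m) := by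
  classical
  have h1 : ∀ i ∈ S ∪ Finset.univ.filter (fun i => u i ≠ 0),
      (m + E) * sz E (mx ((A i).erase (u i))) ≤
        (m - 1) * sz E (u i) + if i ∈ R then (m + E) * sz E m else 0 := by
    intro i hi
    by_cases hiR : i ∈ R
    · rw [if_pos hiR]
      refine le_trans (Nat.mul_le_mul_left _ (sz_mono E ?_)) (Nat.le_add_left _ _)
      exact mx_le ((Finset.erase_subset _ _).trans (hA i))
    · rw [if_neg hiR, add_zero]
      have h2 : u i = mx (A i) := by
        rcases Finset.mem_union.1 hi with h | h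
        · exact hu i h
        · by_cases hS : i ∈ S
          · exact hu i hS
          · exact hR i hS (Finset.mem_filter.1 h).2 hiR
      rw [h2]
      exact T_reg (hA i)
  rw [Finset.mul_sum]
  refine (Finset.sum_le_sum h1).trans ?_
  refine (Finset.sum_le_sum_of_subset (Finset.subset_univ _)).trans ?_
  rw [Finset.sum_add_distrib, ← Finset.mul_sum]
  refine Nat.add_le_add_left (le_of_eq ?_) _
  rw [Finset.sum_ite_mem, Finset.univ_inter, Finset.sum_const, smul_eq_mul]
  ring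

omit [DecidableEq ι] in
theorem tot_next {A : ι → Finset ℕ} {u : ι → ℕ} (h : ∀ i, u i ∈ A i ∨ u i = 0) :
    ∑ i, cn E ((A i).erase (u i)) + ∑ i, sz E (u i) = ∑ i, cn E (A i) := by
  rw [← Finset.sum_add_distrib]
  exact Finset.sum_congr rfl fun i _ => cn_erase _ (h i)

theorem stepS [Infinite K] {m D : ℕ} (hG : G K E m D) {S : Finset ι} {A : ι → Finset ℕ}
    {u : ι → ℕ} {e : ℕ} (hA : ∀ i, A i ⊆ Finset.Icc 1 m)
    (hin : ∀ i, i ∉ S → A i = Finset.Icc 1 (mx (A i)))
    (hu : ∀ i ∈ S, u i = mx (A i)) (hu' : ∀ i, i ∉ S → u i ≤ mx (A i)) (hD : D ≤ e + 1)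
    (hsum : Nn E (e + 1) ≤ ∑ i, sz E (u i))
    (hR : CE E K (fun i => i ∈ S ∪ Finset.univ.filter (fun i => u i ≠ 0))
      (fun i => prof ((A i).erase (u i))) e) :
    CE E K (fun i => i ∈ S) (fun i => prof (A i)) (e + 1) := by
  refine CE.stepA (m := m) (u := u) hA hin hu hu' (TE.of_G hG (fun i => ?_) hD hsum)
    (hR.mono (fun i hi => ?_) fun i s => le_rfl)
  · by_cases h : i ∈ S
    · rw [hu i h]
      exact mx_le (hA i)
    · exact (hu' i h).trans (mx_le (hA i))
  · rw [Finset.mem_union, Finset.mem_filter]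
    rcases hi with h | h
    · exact Or.inl h
    · exact Or.inr ⟨Finset.mem_univ _, h⟩

omit [Fintype ι] in
/-- Greedy choice. -/
theorem greedy (f : ι → ℕ) (M : ℕ) (J : Finset ι) (hf : ∀ i ∈ J, f i ≤ M) (r : ℕ)
    (hr : r ≤ ∑ i ∈ J, f i) :
    ∃ J1 ⊆ J, ∑ i ∈ J1, f i ≤ r ∧ r ≤ ∑ i ∈ J1, f i + M := by
  induction J using Finset.induction_on with
  | empty =>
    rw [Finset.sum_empty] at hr
    exact ⟨∅, subset_rfl, by rw [Finset.sum_empty]; exact Nat.zero_le _, by omega⟩
  | insert j J hj ih =>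
    by_cases h : r ≤ ∑ i ∈ J, f i
    · obtain ⟨J1, h1, h2⟩ := ih (fun i hi => hf i (Finset.mem_insert_of_mem hi)) h
      exact ⟨J1, h1.trans (Finset.subset_insert _ _), h2⟩
    · rw [Finset.sum_insert hj] at hr
      have := hf j (Finset.mem_insert_self _ _)
      exact ⟨J, Finset.subset_insert _ _, by omega, by omega⟩

end Pool.Agent.W608.PR
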