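import Mathlib
import Pool.Agent.W608.PR.Conf

set_option autoImplicit false

/-!
# From the separated variable to polynomials in `E + 2` variables
-/

namespace Pool.Agent.W608.PR

open Polynomial

variable {E : ℕ} {K : Type*} [Field K]

/-- Separation of the variable `x_0`. -/
noncomputable def ps (E : ℕ) (K : Type*) [Field K] :
    MvPolynomial (Fin (E + 2)) K →+* Pz E K :=
  MvPolynomial.eval₂Hom ((MvPolynomial.C).comp Polynomial.C)
    (Fin.cons (MvPolynomial.C X) (fun j => MvPolynomial.X j) : Fin (E + 2) → Pz E K)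

theorem ps_C (r : K) : ps E K (MvPolynomial.C r) = MvPolynomial.C (Polynomial.C r) := by
  simp [ps]

theorem ps_X0 : ps E K (MvPolynomial.X 0) = MvPolynomial.C X := by
  simp [ps]

theorem ps_X (j : Fin (E + 1)) : ps E K (MvPolynomial.X j.succ) = MvPolynomial.X j := by
  simp [ps]

theorem ps_monomial (α : Fin (E + 2) →₀ ℕ) (r : K) :
    ps E K (MvPolynomial.monomial α r) =
      MvPolynomial.monomial α.tail (Polynomial.monomial (α 0) r) := by
  rw [MvPolynomial.monomial_eq, map_mul, ps_C, Finsupp.prod_fintype _ _ (fun i => pow_zero _),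
    map_prod, Fin.prod_univ_succ, map_pow, ps_X0, MvPolynomial.monomial_eq,
    Finsupp.prod_fintype _ _ (fun i => pow_zero _), ← mul_assoc, ← MvPolynomial.C_pow,
    ← MvPolynomial.C_mul, Polynomial.C_mul_X_pow_eq_monomial]
  congr 1
  refine Finset.prod_congr rfl fun j _ => ?_
  rw [map_pow, ps_X, Finsupp.tail_apply]

theorem coeff_ps (f : MvPolynomial (Fin (E + 2)) K) (a : Fin (E + 1) →₀ ℕ) (b : ℕ) :
    (MvPolynomial.coeff a (ps E K f)).coeff b = MvPolynomial.coeff (Finsupp.cons b a) f := by
  classical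
  induction f using MvPolynomial.induction_on' with
  | monomial α r =>
    rw [ps_monomial, MvPolynomial.coeff_monomial, MvPolynomial.coeff_monomial]
    by_cases h : α = Finsupp.cons b a
    · rw [if_pos h, if_pos (by rw [h, Finsupp.tail_cons]), Polynomial.coeff_monomial,
        if_pos (by rw [h, Finsupp.cons_zero])]
    · rw [if_neg h]
      by_cases h1 : α.tail = a
      · rw [if_pos h1, Polynomial.coeff_monomial, if_neg]
        intro h2
        apply h
        rw [← h1, ← h2, Finsupp.cons_tail]
      · rw [if_neg h1, coeff_zero]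
  | add f g hf hg =>
    rw [map_add, MvPolynomial.coeff_add, coeff_add, hf, hg, MvPolynomial.coeff_add]

theorem ps_shift (c : K) (p : Fin (E + 1) → K) (f : MvPolynomial (Fin (E + 2)) K) :
    ps E K (H932R5.shift (E := E + 1) (Fin.cons c p : Fin (E + 2) → K) f) =
      MvPolynomial.map ((taylorAlgHom c : K[X] →ₐ[K] K[X]) : K[X] →+* K[X])
        (sx p (ps E K f)) := by
  have h : (ps E K).comp ((H932R5.shift (E := E + 1) (Fin.cons c p : Fin (E + 2) → K) :
      MvPolynomial (Fin (E + 2)) K →+* MvPolynomial (Fin (E + 2)) K)) =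
      ((MvPolynomial.map ((taylorAlgHom c : K[X] →ₐ[K] K[X]) : K[X] →+* K[X])).comp
        (sx p : Pz E K →+* Pz E K)).comp (ps E K) := by
    refine MvPolynomial.ringHom_ext (fun r => ?_) fun i => ?_
    · rw [RingHom.comp_apply, RingHom.comp_apply, RingHom.comp_apply, RingHom.coe_coe,
        RingHom.coe_coe, H932R5.shift_C, ps_C, sx_C, MvPolynomial.map_C]
      congr 1
      show _ = taylor c (Polynomial.C r)
      rw [taylor_C]
    · rw [RingHom.comp_apply, RingHom.comp_apply, RingHom.comp_apply, RingHom.coe_coe,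
        RingHom.coe_coe, H932R5.shift_X, map_add, ps_C]
      refine Fin.cases ?_ (fun j => ?_) i
      · rw [ps_X0, Fin.cons_zero, sx_C, MvPolynomial.map_C, ← MvPolynomial.C_add]
        congr 1
        show _ = taylor c X
        rw [taylor_X]
      · rw [ps_X, Fin.cons_succ, sx_X, map_add, MvPolynomial.map_X, MvPolynomial.map_C]
        congr 2
        show _ = taylor c (Polynomial.C (p j))
        rw [taylor_C]
  exact congrArg (fun ψ : MvPolynomial (Fin (E + 2)) K →+* Pz E K => ψ f) h

theorem fn_ps (c : K) (p : Fin (E + 1) → K) (a : Fin (E + 1) →₀ ℕ) (b : ℕ)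
    (f : MvPolynomial (Fin (E + 2)) K) :
    fn p c a b (ps E K f) = MvPolynomial.coeff (Finsupp.cons b a)
      (H932R5.shift (E := E + 1) (Fin.cons c p : Fin (E + 2) → K) f) := by
  rw [← coeff_ps, ps_shift, MvPolynomial.coeff_map]
  rfl

theorem full_of_CE {n : ℕ} {w : Fin n → ℕ} {d : ℕ}
    (h : CE E K (fun _ : Fin n => False) (fun i => prof (Finset.Icc 1 (w i))) d) :
    H932R5.Full (E := E + 1) K w (H932R5.Td (E + 1) d) := by
  obtain ⟨p, c, _, h1⟩ := h
  refine ⟨fun i => Fin.cons (c i) (p i), fun f hf hM => ?_⟩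
  have h2 : ps E K f = 0 := by
    refine h1 _ (fun α l hl => ?_) (fun i a b hb => ?_)
    · rw [coeff_ps] at hl
      have h3 : Finsupp.degree (Finsupp.cons l α) ≤ d := hM _ hl
      rw [H932R5.degree_split, Finsupp.cons_zero, Finsupp.tail_cons] at h3
      show Finsupp.degree α + l ≤ d
      omega
    · rw [fn_ps]
      rw [H932R5.mem_Z] at hf
      refine H932R5.mem_pt_pow_iff.1 (hf i) _ ?_
      beta_reduce at hb
      rw [prof_Icc] at hb
      rw [H932R5.degree_split, Finsupp.cons_zero, Finsupp.tail_cons]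
      omega
  refine MvPolynomial.ext _ _ fun α => ?_
  have h3 := coeff_ps f α.tail (α 0)
  rw [h2, MvPolynomial.coeff_zero, coeff_zero, Finsupp.cons_tail] at h3
  rw [← h3, MvPolynomial.coeff_zero]

end Pool.Agent.W608.PR
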