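import Mathlib
import Pool.Agent.W608.PR.Combi
import Pool.Agent.W608.PR.ToFull

set_option autoImplicit false

/-!
# The induction on the dimension
-/

namespace Pool.Agent.W608.PR

variable {E : ℕ} {ι : Type*} {K : Type*} [Field K] [Infinite K]

theorem mx_mem_or (A : Finset ℕ) : mx A ∈ A ∨ mx A = 0 := by
  rcases A.eq_empty_or_nonempty with h | h
  · right
    rw [h, mx_empty]
  · exact Or.inl (mx_mem h)

theorem mx_one : mx ({1} : Finset ℕ) = 1 := by
  have h := mx_Icc 1
  rwa [Finset.Icc_self] at h

theorem cn_one (E : ℕ) : cn E ({1} : Finset ℕ) = 1 := by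
  unfold cn
  rw [Finset.sum_singleton, sz_one]

theorem prof_one_zero : prof ({1} : Finset ℕ) 0 = 1 := by
  have h := prof_Icc 1 0
  rwa [Finset.Icc_self] at h

theorem erase_zero {A : Finset ℕ} {m : ℕ} (h : A ⊆ Finset.Icc 1 m) : A.erase 0 = A := by
  refine Finset.erase_eq_of_notMem fun h0 => ?_
  have := (Finset.mem_Icc.1 (h h0)).1
  omega

variable [Fintype ι] [DecidableEq ι]

/-- Points on the hyperplane and simple points in general position. -/
theorem TL {m D : ℕ} (hG : G K E m D) (hm : 1 ≤ m) (a : ℕ) :
    ∀ (e : ℕ) (A : ι → Finset ℕ) (B : Finset ι), (∀ i, A i ⊆ Finset.Icc 1 m) →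
      (∀ i ∈ B, A i = {1}) → (∀ i, i ∉ B → (A i).card ≤ a) →
      ∑ i ∈ Bᶜ, sz E (mx (A i)) ≤ Nn E e → D + a ≤ e + 1 → m + a ≤ e + 1 →
      (E + 2) * a ≤ e → dm E e ≤ ∑ i, cn E (A i) →
      CE E K (fun i => i ∈ Bᶜ) (fun i => prof (A i)) e := by
  classical
  induction a with
  | zero =>
    intro e A B hA hB hB' hT _ _ _ htot
    refine CE.simple (B := B) (fun i hi => ⟨fun h => Finset.mem_compl.1 h hi, ?_⟩) ?_
    · rw [hB i hi, prof_one_zero]
    · refine htot.trans (le_of_eq ?_)
      rw [← Finset.sum_add_sum_compl B, Finset.sum_congr rfl fun i hi => by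
        rw [hB i hi, cn_one], Finset.sum_const, smul_eq_mul, mul_one, Nat.add_eq_left]
      refine Finset.sum_eq_zero fun i hi => ?_
      have h1 := hB' i (Finset.mem_compl.1 hi)
      rw [Nat.le_zero, Finset.card_eq_zero] at h1
      rw [h1]
      exact cn_empty E
  | succ a ih =>
    intro e A B hA hB hB' hT hD hma hE htot
    obtain ⟨e, rfl⟩ : ∃ e', e = e' + 1 := by
      refine ⟨e - 1, ?_⟩
      have : (E + 2) * (a + 1) = (E + 2) * a + E + 2 := by ring
      omega
    obtain ⟨T, hTd⟩ : ∃ T, T = ∑ i ∈ Bᶜ, sz E (mx (A i)) := ⟨_, rfl⟩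
    rw [← hTd] at hT
    have hsplit : ∑ i, cn E (A i) = B.card + ∑ i ∈ Bᶜ, cn E (A i) := by
      rw [← Finset.sum_add_sum_compl B]
      congr 1
      rw [Finset.sum_congr rfl fun i hi => by rw [hB i hi, cn_one], Finset.sum_const,
        smul_eq_mul, mul_one]
    -- the set of the used simple points
    have hTn := T_next (E := E) (S := Bᶜ) (u := fun i => if i ∈ B then 0 else mx (A i)) hA
      (fun i hi => if_neg (Finset.mem_compl.1 hi)) ∅
      (fun i hi hne _ => absurd (if_pos (by simpa using hi)) hne)
    have hr : Nn E (e + 1) - T ≤ B.card := by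
      have h1 : ∑ i ∈ Bᶜ, cn E (A i) = T + ∑ i ∈ Bᶜ, cn E ((A i).erase (mx (A i))) := by
        rw [hTd, ← Finset.sum_add_distrib]
        refine Finset.sum_congr rfl fun i _ => ?_
        rw [add_comm]
        exact (cn_erase _ (mx_mem_or _)).symm
      have h2 : ∑ i ∈ Bᶜ, cn E ((A i).erase (mx (A i))) ≤
          a * ∑ i ∈ Bᶜ, sz E (mx ((A i).erase (mx (A i)))) := by
        rw [Finset.mul_sum]
        refine Finset.sum_le_sum fun i hi => cn_le ?_
        have h3 := hB' i (Finset.mem_compl.1 hi)
        rcases (A i).eq_empty_or_nonempty with h4 | h4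
        · rw [h4, Finset.erase_empty, Finset.card_empty]
          exact Nat.zero_le _
        · rw [Finset.card_erase_of_mem (mx_mem h4)]
          omega
      have h3 : ∑ i ∈ Bᶜ, sz E (mx ((A i).erase (mx (A i)))) ≤ Nn E e := by
        have h4 : (m + E) * ∑ i ∈ Bᶜ, sz E (mx ((A i).erase (mx (A i)))) ≤
            (m - 1) * T := by
          rw [hTd, Finset.mul_sum, Finset.mul_sum]
          exact Finset.sum_le_sum fun i _ => T_reg (hA i)
        have h5 : (m - 1) * T ≤ (m - 1) * Nn E (e + 1) := Nat.mul_le_mul_left _ hT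
        have h6 := Nn_growth (E := E) (m := m) (e := e) (by omega)
        exact le_of_mul_le_mul_left (h4.trans (h5.trans h6)) (by omega)
      have h4 : a * Nn E e ≤ dm E e := dm_ge (by
        have : (E + 2) * (a + 1) = (E + 2) * a + E + 2 := by ring
        omega)
      have h5 : a * ∑ i ∈ Bᶜ, sz E (mx ((A i).erase (mx (A i)))) ≤ a * Nn E e :=
        Nat.mul_le_mul_left _ h3
      have h6 := dm_succ E e
      omega
    obtain ⟨B1, hB1, hB1c⟩ := Finset.exists_subset_card_eq hr
    obtain ⟨u, hu⟩ : ∃ u : ι → ℕ, ∀ i, u i = if i ∈ B then (if i ∈ B1 then 1 else 0)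
      else mx (A i) := ⟨_, fun _ => rfl⟩
    have huB1 : ∀ i ∈ B1, u i = 1 := fun i hi => by
      rw [hu, if_pos (hB1 hi), if_pos hi]
    have huB : ∀ i ∈ B, i ∉ B1 → u i = 0 := fun i hi hi' => by
      rw [hu, if_pos hi, if_neg hi']
    have huS : ∀ i, i ∉ B → u i = mx (A i) := fun i hi => by rw [hu, if_neg hi]
    have hsum : ∑ i, sz E (u i) = Nn E (e + 1) := by
      rw [← Finset.sum_add_sum_compl B]
      have h1 : ∑ i ∈ Bᶜ, sz E (u i) = T := by
        rw [hTd]
        exact Finset.sum_congr rfl fun i hi => by rw [huS i (Finset.mem_compl.1 hi)]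
      have h2 : ∑ i ∈ B, sz E (u i) = B1.card := by
        have h3 : ∀ i ∈ B, sz E (u i) = if i ∈ B1 then 1 else 0 := by
          intro i hi
          by_cases h : i ∈ B1
          · rw [huB1 i h, if_pos h, sz_one]
          · rw [huB i hi h, if_neg h, sz_zero]
        rw [Finset.sum_congr rfl h3, Finset.sum_ite_mem, Finset.inter_eq_right.2 hB1,
          Finset.sum_const, smul_eq_mul, mul_one]
      rw [h1, h2, hB1c]
      omega
    have hset : (B \ B1)ᶜ = Bᶜ ∪ Finset.univ.filter (fun i => u i ≠ 0) := by
      ext i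
      rw [Finset.mem_compl, Finset.mem_sdiff, Finset.mem_union, Finset.mem_compl,
        Finset.mem_filter]
      constructor
      · intro h
        by_cases hi : i ∈ B
        · have h1 : i ∈ B1 := by
            by_contra h1
            exact h ⟨hi, h1⟩
          right
          exact ⟨Finset.mem_univ _, by rw [huB1 i h1]; exact one_ne_zero⟩
        · exact Or.inl hi
      · rintro (h | h) h'
        · exact h h'.1
        · exact h.2 (huB i h'.1 h'.2)
    have hmem : ∀ i, u i ∈ A i ∨ u i = 0 := by
      intro i
      by_cases hi : i ∈ B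
      · by_cases h : i ∈ B1
        · left
          rw [huB1 i h, hB i hi]
          exact Finset.mem_singleton_self 1
        · exact Or.inr (huB i hi h)
      · rw [huS i hi]
        exact mx_mem_or _
    refine stepS (u := u) hG hA (fun i hi => ?_) (fun i hi => huS i (Finset.mem_compl.1 hi))
      (fun i hi => ?_) (by omega) (le_of_eq hsum.symm) ?_
    · rw [hB i (by simpa using hi), mx_one, Finset.Icc_self]
    · have hiB : i ∈ B := by simpa using hi
      rw [hB i hiB, mx_one, hu, if_pos hiB]
      split_ifs <;> omega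
    · rw [← hset]
      refine ih e (fun i => (A i).erase (u i)) (B \ B1)
        (fun i => (Finset.erase_subset _ _).trans (hA i)) (fun i hi => ?_) (fun i hi => ?_) ?_
        (by omega) (by omega) ?_ ?_
      · show (A i).erase (u i) = {1}
        rw [Finset.mem_sdiff] at hi
        rw [huB i hi.1 hi.2, erase_zero (hA i), hB i hi.1]
      · show ((A i).erase (u i)).card ≤ a
        rw [Finset.mem_sdiff, not_and, not_not] at hi
        by_cases hiB : i ∈ B
        · rw [hB i hiB, huB1 i (hi hiB), Finset.erase_singleton, Finset.card_empty]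
          exact Nat.zero_le _
        · rw [huS i hiB]
          have h3 := hB' i hiB
          rcases (A i).eq_empty_or_nonempty with h4 | h4
          · rw [h4, Finset.erase_empty, Finset.card_empty]
            exact Nat.zero_le _
          · rw [Finset.card_erase_of_mem (mx_mem h4)]
            omega
      · show ∑ i ∈ (B \ B1)ᶜ, sz E (mx ((A i).erase (u i))) ≤ Nn E e
        rw [hset]
        have h1 := T_next (E := E) (S := Bᶜ) (u := u) hA
          (fun i hi => huS i (Finset.mem_compl.1 hi)) ∅ (fun i hi hne _ => by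
            have hiB : i ∈ B := by simpa using hi
            by_cases h : i ∈ B1
            · rw [huB1 i h, hB i hiB, mx_one]
            · exact absurd (huB i hiB h) hne)
        rw [Finset.card_empty, zero_mul, mul_zero, add_zero, hsum] at h1
        exact le_of_mul_le_mul_left (h1.trans (Nn_growth (by omega))) (by omega)
      · have : (E + 2) * (a + 1) = (E + 2) * a + E + 2 := by ring
        omega
      · have h1 := tot_next (E := E) hmem
        have h2 := dm_succ E e
        show dm E e ≤ ∑ i, cn E ((A i).erase (u i))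
        omega

/-- Emptiness if there are many simple points in general position. -/
theorem E1 {m D L : ℕ} (hG : G K E m D) (hm : 1 ≤ m) (hL1 : D + m ≤ L) (hL2 : m + m ≤ L)
    (hL3 : (E + 2) * m ≤ L) :
    ∀ (e : ℕ) (S : Finset ι) (A : ι → Finset ℕ) (B : Finset ι),
      (∀ i, A i ⊆ Finset.Icc 1 m) → (∀ i, i ∉ S → A i = Finset.Icc 1 (mx (A i))) →
      (∀ i ∈ B, i ∉ S ∧ A i = {1}) → ∑ i ∈ S, sz E (mx (A i)) ≤ Nn E e →
      dm E e ≤ ∑ i, cn E (A i) → dm E L + e * sz E m ≤ B.card →
      CE E K (fun i => i ∈ S) (fun i => prof (A i)) e := by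
  classical
  intro e
  induction e with
  | zero =>
    intro S A B hA hin hB hT htot hq
    refine CE.simple (B := B) (fun i hi => ⟨(hB i hi).1, ?_⟩) ?_
    · rw [(hB i hi).2, prof_one_zero]
    · have h1 := dm_mono E (Nat.zero_le L)
      unfold dm at h1 hq
      omega
  | succ e ih =>
    intro S A B hA hin hB hT htot hq
    by_cases heL : e + 1 ≤ L
    · refine CE.simple (B := B) (fun i hi => ⟨(hB i hi).1, ?_⟩) ?_
      · rw [(hB i hi).2, prof_one_zero]
      · have h1 := dm_mono E heL
        unfold dm at h1 hq
        omega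
    push Not at heL
    obtain ⟨T, hTd⟩ : ∃ T, T = ∑ i ∈ S, sz E (mx (A i)) := ⟨_, rfl⟩
    obtain ⟨J, hJ⟩ : ∃ J : Finset ι, J = (S ∪ B)ᶜ := ⟨_, rfl⟩
    have hJm : ∀ i, i ∈ J ↔ i ∉ S ∧ i ∉ B := by
      intro i
      rw [hJ, Finset.mem_compl, Finset.mem_union, not_or]
    rw [← hTd] at hT
    rcases le_or_gt (∑ i ∈ J, sz E (mx (A i))) (Nn E (e + 1) - T) with hc | hc
    · -- all the other points are moved
      have hBc : Bᶜ = S ∪ J := by
        ext i
        rw [Finset.mem_compl, Finset.mem_union, hJm]
        constructor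
        · intro h
          by_cases hS : i ∈ S
          · exact Or.inl hS
          · exact Or.inr ⟨hS, h⟩
        · rintro (h | h) h'
          · exact (hB i h').1 h
          · exact h.2 h'
      have hdis : Disjoint S J := by
        rw [Finset.disjoint_left]
        intro i hi hi'
        exact ((hJm i).1 hi').1 hi
      have h1 := TL hG hm m (e + 1) A B hA (fun i hi => (hB i hi).2) (fun i _ => card_le (hA i))
        (by
          rw [hBc, Finset.sum_union hdis, ← hTd]
          omega) (by omega) (by omega) (by omega) htot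
      exact h1.mono (fun i hi => Finset.mem_compl.2 fun h => (hB i h).1 hi) fun i s => le_rfl
    · obtain ⟨J1, hJ1, hJ1a, hJ1b⟩ := greedy (fun i => sz E (mx (A i))) (sz E m) J
        (fun i _ => sz_mono E (mx_le (hA i))) (Nn E (e + 1) - T) hc.le
      have hszB : sz E m ≤ B.card := by
        have : (e + 1) * sz E m = e * sz E m + sz E m := by ring
        omega
      obtain ⟨B1, hB1, hB1c⟩ := Finset.exists_subset_card_eq
        (show Nn E (e + 1) - T - ∑ i ∈ J1, sz E (mx (A i)) ≤ B.card by omega)
      obtain ⟨u, hu⟩ : ∃ u : ι → ℕ, ∀ i, u i = if i ∈ S ∪ J1 then mx (A i) else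
        (if i ∈ B1 then 1 else 0) := ⟨_, fun _ => rfl⟩
      have hJ1S : Disjoint S J1 := by
        rw [Finset.disjoint_left]
        intro i hi hi'
        exact ((hJm i).1 (hJ1 hi')).1 hi
      have hBn : ∀ i ∈ B, i ∉ S ∪ J1 := by
        intro i hi h
        rcases Finset.mem_union.1 h with h | h
        · exact (hB i hi).1 h
        · exact ((hJm i).1 (hJ1 h)).2 hi
      have huS : ∀ i ∈ S, u i = mx (A i) := fun i hi => by
        rw [hu, if_pos (Finset.mem_union_left _ hi)]
      have huJ : ∀ i ∈ J1, u i = mx (A i) := fun i hi => by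
        rw [hu, if_pos (Finset.mem_union_right _ hi)]
      have huB1 : ∀ i ∈ B1, u i = 1 := fun i hi => by
        rw [hu, if_neg (hBn i (hB1 hi)), if_pos hi]
      have hu0 : ∀ i, i ∉ S → i ∉ J1 → i ∉ B1 → u i = 0 := fun i h1 h2 h3 => by
        rw [hu, if_neg (by rw [Finset.mem_union, not_or]; exact ⟨h1, h2⟩), if_neg h3]
      have hreg : ∀ i, u i ≠ 0 → u i = mx (A i) := by
        intro i hi
        by_cases h1 : i ∈ S
        · exact huS i h1
        by_cases h2 : i ∈ J1
        · exact huJ i h2
        by_cases h3 : i ∈ B1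
        · rw [huB1 i h3, (hB i (hB1 h3)).2, mx_one]
        · exact absurd (hu0 i h1 h2 h3) hi
      have hsum : ∑ i, sz E (u i) = Nn E (e + 1) := by
        have h1 : ∀ i ∈ Finset.univ, sz E (u i) =
            (if i ∈ S ∪ J1 then sz E (mx (A i)) else 0) + (if i ∈ B1 then 1 else 0) := by
          intro i _
          by_cases h : i ∈ S ∪ J1
          · have h2 : i ∉ B1 := fun h3 => hBn i (hB1 h3) h
            rw [hu, if_pos h, if_pos h, if_neg h2, add_zero]
          · rw [hu, if_neg h, if_neg h, zero_add]
            split_ifs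
            · exact sz_one E
            · exact sz_zero E
        rw [Finset.sum_congr rfl h1, Finset.sum_add_distrib, Finset.sum_ite_mem,
          Finset.sum_ite_mem, Finset.univ_inter, Finset.univ_inter, Finset.sum_union hJ1S,
          Finset.sum_const, smul_eq_mul, mul_one, hB1c, ← hTd]
        omega
      have hmem : ∀ i, u i ∈ A i ∨ u i = 0 := by
        intro i
        by_cases h : u i = 0
        · exact Or.inr h
        · left
          rw [hreg i h]
          rcases mx_mem_or (A i) with h1 | h1
          · exact h1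
          · rw [hreg i h] at h
            exact absurd h1 h
      refine stepS (u := u) hG hA hin huS (fun i _ => ?_) (by omega) (le_of_eq hsum.symm) ?_
      · by_cases h : u i = 0
        · rw [h]
          exact Nat.zero_le _
        · exact le_of_eq (hreg i h)
      · refine ih _ (fun i => (A i).erase (u i)) (B \ B1)
          (fun i => (Finset.erase_subset _ _).trans (hA i)) (fun i hi => ?_) (fun i hi => ?_) ?_
          ?_ ?_
        · rw [Finset.mem_union, not_or, Finset.mem_filter, not_and, not_not] at hi
          have h0 := hi.2 (Finset.mem_univ _)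
          show (A i).erase (u i) = Finset.Icc 1 (mx ((A i).erase (u i)))
          rw [h0, erase_zero (hA i)]
          exact hin i hi.1
        · rw [Finset.mem_sdiff] at hi
          have h1 := hBn i hi.1
          rw [Finset.mem_union, not_or] at h1
          have h0 := hu0 i h1.1 h1.2 hi.2
          refine ⟨?_, ?_⟩
          · rw [Finset.mem_union, not_or, Finset.mem_filter, not_and, not_not]
            exact ⟨h1.1, fun _ => h0⟩
          · show (A i).erase (u i) = {1}
            rw [h0, erase_zero (hA i), (hB i hi.1).2]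
        · have h1 := T_next (E := E) (S := S) (u := u) hA huS ∅ (fun i _ hne _ => hreg i hne)
          rw [Finset.card_empty, zero_mul, mul_zero, add_zero, hsum] at h1
          exact le_of_mul_le_mul_left (h1.trans (Nn_growth (by omega))) (by omega)
        · have h1 := tot_next (E := E) hmem
          have h2 := dm_succ E e
          show dm E e ≤ ∑ i, cn E ((A i).erase (u i))
          omega
        · have h1 : (B \ B1).card = B.card - B1.card := Finset.card_sdiff_of_subset hB1
          have h2 : (e + 1) * sz E m = e * sz E m + sz E m := by ring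
          omega

end Pool.Agent.W608.PR
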