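import Mathlib
import Pool.Agent.W608.PR.Main

set_option autoImplicit false

/-!
# The induction on the dimension, second part
-/

namespace Pool.Agent.W608.PR

variable {E : ℕ} {ι : Type*} {K : Type*} [Field K] [Infinite K]

omit [Infinite K] in
theorem cn_le_Sz {A : Finset ℕ} {m : ℕ} (h : A ⊆ Finset.Icc 1 m) : cn E A ≤ Sz E m := by
  rw [← cn_Icc]
  exact Finset.sum_le_sum_of_subset h

variable [Fintype ι] [DecidableEq ι]

/-- Emptiness if there are many more conditions than monomials. -/
theorem E2 {m D L : ℕ} (hG : G K E m D) (hm : 1 ≤ m) (hL1 : D + m ≤ L) (hL2 : m + m ≤ L)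
    (hL3 : (E + 2) * m ≤ L) (e : ℕ) (S : Finset ι) (A : ι → Finset ℕ)
    (hA : ∀ i, A i ⊆ Finset.Icc 1 m) (hin : ∀ i, i ∉ S → A i = Finset.Icc 1 (mx (A i)))
    (hT : ∑ i ∈ S, sz E (mx (A i)) ≤ Nn E e) (he : (E + 2) * m ≤ e + E + 2)
    (htot : dm E e + Sz E m * (dm E L + e * sz E m) ≤ ∑ i, cn E (A i)) :
    CE E K (fun i => i ∈ S) (fun i => prof (A i)) e := by
  classical
  obtain ⟨Q, hQ⟩ : ∃ Q, Q = dm E L + e * sz E m := ⟨_, rfl⟩
  rw [← hQ] at htot
  obtain ⟨J, hJ⟩ : ∃ J : Finset ι, J = Sᶜ.filter (fun i => (A i).Nonempty) := ⟨_, rfl⟩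
  have hJm : ∀ i, i ∈ J ↔ i ∉ S ∧ (A i).Nonempty := by
    intro i
    rw [hJ, Finset.mem_filter, Finset.mem_compl]
  have hSz : 0 < Sz E m := by
    have := Sz_mono E hm
    rw [Sz_one] at this
    omega
  have hQJ : Q ≤ J.card := by
    have h1 : ∑ i ∈ S, cn E (A i) ≤ m * Nn E e := by
      refine (Finset.sum_le_sum fun i _ => cn_le (card_le (hA i))).trans ?_
      rw [← Finset.mul_sum]
      exact Nat.mul_le_mul_left _ hT
    have h2 : ∑ i ∈ Sᶜ, cn E (A i) ≤ J.card * Sz E m := by
      rw [hJ, ← smul_eq_mul, ← Finset.sum_const, Finset.sum_filter]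
      refine Finset.sum_le_sum fun i _ => ?_
      split_ifs with h
      · exact cn_le_Sz (hA i)
      · rw [Finset.not_nonempty_iff_eq_empty] at h
        rw [h]
        exact (cn_empty E).le
    have h3 := Finset.sum_add_sum_compl S fun i => cn E (A i)
    have h4 : m * Nn E e ≤ dm E e := dm_ge he
    have h5 : Q * Sz E m ≤ J.card * Sz E m := by
      rw [mul_comm Q]
      omega
    exact le_of_mul_le_mul_right h5 hSz
  obtain ⟨B, hB, hBc⟩ := Finset.exists_subset_card_eq hQJ
  have h1mem : ∀ i ∈ B, 1 ∈ A i := by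
    intro i hi
    have h1 := (hJm i).1 (hB hi)
    rw [hin i h1.1, Finset.mem_Icc]
    refine ⟨le_rfl, ?_⟩
    have h2 := mx_mem h1.2
    exact (Finset.mem_Icc.1 (hA i h2)).1
  have hBS : ∀ i ∈ B, i ∉ S := fun i hi => ((hJm i).1 (hB hi)).1
  have hif : ∀ i ∈ S, (if i ∈ B then {1} else A i) = A i := fun i hi =>
    if_neg fun h => hBS i h hi
  have h1 := E1 hG hm hL1 hL2 hL3 e S (fun i => if i ∈ B then {1} else A i) B (fun i => ?_)
    (fun i hi => ?_) (fun i hi => ⟨hBS i hi, if_pos hi⟩) ?_ ?_ ?_
  · refine h1.mono (fun i hi => hi) fun i s => ?_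
    show prof (if i ∈ B then {1} else A i) s ≤ prof (A i) s
    refine prof_mono ?_ s
    split_ifs with h
    · exact Finset.singleton_subset_iff.2 (h1mem i h)
    · exact subset_rfl
  · show (if i ∈ B then {1} else A i) ⊆ Finset.Icc 1 m
    split_ifs with h
    · exact Finset.singleton_subset_iff.2 (Finset.mem_Icc.2 ⟨le_rfl, hm⟩)
    · exact hA i
  · show (if i ∈ B then {1} else A i) = Finset.Icc 1 (mx (if i ∈ B then {1} else A i))
    split_ifs with h
    · rw [mx_one, Finset.Icc_self]
    · exact hin i hi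
  · refine le_trans (le_of_eq (Finset.sum_congr rfl fun i hi => ?_)) hT
    rw [hif i hi]
  · have h2 : ∑ i, cn E (A i) ≤ ∑ i, (cn E (if i ∈ B then {1} else A i) +
        if i ∈ B then Sz E m else 0) := by
      refine Finset.sum_le_sum fun i _ => ?_
      split_ifs with h
      · exact (cn_le_Sz (hA i)).trans (Nat.le_add_left _ _)
      · exact Nat.le_add_right _ _
    rw [Finset.sum_add_distrib, Finset.sum_ite_mem, Finset.univ_inter, Finset.sum_const,
      smul_eq_mul, hBc, mul_comm Q] at h2
    omega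
  · rw [hBc, hQ]

/-- The numerical conditions for the passage from degree `e + 1` to degree `e`. -/
def Cnd (E m L e : ℕ) : Prop :=
  (m - 1) * Nn E (e + 1) + (m + E) * (sz E m * sz E m + Sz E m * (dm E L + (e + 1) * sz E m)) ≤
    (m + E) * Nn E e ∧
  2 * m * Nn E (e + 1) + m * (sz E m * sz E m) ≤ dm E (e + 1) ∧ L ≤ e

/-- Emptiness if many points on the hyperplane have multiplicity `k`. -/
theorem Mk {m D L : ℕ} (hG : G K E m D) (hm : 1 ≤ m) (hL1 : D + m ≤ L) (hL2 : m + m ≤ L)
    (hL3 : (E + 2) * m ≤ L) (k : ℕ) :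
    ∀ (e : ℕ) (S : Finset ι) (A : ι → Finset ℕ) (B : Finset ι), 1 ≤ k →
      (∀ e', e' < e → e ≤ e' + k → Cnd E m L e') → (∀ i, A i ⊆ Finset.Icc 1 m) →
      (∀ i, i ∉ S → A i = Finset.Icc 1 (mx (A i))) →
      (∀ i ∈ B, i ∈ S ∧ A i = Finset.Icc 1 k) → dm E L + e * sz E m ≤ B.card →
      ∑ i ∈ S, sz E (mx (A i)) + Sz E m * (dm E L + e * sz E m) ≤ Nn E e →
      dm E e ≤ ∑ i, cn E (A i) → 1 ≤ e →
      CE E K (fun i => i ∈ S) (fun i => prof (A i)) e := by
  classical
  induction k with
  | zero =>
    intro e S A B hk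
    omega
  | succ k ih =>
    intro e S A B _ hC hA hin hB hq hT htot he
    obtain ⟨e, rfl⟩ : ∃ e', e = e' + 1 := ⟨e - 1, by omega⟩
    obtain ⟨hC1, hC2, hC3⟩ := hC e (by omega) (by omega)
    obtain ⟨T, hTd⟩ : ∃ T, T = ∑ i ∈ S, sz E (mx (A i)) := ⟨_, rfl⟩
    rw [← hTd] at hT
    have hmono : Sz E m * (dm E L + e * sz E m) ≤ Sz E m * (dm E L + (e + 1) * sz E m) :=
      Nat.mul_le_mul_left _ (Nat.add_le_add_left (Nat.mul_le_mul_right _ (by omega)) _)
    rcases Nat.eq_zero_or_pos k with hk0 | hk0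
    · -- simple points on the hyperplane
      subst hk0
      have hB1 : ∀ i ∈ B, i ∈ S ∧ A i = {1} := by
        intro i hi
        refine ⟨(hB i hi).1, ?_⟩
        rw [(hB i hi).2, zero_add, Finset.Icc_self]
      refine CE.exactA (B := B) hB1 ?_ ?_
      · have h1 := E1 hG hm hL1 hL2 hL3 (e + 1) (S \ B) A B hA (fun i hi => ?_)
          (fun i hi => ⟨fun h => (Finset.mem_sdiff.1 h).2 hi, (hB1 i hi).2⟩) ?_ htot hq
        · exact h1.mono (fun i hi => Finset.mem_sdiff.2 hi) fun i s => le_rfl
        · by_cases hiB : i ∈ B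
          · rw [(hB1 i hiB).2, mx_one, Finset.Icc_self]
          · exact hin i fun h => hi (Finset.mem_sdiff.2 ⟨h, hiB⟩)
        · refine (Finset.sum_le_sum_of_subset Finset.sdiff_subset).trans ?_
          rw [← hTd]
          omega
      · refine E2 hG hm hL1 hL2 hL3 e S (fun i => if i ∈ S then (A i).erase (mx (A i)) else A i)
          (fun i => ?_) (fun i hi => ?_) ?_ (by omega) ?_
        · show (if i ∈ S then (A i).erase (mx (A i)) else A i) ⊆ Finset.Icc 1 m
          split_ifs
          · exact (Finset.erase_subset _ _).trans (hA i)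
          · exact hA i
        · rw [if_neg hi]
          exact hin i hi
        · have h4 : (m + E) * ∑ i ∈ S, sz E (mx (if i ∈ S then (A i).erase (mx (A i)) else A i)) ≤
              (m - 1) * T := by
            rw [hTd, Finset.mul_sum, Finset.mul_sum]
            refine Finset.sum_le_sum fun i hi => ?_
            rw [if_pos hi]
            exact T_reg (hA i)
          have h5 : (m - 1) * T ≤ (m - 1) * Nn E (e + 1) := Nat.mul_le_mul_left _ (by omega)
          have h6 := Nn_growth (E := E) (m := m) (e := e) (by omega)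
          exact le_of_mul_le_mul_left (h4.trans (h5.trans h6)) (by omega)
        · have h1 : ∑ i, cn E (if i ∈ S then (A i).erase (mx (A i)) else A i) + T =
              ∑ i, cn E (A i) := by
            rw [hTd, ← Finset.sum_add_sum_compl S (fun i => cn E (A i)),
              ← Finset.sum_add_sum_compl S, add_right_comm, ← Finset.sum_add_distrib]
            congr 1
            · refine Finset.sum_congr rfl fun i hi => ?_
              rw [if_pos hi]
              exact cn_erase _ (mx_mem_or _)
            · refine Finset.sum_congr rfl fun i hi => ?_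
              rw [if_neg (Finset.mem_compl.1 hi)]
          have h2 := dm_succ E e
          omega
    · -- a step
      obtain ⟨J, hJ⟩ : ∃ J : Finset ι, J = Sᶜ.filter (fun i => (A i).Nonempty) := ⟨_, rfl⟩
      have hJm : ∀ i, i ∈ J ↔ i ∉ S ∧ (A i).Nonempty := by
        intro i
        rw [hJ, Finset.mem_filter, Finset.mem_compl]
      have hszpos : 0 < sz E m := sz_pos E hm
      have hSJ : Nn E (e + 1) + sz E m * sz E m ≤ ∑ i ∈ J, sz E (mx (A i)) := by
        have h1 : ∑ i ∈ S, cn E (A i) ≤ m * Nn E (e + 1) := by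
          refine (Finset.sum_le_sum fun i _ => cn_le (card_le (hA i))).trans ?_
          rw [← Finset.mul_sum, ← hTd]
          exact Nat.mul_le_mul_left _ (by omega)
        have h2 : ∑ i ∈ Sᶜ, cn E (A i) ≤ m * ∑ i ∈ J, sz E (mx (A i)) := by
          rw [hJ, Finset.mul_sum, Finset.sum_filter]
          refine Finset.sum_le_sum fun i _ => ?_
          split_ifs with h
          · exact cn_le (card_le (hA i))
          · rw [Finset.not_nonempty_iff_eq_empty] at h
            rw [h]
            exact (cn_empty E).le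
        have h3 := Finset.sum_add_sum_compl S fun i => cn E (A i)
        have h4 : 2 * m * Nn E (e + 1) = m * Nn E (e + 1) + m * Nn E (e + 1) := by ring
        have h5 : m * (Nn E (e + 1) + sz E m * sz E m) ≤ m * ∑ i ∈ J, sz E (mx (A i)) := by
          rw [Nat.mul_add]
          omega
        exact le_of_mul_le_mul_left h5 (by omega)
      have hszJ : ∀ i, sz E (mx (A i)) ≤ sz E m := fun i => sz_mono E (mx_le (hA i))
      have hJc : sz E m ≤ J.card := by
        have h1 : ∑ i ∈ J, sz E (mx (A i)) ≤ J.card * sz E m := by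
          rw [← smul_eq_mul, ← Finset.sum_const]
          exact Finset.sum_le_sum fun i _ => hszJ i
        have h2 : sz E m * sz E m ≤ J.card * sz E m := by omega
        exact le_of_mul_le_mul_right h2 hszpos
      obtain ⟨J2, hJ2, hJ2c⟩ := Finset.exists_subset_card_eq hJc
      have hJd : Nn E (e + 1) - T ≤ ∑ i ∈ J \ J2, sz E (mx (A i)) := by
        have h1 := Finset.sum_sdiff (f := fun i => sz E (mx (A i))) hJ2
        have h2 : ∑ i ∈ J2, sz E (mx (A i)) ≤ sz E m * sz E m := by
          calc ∑ i ∈ J2, sz E (mx (A i)) ≤ ∑ _i ∈ J2, sz E m :=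
                Finset.sum_le_sum fun i _ => hszJ i
            _ = sz E m * sz E m := by rw [Finset.sum_const, smul_eq_mul, hJ2c]
        omega
      obtain ⟨J1, hJ1, hJ1a, hJ1b⟩ := greedy (fun i => sz E (mx (A i))) (sz E m) (J \ J2)
        (fun i _ => hszJ i) (Nn E (e + 1) - T) hJd
      obtain ⟨J3, hJ3, hJ3c⟩ := Finset.exists_subset_card_eq
        (show Nn E (e + 1) - T - ∑ i ∈ J1, sz E (mx (A i)) ≤ J2.card by omega)
      obtain ⟨u, hu⟩ : ∃ u : ι → ℕ, ∀ i, u i = if i ∈ S ∪ J1 then mx (A i) else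
        (if i ∈ J3 then 1 else 0) := ⟨_, fun _ => rfl⟩
      have hJ1S : Disjoint S J1 := by
        rw [Finset.disjoint_left]
        intro i hi hi'
        exact ((hJm i).1 (Finset.mem_sdiff.1 (hJ1 hi')).1).1 hi
      have hJ3n : ∀ i ∈ J3, i ∉ S ∪ J1 := by
        intro i hi h
        rcases Finset.mem_union.1 h with h | h
        · exact ((hJm i).1 (hJ2 (hJ3 hi))).1 h
        · exact (Finset.mem_sdiff.1 (hJ1 h)).2 (hJ3 hi)
      have huS : ∀ i ∈ S, u i = mx (A i) := fun i hi => by
        rw [hu, if_pos (Finset.mem_union_left _ hi)]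
      have huJ : ∀ i ∈ J1, u i = mx (A i) := fun i hi => by
        rw [hu, if_pos (Finset.mem_union_right _ hi)]
      have hu3 : ∀ i ∈ J3, u i = 1 := fun i hi => by
        rw [hu, if_neg (hJ3n i hi), if_pos hi]
      have hu0 : ∀ i, i ∉ S → i ∉ J1 → i ∉ J3 → u i = 0 := fun i h1 h2 h3 => by
        rw [hu, if_neg (by rw [Finset.mem_union, not_or]; exact ⟨h1, h2⟩), if_neg h3]
      have hmxpos : ∀ i ∈ J, 1 ≤ mx (A i) := by
        intro i hi
        exact (Finset.mem_Icc.1 (hA i (mx_mem ((hJm i).1 hi).2))).1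
      have hsum : ∑ i, sz E (u i) = Nn E (e + 1) := by
        have h1 : ∀ i ∈ Finset.univ, sz E (u i) =
            (if i ∈ S ∪ J1 then sz E (mx (A i)) else 0) + (if i ∈ J3 then 1 else 0) := by
          intro i _
          by_cases h : i ∈ S ∪ J1
          · have h2 : i ∉ J3 := fun h3 => hJ3n i h3 h
            rw [hu, if_pos h, if_pos h, if_neg h2, add_zero]
          · rw [hu, if_neg h, if_neg h, zero_add]
            split_ifs
            · exact sz_one E
            · exact sz_zero E
        rw [Finset.sum_congr rfl h1, Finset.sum_add_distrib, Finset.sum_ite_mem,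
          Finset.sum_ite_mem, Finset.univ_inter, Finset.univ_inter, Finset.sum_union hJ1S,
          Finset.sum_const, smul_eq_mul, mul_one, hJ3c, ← hTd]
        omega
      have hmem : ∀ i, u i ∈ A i ∨ u i = 0 := by
        intro i
        by_cases h1 : i ∈ S
        · rw [huS i h1]
          exact mx_mem_or _
        by_cases h2 : i ∈ J1
        · rw [huJ i h2]
          exact mx_mem_or _
        by_cases h3 : i ∈ J3
        · left
          have h4 := (hJm i).1 (hJ2 (hJ3 h3))
          rw [hu3 i h3, hin i h4.1, Finset.mem_Icc]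
          exact ⟨le_rfl, hmxpos i (hJ2 (hJ3 h3))⟩
        · exact Or.inr (hu0 i h1 h2 h3)
      refine stepS (u := u) hG hA hin huS (fun i hi => ?_) (by omega) (le_of_eq hsum.symm) ?_
      · by_cases h2 : i ∈ J1
        · exact (huJ i h2).le
        by_cases h3 : i ∈ J3
        · rw [hu3 i h3]
          exact hmxpos i (hJ2 (hJ3 h3))
        · rw [hu0 i hi h2 h3]
          exact Nat.zero_le _
      · have hTn := T_next (E := E) (S := S) (u := u) hA huS J3 (fun i hi hne h3 => by
          by_cases h2 : i ∈ J1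
          · exact huJ i h2
          · exact absurd (hu0 i hi h2 h3) hne)
        rw [hsum] at hTn
        have hTm : ∑ i ∈ S ∪ Finset.univ.filter (fun i => u i ≠ 0),
            sz E (mx ((A i).erase (u i))) + Sz E m * (dm E L + (e + 1) * sz E m) ≤ Nn E e := by
          have h1 : J3.card * sz E m ≤ sz E m * sz E m :=
            Nat.mul_le_mul_right _ ((Finset.card_le_card hJ3).trans (le_of_eq hJ2c))
          have h2 : (m + E) * (J3.card * sz E m) ≤ (m + E) * (sz E m * sz E m) :=
            Nat.mul_le_mul_left _ h1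
          refine le_of_mul_le_mul_left (?_ : (m + E) * _ ≤ (m + E) * _) (by omega)
          rw [Nat.mul_add] at hC1 ⊢
          omega
        refine ih e _ (fun i => (A i).erase (u i)) B hk0
          (fun e' h1 h2 => hC e' (by omega) (by omega))
          (fun i => (Finset.erase_subset _ _).trans (hA i)) (fun i hi => ?_) (fun i hi => ?_) ?_
          ?_ ?_ ?_
        · rw [Finset.mem_union, not_or, Finset.mem_filter, not_and, not_not] at hi
          have h0 := hi.2 (Finset.mem_univ _)
          show (A i).erase (u i) = Finset.Icc 1 (mx ((A i).erase (u i)))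
          rw [h0, erase_zero (hA i)]
          exact hin i hi.1
        · refine ⟨Finset.mem_union_left _ (hB i hi).1, ?_⟩
          show (A i).erase (u i) = Finset.Icc 1 k
          rw [huS i (hB i hi).1, (hB i hi).2, mx_Icc]
          ext v
          rw [Finset.mem_erase, Finset.mem_Icc, Finset.mem_Icc]
          omega
        · refine le_trans ?_ hq
          exact Nat.add_le_add_left (Nat.mul_le_mul_right _ (by omega)) _
        · show ∑ i ∈ S ∪ Finset.univ.filter (fun i => u i ≠ 0),
            sz E (mx ((A i).erase (u i))) + Sz E m * (dm E L + e * sz E m) ≤ Nn E e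
          omega
        · have h1 := tot_next (E := E) hmem
          have h2 := dm_succ E e
          show dm E e ≤ ∑ i, cn E ((A i).erase (u i))
          omega
        · omega

omit [Infinite K] [DecidableEq ι] in
/-- A frequent multiplicity. -/
theorem exists_freq {m : ℕ} (w : ι → ℕ) (hw : ∀ i, w i ≤ m) (Q X : ℕ)
    (h : m * (Sz E m * Q) < X) (hX : X ≤ ∑ i, Sz E (w i)) :
    ∃ k, 1 ≤ k ∧ k ≤ m ∧ Q ≤ (Finset.univ.filter (fun i => w i = k)).card := by
  classical
  by_contra hcon
  push Not at hcon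
  have h1 : ∑ i, Sz E (w i) = ∑ k ∈ Finset.range (m + 1),
      ∑ i ∈ Finset.univ.filter (fun i => w i = k), Sz E (w i) := by
    rw [Finset.sum_fiberwise_of_maps_to]
    intro i _
    rw [Finset.mem_range]
    have := hw i
    omega
  rw [Finset.sum_range_succ'] at h1
  have h2 : ∑ i ∈ Finset.univ.filter (fun i => w i = 0), Sz E (w i) = 0 := by
    refine Finset.sum_eq_zero fun i hi => ?_
    rw [(Finset.mem_filter.1 hi).2, Sz_zero]
  have h3 : ∑ k ∈ Finset.range m, ∑ i ∈ Finset.univ.filter (fun i => w i = k + 1),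
      Sz E (w i) ≤ m * (Sz E m * Q) := by
    have h4 : ∀ k ∈ Finset.range m, ∑ i ∈ Finset.univ.filter (fun i => w i = k + 1),
        Sz E (w i) ≤ Sz E m * Q := by
      intro k hk
      rw [Finset.mem_range] at hk
      have h5 := hcon (k + 1) (by omega) (by omega)
      calc ∑ i ∈ Finset.univ.filter (fun i => w i = k + 1), Sz E (w i)
          ≤ ∑ _i ∈ Finset.univ.filter (fun i => w i = k + 1), Sz E m :=
            Finset.sum_le_sum fun i _ => Sz_mono E (hw i)
        _ = (Finset.univ.filter (fun i => w i = k + 1)).card * Sz E m := by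
            rw [Finset.sum_const, smul_eq_mul]
        _ ≤ Sz E m * Q := by
            rw [mul_comm]
            exact Nat.mul_le_mul_left _ h5.le
    refine (Finset.sum_le_sum h4).trans ?_
    rw [Finset.sum_const, Finset.card_range, smul_eq_mul]
  rw [h2, add_zero] at h1
  omega

/-- **The induction step on the dimension.** -/
theorem G_succ {m D L D' : ℕ} (hG : G K E m D) (hm : 1 ≤ m) (hL1 : D + m ≤ L)
    (hL2 : m + m ≤ L) (hL3 : (E + 2) * m ≤ L)
    (h1 : ∀ d, D' ≤ d → 1 ≤ d ∧ (∀ e, e < d → d ≤ e + m → Cnd E m L e) ∧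
      m * (Sz E m * (dm E L + d * sz E m)) < dm E d ∧
      (dm E L + d * sz E m) * sz E m + Sz E m * (dm E L + d * sz E m) ≤ Nn E d) :
    G K (E + 1) m D' := by
  classical
  intro n w hw d hd htot
  obtain ⟨hd1, hC, h4, h5⟩ := h1 d hd
  have htot' : dm E d ≤ ∑ i, Sz E (w i) := htot
  obtain ⟨k, hk1, hk2, hk3⟩ := exists_freq (E := E) w hw _ _ h4 htot'
  obtain ⟨B, hB, hBc⟩ := Finset.exists_subset_card_eq hk3
  have hBk : ∀ i ∈ B, w i = k := fun i hi => (Finset.mem_filter.1 (hB hi)).2
  refine full_of_CE ?_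
  have h6 := Mk (ι := Fin n) hG hm hL1 hL2 hL3 k d B (fun i => Finset.Icc 1 (w i)) B hk1
    (fun e he he' => hC e he (by omega)) (fun i => Finset.Icc_subset_Icc_right (hw i))
    (fun i _ => by rw [mx_Icc]) (fun i hi => ⟨hi, by rw [hBk i hi]⟩) (le_of_eq hBc.symm) ?_ ?_ hd1
  · exact h6.mono (fun i hi => hi.elim) fun i s => le_rfl
  · refine le_trans (Nat.add_le_add_right ?_ _) h5
    calc ∑ i ∈ B, sz E (mx (Finset.Icc 1 (w i))) ≤ ∑ _i ∈ B, sz E m := by
          refine Finset.sum_le_sum fun i _ => sz_mono E ?_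
          rw [mx_Icc]
          exact hw i
      _ = (dm E L + d * sz E m) * sz E m := by rw [Finset.sum_const, smul_eq_mul, hBc]
  · refine htot'.trans (le_of_eq (Finset.sum_congr rfl fun i _ => ?_))
    rw [cn_Icc]

end Pool.Agent.W608.PR
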