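import Mathlib
import Pool.Agent.W608.PR.Main2

set_option autoImplicit false

/-!
# The numerical conditions
-/

namespace Pool.Agent.W608.PR

theorem choose_le_pow' (n k : ℕ) : (n + k).choose (k + 1) ≤ n ^ (k + 1) := by
  rcases Nat.eq_zero_or_pos n with h | h
  · rw [h, zero_add, Nat.choose_succ_self]
    exact Nat.zero_le _
  induction k with
  | zero => simp
  | succ k ih =>
    have h1 := Nat.add_one_mul_choose_eq (n + k) (k + 1)
    refine le_of_mul_le_mul_right (?_ : _ * (k + 1 + 1) ≤ _ * (k + 1 + 1)) (by omega)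
    rw [show n + (k + 1) = n + k + 1 by ring, ← h1]
    calc (n + k + 1) * (n + k).choose (k + 1) ≤ (n + k + 1) * n ^ (k + 1) :=
          Nat.mul_le_mul_left _ ih
      _ ≤ (n * (k + 1 + 1)) * n ^ (k + 1) := by
          refine Nat.mul_le_mul_right _ ?_
          nlinarith
      _ = n ^ (k + 1 + 1) * (k + 1 + 1) := by ring

theorem sz_le_pow (E m : ℕ) : sz E m ≤ m ^ (E + 1) := choose_le_pow' m E

theorem Sz_le_pow (E m : ℕ) : Sz E m ≤ m ^ (E + 2) := choose_le_pow' m (E + 1)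

theorem dm_le_pow (E L : ℕ) : dm E L ≤ (L + 1) ^ (E + 2) := by
  have h := choose_le_pow' (L + 1) (E + 1)
  rw [show L + 1 + (E + 1) = L + E + 2 by ring] at h
  exact h

theorem Nn_ge_pow (E e : ℕ) : (e + 1) ^ (E + 1) ≤ (E + 1).factorial * Nn E e := by
  have h := Nat.pow_sub_le_descFactorial (e + E + 1) (E + 1)
  rw [Nat.descFactorial_eq_factorial_mul_choose,
    show e + E + 1 + 1 - (E + 1) = e + 1 by omega] at h
  exact h

theorem sz_le_Sz (E m : ℕ) : sz E m ≤ Sz E m := by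
  rcases Nat.eq_zero_or_pos m with h | h
  · rw [h, sz_zero]
    exact Nat.zero_le _
  · obtain ⟨k, rfl⟩ : ∃ k, m = k + 1 := ⟨m - 1, by omega⟩
    rw [Sz_succ]
    exact Nat.le_add_left _ _

/-- The conditions for the induction step from one inequality. -/
theorem conds {E m L D' : ℕ} (hm : 1 ≤ m)
    (h0 : ∀ d, D' ≤ d → 3 * m * (E + 2) + m ≤ d ∧ L + m ≤ d)
    (h : ∀ d e, D' ≤ d → e ≤ d → d ≤ e + m →
      2 * m * (sz E m * sz E m + Sz E m * (dm E L + (e + 1) * sz E m)) ≤ Nn E e) :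
    ∀ d, D' ≤ d → 1 ≤ d ∧ (∀ e, e < d → d ≤ e + m → Cnd E m L e) ∧
      m * (Sz E m * (dm E L + d * sz E m)) < dm E d ∧
      (dm E L + d * sz E m) * sz E m + Sz E m * (dm E L + d * sz E m) ≤ Nn E d := by
  intro d hd
  obtain ⟨h1, h2⟩ := h0 d hd
  have hm3 : 3 * m ≤ 3 * m * (E + 2) := Nat.le_mul_of_pos_right _ (by omega)
  have hSz : 1 ≤ Sz E m := by
    have := Sz_mono E hm
    rwa [Sz_one] at this
  have hszm : 1 ≤ sz E m := sz_pos E hm
  have hdL : 1 ≤ dm E L := Nat.choose_pos (by omega)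
  refine ⟨by omega, fun e he he' => ⟨?_, ?_, by omega⟩, ?_, ?_⟩
  · have h3 := h d e hd he.le he'
    obtain ⟨X, hX⟩ : ∃ X, X = sz E m * sz E m + Sz E m * (dm E L + (e + 1) * sz E m) :=
      ⟨_, rfl⟩
    rw [← hX] at h3 ⊢
    have h4 := Nn_ratio E e
    obtain ⟨j, hj⟩ : ∃ j, e = 2 * m + j := ⟨e - 2 * m, by omega⟩
    refine le_of_mul_le_mul_left (?_ : (e + 1) * _ ≤ (e + 1) * _) (by omega)
    obtain ⟨q, hq⟩ : ∃ q, m = q + 1 := ⟨m - 1, by omega⟩
    have h5 : (e + 1) * ((m - 1) * Nn E (e + 1) + (m + E) * X) =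
        (m - 1) * (e + E + 2) * Nn E e + (m + E) * (e + 1) * X := by
      calc (e + 1) * ((m - 1) * Nn E (e + 1) + (m + E) * X)
          = (m - 1) * (Nn E (e + 1) * (e + 1)) + (m + E) * (e + 1) * X := by ring
        _ = (m - 1) * (e + E + 2) * Nn E e + (m + E) * (e + 1) * X := by rw [← h4]; ring
    rw [h5]
    have h6 : (m + E) * (e + 1) = (m - 1) * (e + E + 2) + (E + 1) * (e + 2 - m) := by
      rw [hq, hj, hq]
      have e1 : 2 * (q + 1) + j + 2 - (q + 1) = q + 1 + j + 2 := by omega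
      rw [e1, Nat.add_sub_cancel]
      ring
    have h7 : (m + E) * (e + 1) * X ≤ (E + 1) * (e + 2 - m) * Nn E e := by
      have h8 : m + E ≤ m * (E + 1) := by nlinarith
      have h9 : e + 1 ≤ 2 * (e + 2 - m) := by omega
      calc (m + E) * (e + 1) * X ≤ (m * (E + 1)) * (2 * (e + 2 - m)) * X :=
            Nat.mul_le_mul_right _ (Nat.mul_le_mul h8 h9)
        _ = (E + 1) * (e + 2 - m) * (2 * m * X) := by ring
        _ ≤ (E + 1) * (e + 2 - m) * Nn E e := Nat.mul_le_mul_left _ h3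
    calc (m - 1) * (e + E + 2) * Nn E e + (m + E) * (e + 1) * X
        ≤ (m - 1) * (e + E + 2) * Nn E e + (E + 1) * (e + 2 - m) * Nn E e :=
          Nat.add_le_add_left h7 _
      _ = ((m - 1) * (e + E + 2) + (E + 1) * (e + 2 - m)) * Nn E e := by ring
      _ = (e + 1) * ((m + E) * Nn E e) := by rw [← h6]; ring
  · have h3 := h d e hd he.le he'
    have h4 : Nn E e ≤ Nn E (e + 1) := Nn_mono E (by omega)
    have h5 : (3 * m) * Nn E (e + 1) ≤ dm E (e + 1) := dm_ge (by
      have : (E + 2) * (3 * m) = 3 * m * (E + 2) := by ring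
      omega)
    have h6 : sz E m * sz E m ≤ Nn E (e + 1) := by
      refine le_trans ?_ (h3.trans h4)
      calc sz E m * sz E m = 1 * (sz E m * sz E m) := by ring
        _ ≤ 2 * m * (sz E m * sz E m + Sz E m * (dm E L + (e + 1) * sz E m)) :=
            Nat.mul_le_mul (by omega) (Nat.le_add_right _ _)
    calc 2 * m * Nn E (e + 1) + m * (sz E m * sz E m)
        ≤ 2 * m * Nn E (e + 1) + m * Nn E (e + 1) :=
          Nat.add_le_add_left (Nat.mul_le_mul_left _ h6) _
      _ = 3 * m * Nn E (e + 1) := by ring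
      _ ≤ dm E (e + 1) := h5
  all_goals
    have h3 := h d d hd le_rfl (by omega)
    obtain ⟨Q, hQ⟩ : ∃ Q, Q = dm E L + d * sz E m := ⟨_, rfl⟩
    have hQ1 : 1 ≤ Q := by omega
    have hQQ : Q ≤ dm E L + (d + 1) * sz E m := by
      rw [hQ]
      exact Nat.add_le_add_left (Nat.mul_le_mul_right _ (by omega)) _
    rw [← hQ]
    have h4 : 2 * m * (Sz E m * Q) ≤ Nn E d := by
      refine le_trans (Nat.mul_le_mul_left _ ?_) h3
      exact (Nat.mul_le_mul_left _ hQQ).trans (Nat.le_add_left _ _)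
  · have h5 : Nn E d ≤ dm E d := by
      have := dm_ge (E := E) (a := 1) (e := d) (by omega)
      rwa [one_mul] at this
    have h6 : 1 ≤ m * (Sz E m * Q) := by
      have : 0 < m * (Sz E m * Q) := by positivity
      omega
    have h7 : 2 * m * (Sz E m * Q) = m * (Sz E m * Q) + m * (Sz E m * Q) := by ring
    omega
  · have h5 : Q * sz E m ≤ Sz E m * Q := by
      rw [mul_comm]
      exact Nat.mul_le_mul_right _ (sz_le_Sz E m)
    have h6 : Sz E m * Q ≤ m * (Sz E m * Q) := Nat.le_mul_of_pos_left _ (by omega)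
    have h7 : 2 * m * (Sz E m * Q) = m * (Sz E m * Q) + m * (Sz E m * Q) := by ring
    omega

end Pool.Agent.W608.PR
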