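import Mathlib
import Pool.Agent.W608.PR.Num

set_option autoImplicit false

/-!
# The closed form of the bound
-/

namespace Pool.Agent.W608.PR

theorem two_pow_le {k n : ℕ} (hn : k ≤ n) (hk : 1 ≤ k) : 2 * k ^ n ≤ (k + 1) ^ n := by
  have h1 : ∀ j, (k + j) * k ^ j ≤ k * (k + 1) ^ j := by
    intro j
    induction j with
    | zero => simp
    | succ j ih =>
      calc (k + (j + 1)) * k ^ (j + 1) = (k * (k + j + 1)) * k ^ j := by ring
        _ ≤ ((k + j) * (k + 1)) * k ^ j := by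
            refine Nat.mul_le_mul_right _ ?_
            nlinarith
        _ = ((k + j) * k ^ j) * (k + 1) := by ring
        _ ≤ (k * (k + 1) ^ j) * (k + 1) := Nat.mul_le_mul_right _ ih
        _ = k * (k + 1) ^ (j + 1) := by ring
  have h2 : 2 * k ^ k ≤ (k + 1) ^ k := by
    have h3 := h1 k
    have h4 : k * (2 * k ^ k) ≤ k * (k + 1) ^ k := by
      calc k * (2 * k ^ k) = (k + k) * k ^ k := by ring
        _ ≤ k * (k + 1) ^ k := h3
    exact le_of_mul_le_mul_left h4 (by omega)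
  obtain ⟨j, rfl⟩ : ∃ j, n = k + j := ⟨n - k, by omega⟩
  calc 2 * k ^ (k + j) = (2 * k ^ k) * k ^ j := by ring
    _ ≤ (k + 1) ^ k * (k + 1) ^ j := Nat.mul_le_mul h2 (Nat.pow_le_pow_left (by omega) _)
    _ = (k + 1) ^ (k + j) := by ring

/-- The triangular numbers. -/
def Tn (k : ℕ) : ℕ := k * (k + 1) / 2

theorem Tn_succ (k : ℕ) : Tn (k + 1) = Tn k + (k + 1) := by
  unfold Tn
  have : (k + 1) * (k + 1 + 1) = k * (k + 1) + 2 * (k + 1) := by ring
  omega

theorem two_Tn (k : ℕ) : 2 * Tn k = k * (k + 1) := by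
  induction k with
  | zero => rfl
  | succ k ih =>
    rw [Tn_succ, Nat.mul_add, ih]
    ring

theorem Tn_ge {k : ℕ} (hk : 3 ≤ k) : k + 3 ≤ Tn k := by
  have := two_Tn k
  nlinarith

theorem fact_le {k : ℕ} (hk : 3 ≤ k) : 6 * k.factorial * 4 ^ k ≤ (k + 1) ^ Tn k := by
  induction k, hk using Nat.le_induction with
  | base => decide
  | succ k hk ih =>
    rw [Tn_succ, Nat.factorial_succ]
    have h1 : 4 * (k + 1) ≤ (k + 2) ^ (k + 1) := by
      calc 4 * (k + 1) ≤ (k + 2) ^ 2 := by nlinarith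
        _ ≤ (k + 2) ^ (k + 1) := Nat.pow_le_pow_right (by omega) (by omega)
    calc 6 * ((k + 1) * k.factorial) * 4 ^ (k + 1)
        = (6 * k.factorial * 4 ^ k) * (4 * (k + 1)) := by ring
      _ ≤ (k + 1) ^ Tn k * (k + 2) ^ (k + 1) := Nat.mul_le_mul ih h1
      _ ≤ (k + 2) ^ Tn k * (k + 2) ^ (k + 1) :=
          Nat.mul_le_mul_right _ (Nat.pow_le_pow_left (by omega) _)
      _ = (k + 1 + 1) ^ (Tn k + (k + 1)) := (pow_add _ _ _).symm

/-- The bound of the theorem. -/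
def Dd (k m : ℕ) : ℕ := (k * m) ^ Tn k

theorem Dd_ge {k m : ℕ} (hk : 3 ≤ k) (hm : 1 ≤ m) : (k + 2) * m + 1 ≤ Dd k m := by
  unfold Dd
  have h1 : k * m ≤ (k * m) ^ 1 := by rw [pow_one]
  have h2 : (k * m) ^ 2 ≤ (k * m) ^ Tn k :=
    Nat.pow_le_pow_right (by positivity) (by have := Tn_ge hk; omega)
  have h3 : (k + 2) * m + 1 ≤ (k * m) ^ 2 := by
    have h4 : m ≤ m * m := Nat.le_mul_of_pos_left _ hm
    have h5 : (k + 3) ≤ k * k := by nlinarith
    calc (k + 2) * m + 1 ≤ (k + 2) * m + m := Nat.add_le_add_left hm _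
      _ = (k + 3) * m := by ring
      _ ≤ (k * k) * (m * m) := Nat.mul_le_mul h5 h4
      _ = (k * m) ^ 2 := by ring
  omega

theorem Dd_succ (k m : ℕ) : Dd (k + 1) m = ((k + 1) * m) ^ Tn k * ((k + 1) * m) ^ (k + 1) := by
  unfold Dd
  rw [Tn_succ, pow_add]

theorem Dd_step {k m : ℕ} (hk : 3 ≤ k) :
    256 * m * Dd k m ≤ Dd (k + 1) m := by
  rw [Dd_succ]
  have h1 : Dd k m ≤ ((k + 1) * m) ^ Tn k :=
    Nat.pow_le_pow_left (Nat.mul_le_mul_right _ (by omega)) _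
  have h2 : 256 * m ≤ ((k + 1) * m) ^ (k + 1) := by
    calc 256 * m = 4 ^ 4 * m := by norm_num
      _ ≤ (k + 1) ^ (k + 1) * m ^ (k + 1) := by
          refine Nat.mul_le_mul ?_ (Nat.le_self_pow (by omega) _)
          exact (Nat.pow_le_pow_left (by omega) 4).trans (Nat.pow_le_pow_right (by omega)
            (by omega))
      _ = ((k + 1) * m) ^ (k + 1) := by rw [mul_pow]
  calc 256 * m * Dd k m ≤ ((k + 1) * m) ^ (k + 1) * ((k + 1) * m) ^ Tn k :=
        Nat.mul_le_mul h2 h1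
    _ = _ := by ring

theorem big_B {k m : ℕ} (hk : 3 ≤ k) (hm : 1 ≤ m) :
    2 ^ k * (6 * k.factorial * m ^ (k + 2) * (2 * Dd k m) ^ (k + 1)) ≤ Dd (k + 1) m ^ k := by
  have hT := Tn_ge hk
  have h2T := two_Tn k
  have e1 : Dd (k + 1) m ^ k =
      (((k + 1) * m) ^ (Tn k * (k + 1))) * ((k + 1) * m) ^ Tn k := by
    unfold Dd
    rw [Tn_succ, ← pow_mul, ← pow_add]
    congr 1
    nlinarith
  have e2 : Dd k m ^ (k + 1) = (k * m) ^ (Tn k * (k + 1)) := by
    unfold Dd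
    rw [← pow_mul]
  have h1 : 2 * (k * m) ^ (Tn k * (k + 1)) ≤ ((k + 1) * m) ^ (Tn k * (k + 1)) := by
    rw [mul_pow, mul_pow, ← mul_assoc]
    refine Nat.mul_le_mul_right _ (two_pow_le ?_ (by omega))
    nlinarith
  have h2 : 6 * k.factorial * 4 ^ k * m ^ (k + 2) ≤ ((k + 1) * m) ^ Tn k := by
    rw [mul_pow]
    exact Nat.mul_le_mul (fact_le hk) (Nat.pow_le_pow_right hm (by omega))
  rw [e1, mul_pow, e2]
  calc 2 ^ k * (6 * k.factorial * m ^ (k + 2) * (2 ^ (k + 1) * (k * m) ^ (Tn k * (k + 1))))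
      = (2 * (k * m) ^ (Tn k * (k + 1))) * (6 * k.factorial * (2 ^ k * 2 ^ k) * m ^ (k + 2)) := by
        ring
    _ = (2 * (k * m) ^ (Tn k * (k + 1))) * (6 * k.factorial * 4 ^ k * m ^ (k + 2)) := by
        rw [← mul_pow, show 2 * 2 = 4 from rfl]
    _ ≤ _ := Nat.mul_le_mul h1 h2

theorem big_C {k m : ℕ} (hk : 3 ≤ k) (hm : 1 ≤ m) :
    12 * k.factorial * m ^ (2 * k + 2) ≤ Dd (k + 1) m := by
  unfold Dd
  have hT := Tn_ge hk
  rw [Tn_succ]
  have h1 : k.factorial ≤ (k + 1) ^ k :=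
    (Nat.factorial_le_pow k).trans (Nat.pow_le_pow_left (by omega) _)
  have h2 : 12 ≤ (k + 1) ^ 2 := by nlinarith
  calc 12 * k.factorial * m ^ (2 * k + 2)
      ≤ ((k + 1) ^ 2 * (k + 1) ^ k) * m ^ (2 * k + 2) :=
        Nat.mul_le_mul_right _ (Nat.mul_le_mul h2 h1)
    _ = (k + 1) ^ (k + 2) * m ^ (2 * k + 2) := by ring
    _ ≤ (k + 1) ^ (Tn k + (k + 1)) * m ^ (Tn k + (k + 1)) :=
        Nat.mul_le_mul (Nat.pow_le_pow_right (by omega) (by omega))
          (Nat.pow_le_pow_right hm (by omega))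
    _ = ((k + 1) * m) ^ (Tn k + (k + 1)) := by rw [mul_pow]

/-- The main inequality. -/
theorem main_ineq {E m L e : ℕ} (hE : 2 ≤ E) (hm : 1 ≤ m) (hL : L + 1 ≤ 2 * Dd (E + 1) m)
    (he : Dd (E + 2) m ≤ 2 * (e + 1)) :
    2 * m * (sz E m * sz E m + Sz E m * (dm E L + (e + 1) * sz E m)) ≤ Nn E e := by
  obtain ⟨k, hk⟩ : ∃ k, k = E + 1 := ⟨_, rfl⟩
  have hk3 : 3 ≤ k := by omega
  have hB := big_B hk3 hm
  have hC := big_C hk3 hm
  have hN := Nn_ge_pow E e
  obtain ⟨a, ha⟩ : ∃ a, a = e + 1 := ⟨_, rfl⟩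
  have hE2 : E + 2 = k + 1 := by omega
  rw [← ha] at he hN
  rw [hE2] at he
  rw [← hk] at hL hN
  have h1 : sz E m ≤ m ^ k := by
    have := sz_le_pow E m
    rwa [← hk] at this
  have h2 : Sz E m ≤ m ^ (k + 1) := by
    have := Sz_le_pow E m
    rwa [hE2] at this
  have h3 : dm E L ≤ (2 * Dd k m) ^ (k + 1) := by
    have := dm_le_pow E L
    rw [hE2] at this
    exact this.trans (Nat.pow_le_pow_left hL _)
  obtain ⟨Y, hY⟩ : ∃ Y, Y = (2 * Dd k m) ^ (k + 1) := ⟨_, rfl⟩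
  rw [← hY] at h3 hB
  have ha1 : 6 * k.factorial * m ^ (2 * k + 2) ≤ a := by
    have : 12 * k.factorial * m ^ (2 * k + 2) = 2 * (6 * k.factorial * m ^ (2 * k + 2)) := by
      ring
    omega
  have hf : 1 ≤ k.factorial := Nat.factorial_pos k
  have ha0 : 1 ≤ a := by
    refine le_trans ?_ ha1
    have : 0 < 6 * k.factorial * m ^ (2 * k + 2) := by positivity
    omega
  have haa : a * a ≤ a ^ k := by
    rw [← sq]
    exact Nat.pow_le_pow_right ha0 (by omega)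
  have hc1 : 6 * k.factorial * m ^ (2 * k + 2) * a ≤ a ^ k :=
    (Nat.mul_le_mul_right _ ha1).trans haa
  have hc2 : 6 * k.factorial * m ^ (2 * k + 1) ≤ a ^ k := by
    refine le_trans ?_ hc1
    calc 6 * k.factorial * m ^ (2 * k + 1) = 6 * k.factorial * m ^ (2 * k + 1) * 1 * 1 := by ring
      _ ≤ 6 * k.factorial * m ^ (2 * k + 1) * m * a :=
          Nat.mul_le_mul (Nat.mul_le_mul_left _ hm) ha0
      _ = 6 * k.factorial * m ^ (2 * k + 2) * a := by ring
  have hc3 : 6 * k.factorial * m ^ (k + 2) * Y ≤ a ^ k := by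
    have h4 : Dd (k + 1) m ^ k ≤ 2 ^ k * a ^ k := by
      rw [← mul_pow]
      exact Nat.pow_le_pow_left he _
    exact le_of_mul_le_mul_left (hB.trans h4) (by positivity)
  refine le_of_mul_le_mul_left (?_ : k.factorial * _ ≤ k.factorial * _) (by omega)
  refine le_trans ?_ hN
  rw [← ha]
  calc k.factorial * (2 * m * (sz E m * sz E m + Sz E m * (dm E L + a * sz E m)))
      ≤ k.factorial * (2 * m * (m ^ k * m ^ k + m ^ (k + 1) * (Y + a * m ^ k))) := by
        refine Nat.mul_le_mul_left _ (Nat.mul_le_mul_left _ (Nat.add_le_add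
          (Nat.mul_le_mul h1 h1) (Nat.mul_le_mul h2 (Nat.add_le_add h3
            (Nat.mul_le_mul_left _ h1)))))
    _ = 2 * k.factorial * m ^ (2 * k + 1) + 2 * k.factorial * m ^ (k + 2) * Y +
          2 * k.factorial * m ^ (2 * k + 2) * a := by ring
    _ ≤ a ^ k := by
        have e1 : 6 * k.factorial * m ^ (2 * k + 1) = 3 * (2 * k.factorial * m ^ (2 * k + 1)) := by
          ring
        have e2 : 6 * k.factorial * m ^ (k + 2) * Y = 3 * (2 * k.factorial * m ^ (k + 2) * Y) := by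
          ring
        have e3 : 6 * k.factorial * m ^ (2 * k + 2) * a =
            3 * (2 * k.factorial * m ^ (2 * k + 2) * a) := by ring
        omega

theorem G_step {K : Type*} [Field K] [Infinite K] {E m : ℕ} (hE : 2 ≤ E) (hm : 1 ≤ m)
    (hG : G K E m (Dd (E + 1) m)) : G K (E + 1) m (Dd (E + 2) m) := by
  have hk : 3 ≤ E + 1 := by omega
  have h1 := Dd_ge hk hm
  have h2 := Dd_step (m := m) hk
  have h3 : (E + 1 + 2) * m = (E + 2) * m + m := by ring
  have hDm : Dd (E + 1) m ≤ m * Dd (E + 1) m := Nat.le_mul_of_pos_left _ (by omega)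
  have h4 : 256 * m * Dd (E + 1) m = 256 * (m * Dd (E + 1) m) := by ring
  have h22 : m + m ≤ (E + 2) * m := by nlinarith
  refine G_succ (L := Dd (E + 1) m + (E + 2) * m) hG hm ?_ ?_ ?_ (conds hm ?_ ?_)
  · omega
  · omega
  · omega
  · intro d hd
    have h5 : 3 * m * (E + 2) = 3 * ((E + 2) * m) := by ring
    have h6 : Dd (E + 1 + 1) m = Dd (E + 2) m := rfl
    omega
  · intro d e hd he he'
    have h6 : Dd (E + 1 + 1) m = Dd (E + 2) m := rfl
    refine main_ineq hE hm ?_ ?_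
    · omega
    · omega

theorem G_three {K : Type*} [Field K] [Infinite K] {m : ℕ} (hm : 1 ≤ m)
    (hG : G K 1 m (2 * (m * m) + 3 * m + 2)) : G K 2 m (Dd 3 m) := by
  have hD : Dd 3 m = 729 * m ^ 6 := by
    have : Tn 3 = 6 := by decide
    unfold Dd
    rw [this]
    ring
  have hm6 : m ≤ m ^ 6 := Nat.le_self_pow (by omega) m
  have hmm : m * m ≤ m ^ 6 := by
    rw [← sq]
    exact Nat.pow_le_pow_right hm (by omega)
  refine G_succ (L := 2 * (m * m) + 6 * m + 2) hG hm ?_ ?_ ?_ (conds hm ?_ ?_)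
  · omega
  · omega
  · omega
  · intro d hd
    rw [hD] at hd
    omega
  · intro d e hd he he'
    rw [hD] at hd
    have h1 := sz_le_pow 1 m
    have h2 := Sz_le_pow 1 m
    have h3 := dm_le_pow 1 (2 * (m * m) + 6 * m + 2)
    have hN := Nn_ge_pow 1 e
    have h4 : (2 * (m * m) + 6 * m + 2 + 1) ^ (1 + 2) ≤ 1331 * m ^ 6 := by
      have h5 : 2 * (m * m) + 6 * m + 2 + 1 ≤ 11 * m ^ 2 := by nlinarith
      calc (2 * (m * m) + 6 * m + 2 + 1) ^ (1 + 2) ≤ (11 * m ^ 2) ^ 3 :=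
            Nat.pow_le_pow_left h5 _
        _ = 1331 * m ^ 6 := by ring
    have h5 := h3.trans h4
    obtain ⟨a, ha⟩ : ∃ a, a = e + 1 := ⟨_, rfl⟩
    rw [← ha] at hN ⊢
    have ha1 : 728 * m ^ 6 ≤ a := by omega
    have hf : (1 + 1).factorial = 2 := rfl
    rw [hf] at hN
    refine le_of_mul_le_mul_left (?_ : 2 * _ ≤ 2 * _) (by omega)
    refine le_trans ?_ hN
    calc 2 * (2 * m * (sz 1 m * sz 1 m + Sz 1 m * (dm 1 (2 * (m * m) + 6 * m + 2) +
          a * sz 1 m)))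
        ≤ 2 * (2 * m * (m ^ 2 * m ^ 2 + m ^ 3 * (1331 * m ^ 6 + a * m ^ 2))) := by
          refine Nat.mul_le_mul_left _ (Nat.mul_le_mul_left _ (Nat.add_le_add
            (Nat.mul_le_mul h1 h1) (Nat.mul_le_mul h2 (Nat.add_le_add h5
              (Nat.mul_le_mul_left _ h1)))))
      _ = 4 * m ^ 5 + 5324 * m ^ 10 + 4 * m ^ 6 * a := by ring
      _ ≤ a ^ (1 + 1) := by
          have h6 : 728 * m ^ 6 * a ≤ a * a := Nat.mul_le_mul_right _ ha1
          have h7 : 724 * m ^ 6 * (728 * m ^ 6) ≤ 724 * m ^ 6 * a := Nat.mul_le_mul_left _ ha1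
          have h8 : 724 * m ^ 6 * (728 * m ^ 6) = 527072 * m ^ 12 := by ring
          have h9 : m ^ 5 ≤ m ^ 12 := Nat.pow_le_pow_right hm (by omega)
          have h10 : m ^ 10 ≤ m ^ 12 := Nat.pow_le_pow_right hm (by omega)
          have h11 : 728 * m ^ 6 * a = 4 * m ^ 6 * a + 724 * m ^ 6 * a := by ring
          have h12 : a ^ (1 + 1) = a * a := by ring
          omega

end Pool.Agent.W608.PR
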