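import Mathlib
import Pool.Agent.W608.PR.Num2
import Pool.Agent.W608.PR.Base

set_option autoImplicit false

/-!
# The Hilbert function of general fat points of bounded multiplicities in large degrees
-/

namespace Pool.Agent.W608.PR

open MvPolynomial H932R5

/-- Emptiness in all degrees at least `Dd (E + 1) m`, in all dimensions. -/
theorem G_all (K : Type) [Field K] [CharZero K] {m : ℕ} (hm : 1 ≤ m) (E : ℕ) (hE : 1 ≤ E) :
    G K E m (Dd (E + 1) m) := by
  have hbase := G_base K m hm
  induction E, hE using Nat.le_induction with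
  | base =>
    intro n w hw d hd htot
    refine hbase n w hw d (le_trans ?_ hd) htot
    have h1 : Dd (1 + 1) m = 8 * m ^ 3 := by
      have : Tn 2 = 3 := by decide
      unfold Dd
      rw [show 1 + 1 = 2 from rfl, this]
      ring
    rw [h1]
    have h2 : m ≤ m ^ 3 := Nat.le_self_pow (by omega) m
    have h3 : m * m ≤ m ^ 3 := by
      rw [← sq]
      exact Nat.pow_le_pow_right hm (by omega)
    omega
  | succ E hE ih =>
    rcases Nat.lt_or_ge 1 E with h | h
    · exact G_step h hm ih
    · have h1 : E = 1 := by omega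
      subst h1
      exact G_three hm hbase

theorem surj_open {K : Type*} [Field K] {E n : ℕ} {w : Fin n → ℕ} {x : Fin n → Fin (E + 1) → K}
    {d : ℕ} (h : SurjAt w x d) : ∃ F : MvPolynomial (Fin n × Fin (E + 1)) K, F ≠ 0 ∧
      ∀ P : Fin n → Fin (E + 1) → K,
        eval (fun q : Fin n × Fin (E + 1) => P q.1 q.2) F ≠ 0 → SurjAt w P d := by
  classical
  let e := Fintype.equivFin (H932R5.Cnd E w)
  choose f hf hfy using fun p : H932R5.Cnd E w => h (Pi.single p 1)
  obtain ⟨F, hF, hF'⟩ := exists_open (w := w) (fun i => f (e.symm i)) x (fun c hc i => by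
    rw [mem_Z_iff, map_sum] at hc
    have h1 := congrFun hc (e.symm i)
    rw [Finset.sum_apply, Pi.zero_apply, Finset.sum_eq_single i] at h1
    · rw [map_smul, hfy, Pi.smul_apply, Pi.single_eq_same, smul_eq_mul, mul_one] at h1
      exact h1
    · intro b _ hb
      rw [map_smul, hfy, Pi.smul_apply, Pi.single_eq_of_ne (fun h0 => hb (e.symm.injective h0).symm),
        smul_zero]
    · intro h0
      exact absurd (Finset.mem_univ i) h0)
  refine ⟨F, hF, fun P hP => surj_of_li _ (fun i => hf _) (hF' P hP) ?_⟩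
  rw [card_Cnd]

/-- Adding simple points until the conditions are as many as the coefficients. -/
theorem surj_of_empty {K : Type*} [Field K] {E n q d : ℕ} {w : Fin n → ℕ}
    {x : Fin (n + q) → Fin (E + 1) → K}
    (h : ∀ f ∈ Z (Fin.append w (fun _ : Fin q => 1)) x,
      (∀ α, coeff α f ≠ 0 → α ∈ Td E d) → f = 0)
    (hN : ∑ i, (w i + E).choose (E + 1) + q = (d + E + 1).choose (E + 1)) :
    SurjAt w (fun i => x (Fin.castAdd q i)) d := by
  classical
  have hfin := finite_mspan (K := K) (dg E (d + 1))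
  let L : ↥(mspan K (↑(dg E (d + 1)) : Set (Fin (E + 1) →₀ ℕ))) →ₗ[K]
      ((H932R5.Cnd E w → K) × (H932R5.Cnd E (fun _ : Fin q => 1) → K)) :=
    ((cnd w (fun i => x (Fin.castAdd q i))).comp (Submodule.subtype _)).prod
      ((cnd (fun _ : Fin q => 1) (fun j => x (Fin.natAdd n j))).comp (Submodule.subtype _))
  have hLi : Function.Injective L := by
    rw [← LinearMap.ker_eq_bot, LinearMap.ker_eq_bot']
    intro f hf
    have h1 : cnd w (fun i => x (Fin.castAdd q i)) f.1 = 0 := congrArg Prod.fst hf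
    have h2 : cnd (fun _ : Fin q => 1) (fun j => x (Fin.natAdd n j)) f.1 = 0 :=
      congrArg Prod.snd hf
    rw [← mem_Z_iff, mem_Z] at h1 h2
    refine Subtype.ext (h f.1 ?_ ?_)
    · rw [mem_Z]
      intro i
      refine Fin.addCases (fun i => ?_) (fun j => ?_) i
      · rw [Fin.append_left]
        exact h1 i
      · rw [Fin.append_right]
        exact h2 j
    · exact mem_mspan.1 (mspan_mono (K := K) (coe_dg E d).le f.2)
  have hcard : Module.finrank K ↥(mspan K (↑(dg E (d + 1)) : Set (Fin (E + 1) →₀ ℕ))) =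
      Module.finrank K ((H932R5.Cnd E w → K) × (H932R5.Cnd E (fun _ : Fin q => 1) → K)) := by
    rw [Module.finrank_prod, Module.finrank_fintype_fun_eq_card,
      Module.finrank_fintype_fun_eq_card, card_Cnd, card_Cnd, finrank_mspan, card_dg,
      show d + 1 + E = d + E + 1 by ring, ← hN]
    congr 1
    rw [Finset.sum_const, Finset.card_univ, Fintype.card_fin, add_comm 1 E, Nat.choose_self,
      smul_eq_mul, mul_one]
  have hLs := (LinearMap.injective_iff_surjective_of_finrank_eq_finrank hcard).1 hLi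
  intro y
  obtain ⟨f, hf⟩ := hLs (y, 0)
  exact ⟨f.1, mspan_mono (K := K) (coe_dg E d).le f.2, congrArg Prod.fst hf⟩

theorem EmptyAt.mono_d {K : Type*} [Field K] {E n : ℕ} {w : Fin n → ℕ}
    {P : Fin n → Fin (E + 1) → K} {d d' : ℕ} (hd : d' ≤ d) (h : EmptyAt w P d) :
    EmptyAt w P d' := by
  intro f hf hM
  refine h f hf fun α hα => ?_
  have h1 : Finsupp.degree α ≤ d' := hM α hα
  exact h1.trans hd

/-- The general theorem. -/
theorem all_degrees {K : Type*} [Field K] {E m D : ℕ} (hm : 1 ≤ m)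
    (hG : G K E m D) {n : ℕ} (w : Fin n → ℕ) (hw : ∀ i, w i ≤ m) :
    ∃ F : MvPolynomial (Fin n × Fin (E + 1)) K, F ≠ 0 ∧
      ∀ P : Fin n → Fin (E + 1) → K,
        eval (fun q : Fin n × Fin (E + 1) => P q.1 q.2) F ≠ 0 →
        ∀ d, (D ≤ d ∨ (D + E + 1).choose (E + 1) ≤ ∑ i, (w i + E).choose (E + 1)) →
          ((d + E + 1).choose (E + 1) ≤ ∑ i, (w i + E).choose (E + 1) → EmptyAt w P d) ∧
          (∑ i, (w i + E).choose (E + 1) ≤ (d + E + 1).choose (E + 1) → SurjAt w P d) := by
  classical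
  obtain ⟨S, hS⟩ : ∃ S, S = ∑ i, (w i + E).choose (E + 1) := ⟨_, rfl⟩
  have hmono : ∀ a b : ℕ, a ≤ b → (a + E + 1).choose (E + 1) ≤ (b + E + 1).choose (E + 1) :=
    fun a b hab => Nat.choose_le_choose _ (by omega)
  have hempty : ∀ d, D ≤ d → (d + E + 1).choose (E + 1) ≤ S →
      ∃ F : MvPolynomial (Fin n × Fin (E + 1)) K, F ≠ 0 ∧
        ∀ P : Fin n → Fin (E + 1) → K,
          eval (fun q : Fin n × Fin (E + 1) => P q.1 q.2) F ≠ 0 → EmptyAt w P d := by
    intro d hd h
    rw [hS] at h
    exact open_of_full (hG n w hw d hd h)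
  have hsurj : ∀ d, D ≤ d → S ≤ (d + E + 1).choose (E + 1) →
      ∃ F : MvPolynomial (Fin n × Fin (E + 1)) K, F ≠ 0 ∧
        ∀ P : Fin n → Fin (E + 1) → K,
          eval (fun q : Fin n × Fin (E + 1) => P q.1 q.2) F ≠ 0 → SurjAt w P d := by
    intro d hd h
    obtain ⟨q, hq⟩ : ∃ q, S + q = (d + E + 1).choose (E + 1) := ⟨_, Nat.add_sub_cancel' h⟩
    obtain ⟨x, hx⟩ := hG (n + q) (Fin.append w (fun _ : Fin q => 1)) (fun i => by
      refine Fin.addCases (fun i => ?_) (fun j => ?_) i
      · rw [Fin.append_left]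
        exact hw i
      · rw [Fin.append_right]
        exact hm) d hd (by
      rw [Fin.sum_univ_add]
      simp only [Fin.append_left, Fin.append_right]
      rw [Finset.sum_const, Finset.card_univ, Fintype.card_fin, add_comm 1 E, Nat.choose_self,
        smul_eq_mul, mul_one, ← hS, hq])
    exact surj_open (surj_of_empty hx (by rw [← hS, hq]))
  have hex : ∃ d, D ≤ d ∧ S ≤ (d + E + 1).choose (E + 1) := by
    refine ⟨D + S, by omega, ?_⟩
    have h2 : D + S + 1 ≤ (D + S + E + 1).choose (E + 1) := by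
      have h3 : (D + S + 1).choose 1 ≤ (D + S + E + 1).choose (E + 1) := by
        have h5 : ∀ k, (D + S + 1).choose 1 ≤ (D + S + k + 1).choose (k + 1) := by
          intro k
          induction k with
          | zero => exact le_rfl
          | succ k ih =>
            rw [show D + S + (k + 1) + 1 = (D + S + k + 1) + 1 by ring, Nat.choose_succ_succ]
            exact ih.trans (Nat.le_add_right _ _)
        exact h5 E
      rwa [Nat.choose_one_right] at h3
    omega
  obtain ⟨hfa, hfb⟩ := Nat.find_spec hex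
  have hfmin := fun d => Nat.find_min hex (m := d)
  obtain ⟨f, hf⟩ : ∃ f, f = Nat.find hex := ⟨_, rfl⟩
  rw [← hf] at hfa hfb hfmin
  rw [← hS]
  obtain ⟨F1, hF1, hF1'⟩ := hsurj f hfa hfb
  have hsurj' : ∀ P : Fin n → Fin (E + 1) → K,
      eval (fun q : Fin n × Fin (E + 1) => P q.1 q.2) F1 ≠ 0 → ∀ d, f ≤ d → SurjAt w P d :=
    fun P hP d hd => (hF1' P hP).mono_d hd
  have hemptyS : ∀ P : Fin n → Fin (E + 1) → K, ∀ d, SurjAt w P d →
      (d + E + 1).choose (E + 1) ≤ S → EmptyAt w P d := by
    intro P d h1 h2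
    have h3 := h1.finrank
    rw [← hS] at h3
    have h4 : Module.finrank K ↥(Vd d w P) = 0 := by omega
    rw [finrank_Vd_eq] at h4
    have hfd : FiniteDimensional K ↥(mspan K (Td E d) ⊓ Submodule.restrictScalars K (Z w P)) := by
      have h5 := finite_mspan (K := K) (dg E (d + 1))
      rw [coe_dg] at h5
      exact Submodule.finiteDimensional_of_le inf_le_left
    have h6 := Submodule.finrank_eq_zero.1 h4
    intro g hg hM
    rw [← Submodule.mem_bot (R := K), ← h6, Submodule.mem_inf]
    exact ⟨mem_mspan.2 hM, hg⟩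
  obtain ⟨F2, hF2, hF2'⟩ : ∃ F : MvPolynomial (Fin n × Fin (E + 1)) K, F ≠ 0 ∧
      ∀ P : Fin n → Fin (E + 1) → K,
        eval (fun q : Fin n × Fin (E + 1) => P q.1 q.2) F ≠ 0 →
        ∀ d, (D ≤ d ∨ (D + E + 1).choose (E + 1) ≤ S) → d < f →
          ((d + E + 1).choose (E + 1) ≤ S → EmptyAt w P d) ∧
          (S ≤ (d + E + 1).choose (E + 1) → SurjAt w P d) := by
    rcases Nat.lt_or_ge D f with h | h
    · have h2 := hfmin (f - 1) (by omega)
      have h3 : (f - 1 + E + 1).choose (E + 1) < S := by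
        by_contra h4
        exact h2 ⟨by omega, by omega⟩
      obtain ⟨F, hF, hF'⟩ := hempty (f - 1) (by omega) h3.le
      refine ⟨F, hF, fun P hP d _ hd => ⟨fun _ => EmptyAt.mono_d (by omega) (hF' P hP),
        fun h4 => ?_⟩⟩
      exfalso
      have h5 := hmono d (f - 1) (by omega)
      omega
    · have hDf : f = D := by omega
      by_cases hA : (D + E + 1).choose (E + 1) ≤ S
      · obtain ⟨F, hF, hF'⟩ := hempty D le_rfl hA
        refine ⟨F, hF, fun P hP d _ hd => ⟨fun _ => EmptyAt.mono_d (by omega) (hF' P hP),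
          fun h4 => ?_⟩⟩
        exfalso
        have h5 := hmono (d + 1) D (by omega)
        have h6 : (d + 1 + E + 1).choose (E + 1) = (d + E + 1).choose E +
            (d + E + 1).choose (E + 1) := by
          rw [show d + 1 + E + 1 = (d + E + 1) + 1 by ring, Nat.choose_succ_succ]
        have h7 : 0 < (d + E + 1).choose E := Nat.choose_pos (by omega)
        omega
      · exact ⟨1, one_ne_zero, fun P _ d h1 h2 => by omega⟩
  refine ⟨F1 * F2, mul_ne_zero hF1 hF2, fun P hP d hd => ?_⟩
  rw [map_mul] at hP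
  rcases Nat.lt_or_ge d f with h | h
  · exact hF2' P (right_ne_zero_of_mul hP) d hd h
  · have h1 := hsurj' P (left_ne_zero_of_mul hP) d h
    exact ⟨fun h2 => hemptyS P d h1 h2, fun _ => h1⟩

end Pool.Agent.W608.PR
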