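import Mathlib
import Pool.Agent.H932R5.Points

set_option autoImplicit false

/-!
# From affine to homogeneous coordinates of the points
-/

namespace Pool.Agent.W608.PR

open MvPolynomial

/-- A polynomial condition on the affine coordinates of the points as a polynomial condition on the
homogeneous coordinates. -/
theorem exists_homog {K : Type*} [Field K] {k n : ℕ} (F : MvPolynomial (Fin k × Fin n) K) :
    ∃ (N : ℕ) (Φ : MvPolynomial (Fin k × Fin (n + 1)) K), ∀ v : Fin k → Fin (n + 1) → K,
      (∀ i, v i 0 ≠ 0) →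
      eval (fun x : Fin k × Fin (n + 1) => v x.1 x.2) Φ =
        (∏ i, v i 0) ^ N *
          eval (fun x : Fin k × Fin n => v x.1 x.2.succ / v x.1 0) F := by
  classical
  induction F using MvPolynomial.induction_on with
  | C a => exact ⟨0, C a, fun v _ => by rw [eval_C, eval_C, pow_zero, one_mul]⟩
  | add p q hp hq =>
    obtain ⟨N1, Φ1, h1⟩ := hp
    obtain ⟨N2, Φ2, h2⟩ := hq
    refine ⟨N1 + N2, Φ1 * (∏ i, X (i, 0)) ^ N2 + Φ2 * (∏ i, X (i, 0)) ^ N1, fun v hv => ?_⟩
    rw [map_add, map_mul, map_mul, map_pow, map_pow, map_prod, h1 v hv, h2 v hv, map_add]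
    simp only [eval_X]
    ring
  | mul_X p x hp =>
    obtain ⟨N, Φ, h⟩ := hp
    refine ⟨N + 1, Φ * (X (x.1, x.2.succ) * ∏ i ∈ Finset.univ.erase x.1, X (i, 0)),
      fun v hv => ?_⟩
    rw [map_mul, map_mul, map_mul, h v hv, map_prod]
    simp only [eval_X]
    rw [pow_succ, ← Finset.mul_prod_erase Finset.univ (fun i => v i 0) (Finset.mem_univ x.1)]
    have := hv x.1
    field_simp

/-- The homogeneous prime ideal of a point. -/
theorem mem_span_iff {K : Type*} [Field K] [Infinite K] {n : ℕ} (v : Fin (n + 1) → K)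
    (hv : v 0 ≠ 0) (F : MvPolynomial (Fin (n + 1)) K) :
    F ∈ Ideal.span (Set.range fun j : Fin n =>
        (X j.succ - C (v j.succ / v 0) * X 0 : MvPolynomial (Fin (n + 1)) K)) ↔
      ∀ t : K, eval (t • v) F = 0 := by
  obtain ⟨I, hI⟩ : ∃ I, I = Ideal.span (Set.range fun j : Fin n =>
    (X j.succ - C (v j.succ / v 0) * X 0 : MvPolynomial (Fin (n + 1)) K)) := ⟨_, rfl⟩
  rw [← hI]
  constructor
  · intro hF t
    have h1 : I ≤ RingHom.ker (eval (t • v)) := by
      rw [hI, Ideal.span_le]
      rintro _ ⟨j, rfl⟩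
      show eval (t • v) (X j.succ - C (v j.succ / v 0) * X 0) = 0
      rw [map_sub, map_mul, eval_X, eval_C, eval_X, Pi.smul_apply, Pi.smul_apply, smul_eq_mul,
        smul_eq_mul]
      field_simp
      ring
    exact h1 hF
  · intro hF
    let φ : MvPolynomial (Fin (n + 1)) K →ₐ[K] MvPolynomial (Fin (n + 1)) K :=
      aeval (fun j => C (v j / v 0) * X 0)
    have h1 : (Ideal.Quotient.mk I).comp φ.toRingHom = Ideal.Quotient.mk I := by
      refine MvPolynomial.ringHom_ext (fun c => ?_) fun j => ?_
      · rw [RingHom.comp_apply]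
        exact congrArg _ (φ.commutes c)
      · rw [RingHom.comp_apply]
        show Ideal.Quotient.mk I (φ (X j)) = Ideal.Quotient.mk I (X j)
        rw [show φ (X j) = C (v j / v 0) * X 0 from aeval_X _ j, Ideal.Quotient.eq]
        refine Fin.cases ?_ (fun j => ?_) j
        · rw [div_self hv, C_1, one_mul, sub_self]
          exact Ideal.zero_mem _
        · rw [← neg_mem_iff, neg_sub, hI]
          exact Ideal.subset_span ⟨j, rfl⟩
    have h2 : φ F = 0 := by
      refine MvPolynomial.funext fun u => ?_
      rw [map_zero, ← hF (u 0 / v 0)]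
      have h3 : (eval u).comp φ.toRingHom = eval ((u 0 / v 0) • v) := by
        refine MvPolynomial.ringHom_ext (fun c => ?_) fun j => ?_
        · rw [RingHom.comp_apply]
          show eval u (φ (C c)) = _
          rw [show φ (C c) = C c from φ.commutes c, eval_C, eval_C]
        · rw [RingHom.comp_apply]
          show eval u (φ (X j)) = _
          rw [show φ (X j) = C (v j / v 0) * X 0 from aeval_X _ j, map_mul, eval_C, eval_X,
            eval_X, Pi.smul_apply, smul_eq_mul]
          ring
      exact congrArg (fun g : MvPolynomial (Fin (n + 1)) K →+* K => g F) h3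
    have h3 : Ideal.Quotient.mk I F = 0 := by
      rw [← h1, RingHom.comp_apply]
      show Ideal.Quotient.mk I (φ F) = 0
      rw [h2, map_zero]
    exact Ideal.Quotient.eq_zero_iff_mem.1 h3

theorem finrank_homog {K : Type*} [Field K] (E d : ℕ) :
    Module.finrank K ↥(homogeneousSubmodule (Fin (E + 2)) K d) = (d + E + 1).choose (E + 1) := by
  have h := (H932R5.SurjAt.of_zero (K := K) (E := E) (n := 0) (w := fun _ => 0) (fun _ => rfl)
    (fun i => i.elim0) d).finrank
  rw [Finset.univ_eq_empty, Finset.sum_empty, zero_add] at h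
  rw [← h]
  have h2 : H932R5.Vd (K := K) (E := E) (n := 0) d (fun _ => 0) (fun i => i.elim0) =
      homogeneousSubmodule (Fin (E + 2)) K d := by
    unfold H932R5.Vd
    rw [iInf_of_empty]
    ext f
    rw [Submodule.mem_inf, Submodule.restrictScalars_mem]
    exact ⟨fun h => h.1, fun h => ⟨h, Submodule.mem_top⟩⟩
  rw [h2]

end Pool.Agent.W608.PR
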